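import Pool.Agent.Work.MP_8db9c5_an.Dual

/-!
# Jamesifications: `(e_i)` is boundedly complete
-/

set_option linter.unusedSectionVars false

open Topology Filter Set

namespace Pool.Agent.Work.MP_8db9c5_an

variable {X : Type*} [NormedAddCommGroup X] [NormedSpace ℝ X] [CompleteSpace X]
variable {E : Type*} [NormedAddCommGroup E] [NormedSpace ℝ E]
variable {b : UnconditionalSchauderBasis ℕ ℝ X} {e : ℕ → E}

/-- `V_r` for a finite code -/
theorem V_fin (hJ : IsJamesification b.basis e) {r : ℕ → Option ℕ} (hr : IsCode r) {N : ℕ}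
    (hN : ∀ j, N ≤ j → r j = none) (z : E) :
    V b.basis e r z = ∑ j ∈ Finset.range N, (S b e (j + 1) z - S b e j z) • ox b.basis (r j) := by
  have : V b.basis e r = ∑ j ∈ Finset.range N,
      (S b e (j + 1) - S b e j).smulRight (ox b.basis (r j)) :=
    clm_ext hJ.dense fun i => by
      rw [V_basis hJ hr, _root_.sum_apply]
      have h1 : ∀ j ∈ Finset.range N,
          ((S b e (j + 1) - S b e j).smulRight (ox b.basis (r j))) (e i) =
          if i = j then ox b.basis (r j) else 0 := by
        intro j _
        rw [ContinuousLinearMap.smulRight_apply, _root_.sub_apply, S_basis hJ, S_basis hJ]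
        by_cases h2 : i = j
        · subst h2
          rw [if_pos (by omega), if_neg (by omega), sub_zero, one_smul, if_pos rfl]
        · by_cases h3 : i < j
          · rw [if_pos (by omega), if_pos h3, sub_self, zero_smul, if_neg h2]
          · rw [if_neg (by omega), if_neg h3, sub_self, zero_smul, if_neg h2]
      rw [Finset.sum_congr rfl h1, Finset.sum_ite_eq]
      split_ifs with h4
      · rfl
      · rw [hN i (by rw [Finset.mem_range] at h4; omega), ox_none]
  rw [this, _root_.sum_apply]
  rfl

/-- bounded sequences give bounded finite codes -/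
theorem fin_bound (hJ : IsJamesification b.basis e) (U : Ultrafilter ℕ) {v : ℕ → E}
    (hv : ∀ n, ‖v n‖ ≤ 1) {l : ℕ → ℝ} (hl : ∀ k, Tendsto (fun n => S b e k (v n)) U (𝓝 (l k)))
    {r : ℕ → Option ℕ} (hr : IsCode r) {N : ℕ} (hN : ∀ j, N ≤ j → r j = none) :
    ‖∑ j ∈ Finset.range N, (l (j + 1) - l j) • ox b.basis (r j)‖ ≤ 1 := by
  have h1 : Tendsto (fun n => ‖V b.basis e r (v n)‖) U
      (𝓝 ‖∑ j ∈ Finset.range N, (l (j + 1) - l j) • ox b.basis (r j)‖) := by
    simp only [V_fin hJ hr hN]
    refine Tendsto.norm (tendsto_finsetSum _ fun j _ => ?_)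
    exact ((hl (j + 1)).sub (hl j)).smul_const _
  exact le_of_tendsto' h1 fun n => (norm_V_le hJ hr (v n)).trans (hv n)

/-- gliding hump: the finite codes far away are small -/
theorem tail_small (hrefl : Function.Surjective (NormedSpace.inclusionInDoubleDual ℝ X))
    (a : ℕ → ℝ)
    (hbound : ∀ (r : ℕ → Option ℕ), IsCode r → ∀ N, (∀ j, N ≤ j → r j = none) →
      ‖∑ j ∈ Finset.range N, a j • ox b.basis (r j)‖ ≤ 1) {ε : ℝ} (hε : 0 < ε) :
    ∃ m, ∀ (r : ℕ → Option ℕ), IsCode r → (∀ j, j < m → r j = none) →
      ∀ N, (∀ j, N ≤ j → r j = none) →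
        ‖∑ j ∈ Finset.range N, a j • ox b.basis (r j)‖ ≤ ε := by
  by_contra hcon
  push Not at hcon
  choose R hR hRm N hRN hlarge using hcon
  have hN : ∀ m, m < N m := by
    intro m
    by_contra h
    have : ∑ j ∈ Finset.range (N m), a j • ox b.basis (R m j) = 0 :=
      Finset.sum_eq_zero fun j hj => by
        rw [hRm m j (by have := Finset.mem_range.1 hj; omega), ox_none, smul_zero]
    have h2 := hlarge m
    rw [this, norm_zero] at h2
    linarith
  obtain ⟨ms, hms0, hmss⟩ : ∃ ms : ℕ → ℕ, ms 0 = 0 ∧ ∀ i, ms (i + 1) = N (ms i) :=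
    ⟨fun i => Nat.rec 0 (fun _ m => N m) i, rfl, fun _ => rfl⟩
  have hmono : StrictMono ms := strictMono_nat_of_lt_succ fun i => by
    rw [hmss]; exact hN _
  have hge : ∀ i, i ≤ ms i := fun i => hmono.id_le i
  let idx : ℕ → ℕ := fun j => Nat.findGreatest (fun i => ms i ≤ j) j
  have hidx1 : ∀ j, ms (idx j) ≤ j := fun j => by
    have := Nat.findGreatest_spec (P := fun i => ms i ≤ j) (m := 0) (n := j) (Nat.zero_le _)
      (by simp [hms0])
    exact this
  have hidx : ∀ i j, ms i ≤ j → j < ms (i + 1) → idx j = i := by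
    intro i j h1 h2
    have h3 := hidx1 j
    have h4 : i ≤ idx j := Nat.le_findGreatest ((hge i).trans h1) h1
    by_contra h5
    have h6 : i + 1 ≤ idx j := by omega
    have := hmono.monotone h6
    omega
  have hidx2 : ∀ j, j < ms (idx j + 1) := by
    intro j
    by_contra h
    have h1 : ms (idx j + 1) ≤ j := by omega
    have h2 : idx j + 1 ≤ idx j :=
      Nat.le_findGreatest ((hge _).trans h1) h1
    omega
  let r : ℕ → Option ℕ := fun j => R (ms (idx j)) j
  have hr : IsCode r := by
    intro j p hj
    obtain ⟨h1, h2⟩ := hR (ms (idx j)) j p hj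
    refine ⟨h1, fun i hi1 hi2 => ?_⟩
    have h3 := h2 i hi1 hi2
    have h4 : ms (idx j) ≤ i := by
      by_contra h5
      rw [hRm _ i (by omega)] at h3
      simp at h3
    have h5 : idx i = idx j := hidx _ _ h4 (lt_of_le_of_lt hi2 (hidx2 j))
    change R (ms (idx i)) i = some p
    rw [h5]
    exact h3
  -- partial sums
  have hWb : ∀ I, ‖∑ j ∈ Finset.range (ms I), a j • ox b.basis (r j)‖ ≤ 1 := by
    intro I
    have h1 := hbound (fun j => if j < ms I then r j else none) (by
      intro j p hj
      simp only at hj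
      split_ifs at hj with h2
      obtain ⟨h3, h4⟩ := hr j p hj
      exact ⟨h3, fun i hi1 hi2 => by
        simp only
        rw [if_pos (by omega)]; exact h4 i hi1 hi2⟩) (ms I) (fun j hj => by
        rw [if_neg (by omega)])
    refine le_trans (le_of_eq ?_) h1
    congr 1
    refine Finset.sum_congr rfl fun j hj => ?_
    rw [if_pos (Finset.mem_range.1 hj)]
  obtain ⟨w, hw⟩ := exists_weak_lim hrefl (hyperfilter ℕ)
    (fun I => ∑ j ∈ Finset.range (ms I), a j • ox b.basis (r j)) 1 hWb
  let Vi : ℕ → X := fun i => ∑ j ∈ Finset.range (N (ms i)), a j • ox b.basis (R (ms i) j)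
  have hVi : ∀ i, Vi i = ∑ j ∈ Finset.Ico (ms i) (ms (i + 1)), a j • ox b.basis (r j) := by
    intro i
    change ∑ j ∈ Finset.range (N (ms i)), a j • ox b.basis (R (ms i) j) = _
    rw [← hmss i, Finset.range_eq_Ico, ← Finset.sum_Ico_consecutive _ (Nat.zero_le (ms i))
      (hmono (Nat.lt_succ_self i)).le]
    have h1 : ∑ j ∈ Finset.Ico 0 (ms i), a j • ox b.basis (R (ms i) j) = 0 :=
      Finset.sum_eq_zero fun j hj => by
        rw [hRm _ j (Finset.mem_Ico.1 hj).2, ox_none, smul_zero]
    rw [h1, zero_add]
    refine Finset.sum_congr rfl fun j hj => ?_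
    obtain ⟨h2, h3⟩ := Finset.mem_Ico.1 hj
    change _ = a j • ox b.basis (R (ms (idx j)) j)
    rw [hidx i j h2 h3]
  -- the projection onto a block
  have hproj : ∀ i j, b.proj (Finset.Ico (ms i) (ms (i + 1))) (ox b.basis (r j)) =
      if ms i ≤ j ∧ j < ms (i + 1) then ox b.basis (r j) else 0 := by
    classical
    intro i j
    rcases h : r j with _ | p
    · rw [ox_none, map_zero]; simp
    · obtain ⟨h1, h2⟩ := hr j p h
      have h3 := hidx1 j
      have h4 := hidx2 j
      have h5 : ms (idx j) ≤ p := by
        by_contra h6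
        have h7 : R (ms (idx j)) p = some p := (hR _ j p h).2 p le_rfl h1
        rw [hRm _ p (by omega)] at h7
        simp at h7
      rw [ox_some, GeneralSchauderBasis.proj_apply_basis_mem]
      by_cases h8 : ms i ≤ j ∧ j < ms (i + 1)
      · have h9 := hidx i j h8.1 h8.2
        rw [if_pos h8, if_pos]
        rw [Finset.mem_Ico]
        rw [h9] at h5
        exact ⟨h5, by omega⟩
      · rw [if_neg h8, if_neg]
        rw [Finset.mem_Ico]
        rintro ⟨h10, h11⟩
        have h12 := hidx i p h10 h11
        have h13 := hidx (idx j) p h5 (lt_of_le_of_lt h1 h4)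
        rw [h12] at h13
        rw [← h13] at h3 h4
        exact h8 ⟨h3, h4⟩
  have hprojW : ∀ i I, i < I → b.proj (Finset.Ico (ms i) (ms (i + 1)))
      (∑ j ∈ Finset.range (ms I), a j • ox b.basis (r j)) = Vi i := by
    intro i I hI
    rw [map_sum, hVi i]
    have h1 : ∀ j ∈ Finset.range (ms I), b.proj (Finset.Ico (ms i) (ms (i + 1)))
        (a j • ox b.basis (r j)) =
        if j ∈ Finset.Ico (ms i) (ms (i + 1)) then a j • ox b.basis (r j) else 0 := by
      intro j _
      rw [map_smul, hproj i j]
      simp only [Finset.mem_Ico]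
      split_ifs <;> simp
    rw [Finset.sum_congr rfl h1, ← Finset.sum_filter]
    refine Finset.sum_congr ?_ fun _ _ => rfl
    ext j
    simp only [Finset.mem_filter, Finset.mem_range, Finset.mem_Ico]
    have := hmono.monotone (show i + 1 ≤ I by omega)
    omega
  have hprojw : ∀ i, b.proj (Finset.Ico (ms i) (ms (i + 1))) w = Vi i := by
    intro i
    refine (SeparatingDual.eq_iff_forall_dual_eq (R := ℝ)).2 fun g => ?_
    have h1 := hw (g.comp (b.proj (Finset.Ico (ms i) (ms (i + 1)))))
    have h2 : ∀ᶠ I in (hyperfilter ℕ : Filter ℕ),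
        (g.comp (b.proj (Finset.Ico (ms i) (ms (i + 1)))))
          (∑ j ∈ Finset.range (ms I), a j • ox b.basis (r j)) = g (Vi i) := by
      have h3 : ∀ᶠ I in (hyperfilter ℕ : Filter ℕ), i < I :=
        Nat.hyperfilter_le_atTop (eventually_gt_atTop i)
      refine h3.mono fun I hI => ?_
      rw [ContinuousLinearMap.comp_apply, hprojW i I hI]
    exact tendsto_nhds_unique h1 (tendsto_const_nhds.congr' (h2.mono fun n hn => hn.symm))
  have hlim : Tendsto (fun i => b.proj (Finset.Ico (ms i) (ms (i + 1))) w) atTop (𝓝 0) := by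
    have h1 := (tendsto_range b w).comp hmono.tendsto_atTop
    have h2 := (tendsto_range b w).comp (hmono.tendsto_atTop.comp (tendsto_add_atTop_nat 1))
    have h3 := h2.sub h1
    rw [sub_self] at h3
    refine h3.congr fun i => ?_
    simp only [Function.comp_apply]
    rw [GeneralSchauderBasis.proj_apply, GeneralSchauderBasis.proj_apply,
      GeneralSchauderBasis.proj_apply, Finset.sum_Ico_eq_sub _ (hmono (Nat.lt_succ_self i)).le]
  have h1 : Tendsto (fun i => ‖Vi i‖) atTop (𝓝 0) := by
    have := hlim.norm
    rw [norm_zero] at this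
    refine this.congr fun i => ?_
    rw [hprojw i]
  have h2 : ε ≤ 0 := ge_of_tendsto' h1 fun i => (hlarge (ms i)).le
  linarith

/-- bounded completeness of `(e_i)` -/
theorem exists_limit [CompleteSpace E]
    (hrefl : Function.Surjective (NormedSpace.inclusionInDoubleDual ℝ X))
    (hn : ∀ i, ‖b i‖ = 1) (hJ : IsJamesification b.basis e) (U : Ultrafilter ℕ) {v : ℕ → E}
    (hv : ∀ n, ‖v n‖ ≤ 1) : ∃ z : E, ∀ k, Tendsto (fun n => S b e k (v n)) U (𝓝 (S b e k z)) := by
  have h1 : ∀ k, ∃ l : ℝ, |l| ≤ 1 ∧ Tendsto (fun n => S b e k (v n)) U (𝓝 l) := fun k =>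
    exists_real_lim U _ 1 fun n => (abs_S_le hn hJ k (v n)).trans (hv n)
  choose l _ hl using h1
  have hl0 : l 0 = 0 := by
    refine tendsto_nhds_unique (hl 0) ?_
    simp only [S_zero hJ]
    exact tendsto_const_nhds
  set a : ℕ → ℝ := fun j => l (j + 1) - l j with ha
  have htail : ∀ ε : ℝ, 0 < ε → ∃ m, ∀ (r : ℕ → Option ℕ), IsCode r →
      (∀ j, j < m → r j = none) → ∀ N, (∀ j, N ≤ j → r j = none) →
      ‖∑ j ∈ Finset.range N, a j • ox b.basis (r j)‖ ≤ ε := fun ε hε =>
    tail_small hrefl a (fun r hr N hN => fin_bound hJ U hv hl hr hN) hε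
  set zs : ℕ → E := fun m => ∑ j ∈ Finset.range m, a j • e j with hzs
  have hcauchy : CauchySeq zs := by
    rw [Metric.cauchySeq_iff']
    intro ε hε
    obtain ⟨m, hm⟩ := htail (ε / 4) (by positivity)
    refine ⟨m, fun m' hm' => ?_⟩
    rw [dist_eq_norm]
    have h2 : zs m' - zs m = ∑ j ∈ Finset.Ico m m', a j • e j := by
      rw [hzs, Finset.sum_Ico_eq_sub _ hm']
    obtain ⟨r, hr, ⟨N0, hN0⟩, hlt⟩ := exists_near_code hJ (zs m' - zs m)
      (ε := ε / 4) (by positivity)
    -- the two parts
    have hV : V b.basis e r (zs m' - zs m) = ∑ j ∈ Finset.Ico m m', a j • ox b.basis (r j) := by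
      rw [h2, map_sum]
      refine Finset.sum_congr rfl fun j _ => ?_
      rw [map_smul, V_basis hJ hr]
    -- second part: starting points `≥ m`
    have hB := hm (fun j => if j < m' then rfil (Ici m) r j else none) (by
      intro j p hj
      simp only at hj
      split_ifs at hj with h3
      obtain ⟨h4, h5⟩ := isCode_rfil hr j p hj
      exact ⟨h4, fun i hi1 hi2 => by
        simp only
        rw [if_pos (by omega)]; exact h5 i hi1 hi2⟩) (by
      intro j hj
      split_ifs with h3
      · rcases h4 : rfil (Ici m) r j with _ | p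
        · rfl
        · obtain ⟨h5, h6⟩ := rfil_eq_some.1 h4
          have h7 := (hr j p h5).1
          have h8 : m ≤ p := h6
          omega
      · rfl) m' (fun j hj => by
        rw [if_neg (by omega)])
    -- first part: the interval that starts before `m`
    have hA := hm (fun j => if j < m' ∧ m ≤ j ∧ ∃ p, p < m ∧ r j = some p then some m else none)
      (by
      intro j p hj
      simp only at hj
      split_ifs at hj with h3
      simp only [Option.some.injEq] at hj
      subst hj
      obtain ⟨h4, h5, p, hp, hrp⟩ := h3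
      refine ⟨h5, fun i hi1 hi2 => ?_⟩
      simp only
      rw [if_pos ⟨by omega, hi1, p, hp, (hr j p hrp).2 i (by omega) hi2⟩]) (by
      intro j hj
      rw [if_neg (by omega)]) m' (fun j hj => by
      rw [if_neg (by omega)])
    have hsplit : V b.basis e r (zs m' - zs m) =
        (∑ j ∈ Finset.range m', a j • (if m ≤ j ∧ ∃ p, p < m ∧ r j = some p
          then ox b.basis (r m) else 0)) +
        ∑ j ∈ Finset.range m', a j • ox b.basis (if j < m' then rfil (Ici m) r j else none) := by
      rw [hV, ← Finset.sum_add_distrib, Finset.range_eq_Ico,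
        ← Finset.sum_Ico_consecutive _ (Nat.zero_le m) hm']
      have h3 : ∑ i ∈ Finset.Ico 0 m, (a i • (if m ≤ i ∧ ∃ p, p < m ∧ r i = some p
          then ox b.basis (r m) else 0) + a i • ox b.basis
          (if i < m' then rfil (Ici m) r i else none)) = 0 := by
        refine Finset.sum_eq_zero fun j hj => ?_
        have hj2 := (Finset.mem_Ico.1 hj).2
        rw [if_neg (by omega), smul_zero, zero_add]
        have h4 : rfil (Ici m) r j = none := by
          rcases h4 : rfil (Ici m) r j with _ | p
          · rfl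
          · obtain ⟨h5, h6⟩ := rfil_eq_some.1 h4
            have h7 := (hr j p h5).1
            have h8 : m ≤ p := h6
            omega
        rw [h4]
        simp
      rw [h3, zero_add]
      refine Finset.sum_congr rfl fun j hj => ?_
      obtain ⟨hj1, hj2⟩ := Finset.mem_Ico.1 hj
      rw [if_pos hj2, ← smul_add]
      congr 1
      rcases h4 : r j with _ | p
      · rw [if_neg (by simp)]
        have h5 : rfil (Ici m) r j = none := by
          rcases h5 : rfil (Ici m) r j with _ | p
          · rfl
          · rw [(rfil_eq_some.1 h5).1] at h4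
            simp at h4
        rw [h5]; simp
      · by_cases hp : p < m
        · rw [if_pos ⟨hj1, p, hp, rfl⟩]
          have h5 : rfil (Ici m) r j = none := by
            rcases h5 : rfil (Ici m) r j with _ | p'
            · rfl
            · obtain ⟨h6, h7⟩ := rfil_eq_some.1 h5
              rw [h4] at h6
              simp only [Option.some.injEq] at h6
              have h8 : m ≤ p' := h7
              omega
          rw [h5, (hr j p h4).2 m (by omega) hj1]
          simp
        · rw [if_neg (by
            rintro ⟨_, p', hp', h6⟩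
            simp only [Option.some.injEq] at h6
            omega), (rfil_eq_some (A := Ici m)).2 ⟨h4, by
              change m ≤ p; omega⟩]
          simp
    have hA2 : ‖∑ j ∈ Finset.range m', a j • (if m ≤ j ∧ ∃ p, p < m ∧ r j = some p
        then ox b.basis (r m) else 0)‖ ≤ ε / 4 := by
      have h3 : ∀ (y : X), ∑ j ∈ Finset.range m', a j •
          (if m ≤ j ∧ ∃ p, p < m ∧ r j = some p then y else 0) =
          (∑ j ∈ Finset.range m', if m ≤ j ∧ ∃ p, p < m ∧ r j = some p then a j else 0) • y := by
        intro y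
        rw [Finset.sum_smul]
        refine Finset.sum_congr rfl fun j _ => ?_
        split_ifs <;> simp
      have h4 : ∑ j ∈ Finset.range m', a j • ox b.basis
          (if j < m' ∧ m ≤ j ∧ ∃ p, p < m ∧ r j = some p then some m else none) =
          ∑ j ∈ Finset.range m', a j •
          (if m ≤ j ∧ ∃ p, p < m ∧ r j = some p then b m else 0) := by
        refine Finset.sum_congr rfl fun j hj => ?_
        have hj2 := Finset.mem_range.1 hj
        congr 1
        by_cases h5 : m ≤ j ∧ ∃ p, p < m ∧ r j = some p
        · rw [if_pos h5, if_pos ⟨hj2, h5⟩, ox_some]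
        · rw [if_neg h5, if_neg (fun h6 => h5 h6.2), ox_none]
      rw [h4, h3, norm_smul, hn, mul_one] at hA
      rw [h3, norm_smul]
      have h5 : ‖ox b.basis (r m)‖ ≤ 1 := by
        rcases r m with _ | p
        · simp
        · rw [ox_some, hn]
      refine (mul_le_of_le_one_right (norm_nonneg _) h5).trans hA
    have h3 : ‖V b.basis e r (zs m' - zs m)‖ ≤ ε / 4 + ε / 4 := by
      rw [hsplit]
      exact (norm_add_le _ _).trans (add_le_add hA2 hB)
    linarith
  obtain ⟨z, hz⟩ := cauchySeq_tendsto_of_complete hcauchy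
  refine ⟨z, fun k => ?_⟩
  have h2 : S b e k z = l k := by
    refine tendsto_nhds_unique (((S b e k).continuous.tendsto z).comp hz) ?_
    have h3 : ∀ m, k ≤ m → S b e k (zs m) = l k := by
      intro m hm
      rw [hzs, map_sum]
      have h4 : ∀ j ∈ Finset.range m, S b e k (a j • e j) = if j < k then a j else 0 := by
        intro j _
        rw [map_smul, S_basis hJ, smul_eq_mul]
        split_ifs <;> simp
      rw [Finset.sum_congr rfl h4, ← Finset.sum_filter]
      have h5 : Finset.filter (fun j => j < k) (Finset.range m) = Finset.range k := by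
        ext j
        simp only [Finset.mem_filter, Finset.mem_range]
        omega
      rw [h5, ha, Finset.sum_range_sub, hl0, sub_zero]
    refine tendsto_const_nhds.congr' ?_
    filter_upwards [eventually_ge_atTop k] with m hm
    exact (h3 m hm).symm
  rw [h2]
  exact hl k

end Pool.Agent.Work.MP_8db9c5_an
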