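import Pool.Agent.Work.MP_8db9c5_an.Defs

/-!
# Jamesifications: codes for chains of intervals
-/

set_option linter.unusedSectionVars false

open Topology Filter Set

namespace Pool.Agent.Work.MP_8db9c5_an

variable {X : Type*} [NormedAddCommGroup X] [NormedSpace ℝ X]

/-- `r j = some p` means that `j` lies in an interval of the chain which starts at `p` -/
def IsCode (r : ℕ → Option ℕ) : Prop :=
  ∀ j p, r j = some p → p ≤ j ∧ ∀ i, p ≤ i → i ≤ j → r i = some p

/-- `x_p` or `0` -/
def ox (x : ℕ → X) (o : Option ℕ) : X := o.elim 0 x

@[simp] theorem ox_none (x : ℕ → X) : ox x none = 0 := rfl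
@[simp] theorem ox_some (x : ℕ → X) (p : ℕ) : ox x (some p) = x p := rfl

theorem chain_q_lt {k : ℕ} {p q : ℕ → ℕ} (h : IsChain (k + 1) p q) : ∀ i, i < k → q i < p k := by
  have key : ∀ m, m ≤ k → ∀ i, i < m → q i < p m := by
    intro m
    induction m with
    | zero => intro _ i hi; omega
    | succ m ih =>
      intro hm i hi
      rcases Nat.lt_succ_iff_lt_or_eq.1 hi with h1 | h1
      · have h2 := ih (by omega) i h1
        have h3 := h.1 m (by omega)
        have h4 := h.2 m (by omega)
        omega
      · subst h1
        exact h.2 i (by omega)
  exact key k le_rfl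

/-- every chain has a code -/
theorem exists_code (x : ℕ → X) (k : ℕ) (p q : ℕ → ℕ) (h : IsChain k p q) :
    ∃ r : ℕ → Option ℕ, IsCode r ∧ (∀ j, (∀ i, i < k → q i < j) → r j = none) ∧
      ∀ a : ℕ →₀ ℝ, (a.sum fun j c => c • ox x (r j)) = jvec x a k p q := by
  classical
  induction k with
  | zero =>
    refine ⟨fun _ => none, fun j p h => by simp at h, fun _ _ => rfl, fun a => ?_⟩
    simp [jvec, Finsupp.sum]
  | succ k ih =>
    have hk : IsChain k p q := ⟨fun i hi => h.1 i (by omega), fun i hi => h.2 i (by omega)⟩
    obtain ⟨r, hr1, hr2, hr3⟩ := ih hk
    have hlt := chain_q_lt h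
    have hpq : p k ≤ q k := h.1 k (by omega)
    have hnone : ∀ j, p k ≤ j → r j = none := fun j hj =>
      hr2 j fun i hi => lt_of_lt_of_le (hlt i hi) hj
    refine ⟨fun j => if p k ≤ j ∧ j ≤ q k then some (p k) else r j, ?_, ?_, ?_⟩
    · intro j p' hj
      simp only at hj
      split_ifs at hj with h1
      · simp only [Option.some.injEq] at hj
        subst hj
        refine ⟨h1.1, fun i hi1 hi2 => ?_⟩
        simp only
        rw [if_pos ⟨hi1, hi2.trans h1.2⟩]
      · have hjk : j < p k := by
          by_contra hc
          rw [hnone j (by omega)] at hj
          simp at hj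
        obtain ⟨h2, h3⟩ := hr1 j p' hj
        refine ⟨h2, fun i hi1 hi2 => ?_⟩
        simp only
        rw [if_neg (by omega)]
        exact h3 i hi1 hi2
    · intro j hj
      simp only
      have h1 := hj k (by omega)
      rw [if_neg (by omega)]
      exact hr2 j fun i hi => hj i (by omega)
    · intro a
      have h1 : jvec x a (k + 1) p q = jvec x a k p q +
          (∑ j ∈ Finset.Icc (p k) (q k), a j) • x (p k) := by
        unfold jvec
        rw [Finset.sum_range_succ]
      rw [h1, ← hr3 a]
      have h2 : (∑ j ∈ Finset.Icc (p k) (q k), a j) • x (p k) =
          a.sum fun j c => c • (if p k ≤ j ∧ j ≤ q k then x (p k) else 0) := by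
        rw [Finset.sum_smul, Finsupp.sum]
        have h3 : ∀ j, a j • (if p k ≤ j ∧ j ≤ q k then x (p k) else 0) =
            if j ∈ Finset.Icc (p k) (q k) then a j • x (p k) else 0 := by
          intro j
          simp only [Finset.mem_Icc]
          split_ifs <;> simp
        simp only [h3]
        rw [← Finset.sum_filter]
        refine (Finset.sum_subset ?_ ?_).symm
        · intro j hj; exact (Finset.mem_filter.1 hj).2
        · intro j hj hj2
          have : a j = 0 := by
            by_contra hc
            exact hj2 (Finset.mem_filter.2 ⟨Finsupp.mem_support_iff.2 hc, hj⟩)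
          rw [this, zero_smul]
      rw [h2, ← Finsupp.sum_add]
      refine Finsupp.sum_congr fun j _ => ?_
      rw [← smul_add]
      congr 1
      by_cases hj : p k ≤ j ∧ j ≤ q k
      · simp only [if_pos hj, ox_some, hnone j hj.1, ox_none, zero_add]
      · simp only [if_neg hj, add_zero]

/-- the truncation of a code comes from a chain -/
theorem exists_chain (x : ℕ → X) {r : ℕ → Option ℕ} (hr : IsCode r) (n : ℕ) :
    ∃ (k : ℕ) (p q : ℕ → ℕ), IsChain k p q ∧ (∀ i, i < k → q i < n) ∧
      (∀ m, n = m + 1 → ∀ p', r m = some p' → ∃ k', k = k' + 1 ∧ p k' = p' ∧ q k' = m) ∧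
      ∀ a : ℕ → ℝ, jvec x a k p q = ∑ j ∈ Finset.range n, a j • ox x (r j) := by
  classical
  induction n with
  | zero =>
    refine ⟨0, fun _ => 0, fun _ => 0, ⟨fun i hi => by omega, fun i hi => by omega⟩,
      fun i hi => by omega, fun m hm => by omega, fun a => by simp [jvec]⟩
  | succ n ih =>
    obtain ⟨k, p, q, h1, h2, h3, h4⟩ := ih
    rcases hrn : r n with _ | p'
    · refine ⟨k, p, q, h1, fun i hi => (h2 i hi).trans (by omega), ?_, fun a => ?_⟩
      · intro m hm p' hp'
        have : m = n := by omega
        subst this
        rw [hrn] at hp'
        simp at hp'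
      · rw [Finset.sum_range_succ, hrn, ox_none, smul_zero, add_zero, h4]
    · obtain ⟨hle, hcode⟩ := hr n p' hrn
      rcases hle.eq_or_lt with he | hlt
      · -- a new interval
        subst he
        refine ⟨k + 1, Function.update p k p', Function.update q k p', ⟨?_, ?_⟩, ?_, ?_, ?_⟩
        · intro i hi
          by_cases hik : i = k
          · subst hik; simp
          · rw [Function.update_of_ne hik, Function.update_of_ne hik]
            exact h1.1 i (by omega)
        · intro i hi
          have hik : i ≠ k := by omega
          rw [Function.update_of_ne hik]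
          by_cases hik2 : i + 1 = k
          · rw [hik2, Function.update_self]
            exact h2 i (by omega)
          · rw [Function.update_of_ne hik2]
            exact h1.2 i (by omega)
        · intro i hi
          by_cases hik : i = k
          · subst hik; simp
          · rw [Function.update_of_ne hik]
            exact (h2 i (by omega)).trans (by omega)
        · intro m hm p'' hp''
          have : m = p' := by omega
          subst this
          rw [hrn] at hp''
          simp only [Option.some.injEq] at hp''
          exact ⟨k, rfl, by simp [hp''], by simp⟩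
        · intro a
          rw [Finset.sum_range_succ, hrn, ox_some, ← h4]
          unfold jvec
          rw [Finset.sum_range_succ]
          congr 1
          · refine Finset.sum_congr rfl fun i hi => ?_
            have hik : i ≠ k := (Finset.mem_range.1 hi).ne
            rw [Function.update_of_ne hik, Function.update_of_ne hik]
          · simp
      · -- the last interval is prolonged
        obtain ⟨m, rfl⟩ : ∃ m, n = m + 1 := ⟨n - 1, by omega⟩
        have hm : r m = some p' := hcode m (by omega) (by omega)
        obtain ⟨k', rfl, hp, hq⟩ := h3 m rfl p' hm
        refine ⟨k' + 1, p, Function.update q k' (m + 1), ⟨?_, ?_⟩, ?_, ?_, ?_⟩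
        · intro i hi
          by_cases hik : i = k'
          · subst hik; simp only [Function.update_self]; omega
          · rw [Function.update_of_ne hik]
            exact h1.1 i (by omega)
        · intro i hi
          have hik : i ≠ k' := by omega
          rw [Function.update_of_ne hik]
          exact h1.2 i (by omega)
        · intro i hi
          by_cases hik : i = k'
          · subst hik; simp
          · rw [Function.update_of_ne hik]
            exact (h2 i (by omega)).trans (by omega)
        · intro m' hm' p'' hp''
          have : m' = m + 1 := by omega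
          subst this
          rw [hrn] at hp''
          simp only [Option.some.injEq] at hp''
          exact ⟨k', rfl, by rw [hp, hp''], by simp⟩
        · intro a
          rw [Finset.sum_range_succ, hrn, ox_some, ← h4]
          unfold jvec
          rw [Finset.sum_range_succ, Finset.sum_range_succ, Function.update_self, add_assoc]
          congr 1
          · refine Finset.sum_congr rfl fun i hi => ?_
            have hik : i ≠ k' := (Finset.mem_range.1 hi).ne
            rw [Function.update_of_ne hik]
          · rw [hp, hq, ← add_smul]
            congr 1
            rw [← Finset.sum_Icc_succ_top (by omega)]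

end Pool.Agent.Work.MP_8db9c5_an
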