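import Pool.Agent.Work.MP_8db9c5_an.Bd.B01

/-!
# Unconditional bases of reflexive spaces: shrinking, boundedly complete
-/

open Topology Filter Set

namespace Pool.Agent.Work.MP_8db9c5_an

variable {X : Type*} [NormedAddCommGroup X] [NormedSpace ℝ X]

theorem tendsto_range (b : UnconditionalSchauderBasis ℕ ℝ X) (v : X) :
    Tendsto (fun n => b.proj (Finset.range n) v) atTop (𝓝 v) := by
  have h := GeneralSchauderBasis.tendsto_proj b v
  rw [SummationFilter.unconditional_filter] at h
  exact h.comp Filter.tendsto_finset_range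

theorem dense_span_basis (b : UnconditionalSchauderBasis ℕ ℝ X) :
    Dense (Submodule.span ℝ (Set.range b) : Set X) := by
  intro v
  refine mem_closure_of_tendsto (tendsto_range b v) (Eventually.of_forall fun n => ?_)
  rw [GeneralSchauderBasis.proj_apply]
  exact Submodule.sum_mem _ fun i _ => Submodule.smul_mem _ _ (Submodule.subset_span ⟨i, rfl⟩)

theorem coord_basis (b : UnconditionalSchauderBasis ℕ ℝ X) (i j : ℕ) :
    b.coord i (b j) = if i = j then 1 else 0 := by
  simp [b.ortho, Pi.single_apply]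

/-- the tail of a vector -/
noncomputable def Q (b : UnconditionalSchauderBasis ℕ ℝ X) (n : ℕ) : X →L[ℝ] X :=
  ContinuousLinearMap.id ℝ X - b.proj (Finset.range n)

theorem Q_apply (b : UnconditionalSchauderBasis ℕ ℝ X) (n : ℕ) (v : X) :
    Q b n v = v - b.proj (Finset.range n) v := rfl

theorem tendsto_Q (b : UnconditionalSchauderBasis ℕ ℝ X) (v : X) :
    Tendsto (fun n => Q b n v) atTop (𝓝 0) := by
  have := (tendsto_range b v).const_sub v
  rw [sub_self] at this
  exact this

theorem Q_basis (b : UnconditionalSchauderBasis ℕ ℝ X) (n i : ℕ) :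
    Q b n (b i) = if n ≤ i then b i else 0 := by
  classical
  rw [Q_apply, GeneralSchauderBasis.proj_apply_basis_mem]
  by_cases h : n ≤ i
  · rw [if_pos h, if_neg (by rw [Finset.mem_range]; omega), sub_zero]
  · rw [if_neg h, if_pos (by rw [Finset.mem_range]; omega), sub_self]

theorem coord_Q (b : UnconditionalSchauderBasis ℕ ℝ X) {n i : ℕ} (h : i < n) (v : X) :
    b.coord i (Q b n v) = 0 := by
  rw [Q_apply, map_sub, GeneralSchauderBasis.proj_apply, map_sum]
  have : ∀ j ∈ Finset.range n, b.coord i (b.coord j v • b j) =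
      if i = j then b.coord j v else 0 := by
    intro j _
    rw [map_smul, coord_basis, smul_eq_mul]
    split_ifs <;> simp
  rw [Finset.sum_congr rfl this, Finset.sum_ite_eq, if_pos (Finset.mem_range.2 h), sub_self]

theorem eq_zero_of_coord (b : UnconditionalSchauderBasis ℕ ℝ X) {v : X}
    (h : ∀ i, b.coord i v = 0) : v = 0 := by
  have h1 := tendsto_range b v
  have h2 : ∀ n, b.proj (Finset.range n) v = 0 := fun n => by
    rw [GeneralSchauderBasis.proj_apply]
    exact Finset.sum_eq_zero fun i _ => by rw [h i, zero_smul]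
  simp only [h2] at h1
  exact tendsto_nhds_unique tendsto_const_nhds h1 |>.symm ▸ rfl

theorem exists_Q_bound [CompleteSpace X] (b : UnconditionalSchauderBasis ℕ ℝ X) :
    ∃ C : ℝ, 0 < C ∧ ∀ n v, ‖Q b n v‖ ≤ C * ‖v‖ := by
  obtain ⟨C, hC⟩ := b.exists_norm_proj_le
  have hC0 : 0 ≤ C := (norm_nonneg _).trans (hC ∅)
  refine ⟨1 + C, by positivity, fun n v => ?_⟩
  rw [Q_apply]
  have h1 := (b.proj (Finset.range n)).le_of_opNorm_le (hC _) v
  have h2 := norm_sub_le v (b.proj (Finset.range n) v)
  nlinarith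

/-- the basis is shrinking -/
theorem exists_small_tail [CompleteSpace X]
    (hrefl : Function.Surjective (NormedSpace.inclusionInDoubleDual ℝ X))
    (b : UnconditionalSchauderBasis ℕ ℝ X) (g : X →L[ℝ] ℝ) {ε : ℝ} (hε : 0 < ε) :
    ∃ n, ∀ v, |g (Q b n v)| ≤ ε * ‖v‖ := by
  by_contra hcon
  push Not at hcon
  choose v hv using hcon
  obtain ⟨C, hC0, hC⟩ := exists_Q_bound b
  have hvpos : ∀ n, 0 < ‖v n‖ := by
    intro n
    rw [norm_pos_iff]
    intro h0
    have := hv n
    rw [h0, map_zero, map_zero, abs_zero, norm_zero, mul_zero] at this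
    exact lt_irrefl _ this
  obtain ⟨w, hw⟩ := exists_weak_lim hrefl (hyperfilter ℕ)
    (fun n => (‖v n‖⁻¹) • Q b n (v n)) C fun n => by
      rw [norm_smul, norm_inv, norm_norm, inv_mul_le_iff₀ (hvpos n), mul_comm]
      exact hC n (v n)
  have hw0 : w = 0 := by
    refine eq_zero_of_coord b fun i => ?_
    have h1 := hw (b.coord i)
    have h2 : ∀ᶠ n in (hyperfilter ℕ : Filter ℕ),
        b.coord i ((‖v n‖⁻¹) • Q b n (v n)) = 0 := by
      have h3 : ∀ᶠ n in (hyperfilter ℕ : Filter ℕ), i < n :=
        Nat.hyperfilter_le_atTop (eventually_gt_atTop i)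
      refine h3.mono fun n hn => ?_
      rw [map_smul, coord_Q b hn, smul_zero]
    exact tendsto_nhds_unique h1 (tendsto_const_nhds.congr' (h2.mono fun n hn => hn.symm))
  have h3 := (hw g).abs
  rw [hw0, map_zero, abs_zero] at h3
  have h4 : ε ≤ 0 := by
    refine ge_of_tendsto' h3 fun n => ?_
    rw [map_smul, smul_eq_mul, abs_mul, abs_inv, abs_norm, inv_mul_eq_div, le_div_iff₀ (hvpos n)]
    exact (hv n).le
  linarith

end Pool.Agent.Work.MP_8db9c5_an
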