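import Pool.Agent.Work.MP_8db9c5_an.Lim
import Pool.Agent.Work.MP_8db9c5_an.XSide

/-!
# Jamesifications: the functionals `s_k`, `σ`
-/

set_option linter.unusedSectionVars false

open Topology Filter Set

namespace Pool.Agent.Work.MP_8db9c5_an

/-- one finite interval `[p, q)` -/
def cInt (p q : ℕ) : ℕ → Option ℕ := fun j => if p ≤ j ∧ j < q then some p else none

/-- one infinite interval `[p, ∞)` -/
def cInf (p : ℕ) : ℕ → Option ℕ := fun j => if p ≤ j then some p else none

/-- two intervals `[i, j)` and `[p, ∞)` -/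
def cTwo (i j p : ℕ) : ℕ → Option ℕ := fun l =>
  if i ≤ l ∧ l < j then some i else if p ≤ l then some p else none

/-- the subcode given by a set of starting points -/
noncomputable def rfil (A : Set ℕ) (r : ℕ → Option ℕ) : ℕ → Option ℕ := fun j =>
  open Classical in if ∃ p ∈ A, r j = some p then r j else none

theorem isCode_cInt (p q : ℕ) : IsCode (cInt p q) := by
  intro j p' h
  unfold cInt at h ⊢
  split_ifs at h with h1
  simp only [Option.some.injEq] at h
  subst h
  exact ⟨h1.1, fun i hi1 hi2 => by rw [if_pos ⟨hi1, by omega⟩]⟩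

theorem isCode_cInf (p : ℕ) : IsCode (cInf p) := by
  intro j p' h
  unfold cInf at h ⊢
  split_ifs at h with h1
  simp only [Option.some.injEq] at h
  subst h
  exact ⟨h1, fun i hi1 hi2 => by rw [if_pos hi1]⟩

theorem isCode_cTwo {i j p : ℕ} (hjp : j ≤ p) : IsCode (cTwo i j p) := by
  intro l p' h
  unfold cTwo at h ⊢
  split_ifs at h with h1 h2
  · simp only [Option.some.injEq] at h
    subst h
    exact ⟨h1.1, fun m hm1 hm2 => by rw [if_pos ⟨hm1, by omega⟩]⟩
  · simp only [Option.some.injEq] at h
    subst h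
    exact ⟨h2, fun m hm1 hm2 => by rw [if_neg (by omega), if_pos hm1]⟩

theorem rfil_eq_some {A : Set ℕ} {r : ℕ → Option ℕ} {j p : ℕ} :
    rfil A r j = some p ↔ r j = some p ∧ p ∈ A := by
  classical
  unfold rfil
  constructor
  · intro h
    split_ifs at h with h1
    obtain ⟨p', hp', h2⟩ := h1
    rw [h] at h2
    simp only [Option.some.injEq] at h2
    exact ⟨h, h2 ▸ hp'⟩
  · rintro ⟨h1, h2⟩
    rw [if_pos ⟨p, h2, h1⟩, h1]

theorem isCode_rfil {A : Set ℕ} {r : ℕ → Option ℕ} (hr : IsCode r) : IsCode (rfil A r) := by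
  intro j p h
  obtain ⟨h1, h2⟩ := rfil_eq_some.1 h
  obtain ⟨h3, h4⟩ := hr j p h1
  exact ⟨h3, fun i hi1 hi2 => rfil_eq_some.2 ⟨h4 i hi1 hi2, h2⟩⟩

theorem code_cases {r : ℕ → Option ℕ} (hr : IsCode r) (p : ℕ) :
    (∀ j, r j ≠ some p) ∨ (∃ q, p < q ∧ ∀ j, (r j = some p ↔ p ≤ j ∧ j < q)) ∨
      (∀ j, (r j = some p ↔ p ≤ j)) := by
  classical
  by_cases h0 : ∃ j, r j = some p
  · right
    obtain ⟨j0, hj0⟩ := h0
    have hpp : r p = some p := (hr j0 p hj0).2 p le_rfl (hr j0 p hj0).1
    by_cases h1 : ∃ j, p ≤ j ∧ r j ≠ some p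
    · left
      refine ⟨Nat.find h1, ?_, fun j => ?_⟩
      · have h2 := Nat.find_spec h1
        rcases h2.1.eq_or_lt with h3 | h3
        · exact absurd (h3 ▸ hpp) h2.2
        · exact h3
      · constructor
        · intro hj
          refine ⟨(hr j p hj).1, ?_⟩
          by_contra hcon
          exact (Nat.find_spec h1).2 ((hr j p hj).2 _ (Nat.find_spec h1).1 (by omega))
        · rintro ⟨hj1, hj2⟩
          by_contra hcon
          exact Nat.find_min h1 hj2 ⟨hj1, hcon⟩
    · right
      push Not at h1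
      exact fun j => ⟨fun hj => (hr j p hj).1, h1 j⟩
  · left
    push Not at h0
    exact h0

variable {X : Type*} [NormedAddCommGroup X] [NormedSpace ℝ X] [CompleteSpace X]
variable {E : Type*} [NormedAddCommGroup E] [NormedSpace ℝ E]
variable (b : UnconditionalSchauderBasis ℕ ℝ X) (e : ℕ → E)

/-- the partial sums -/
noncomputable def S (k : ℕ) : E →L[ℝ] ℝ := (b.coord 0).comp (V b.basis e (cInt 0 k))

/-- the sum functional -/
noncomputable def Sg : E →L[ℝ] ℝ := (b.coord 0).comp (V b.basis e (cInf 0))

variable {b e}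

theorem coord_ox (p : ℕ) (o : Option ℕ) :
    b.coord p (ox b.basis o) = if o = some p then 1 else 0 := by
  rcases o with _ | q
  · simp
  · rw [ox_some, coord_basis]
    by_cases h : p = q
    · rw [if_pos h, if_pos (by rw [h])]
    · rw [if_neg h, if_neg (by simpa using Ne.symm h)]

theorem S_basis (hJ : IsJamesification b.basis e) (k j : ℕ) :
    S b e k (e j) = if j < k then 1 else 0 := by
  change b.coord 0 (V b.basis e (cInt 0 k) (e j)) = _
  rw [V_basis hJ (isCode_cInt 0 k), coord_ox]
  by_cases h : j < k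
  · have h1 : cInt 0 k j = some 0 := if_pos ⟨Nat.zero_le _, h⟩
    rw [h1, if_pos rfl, if_pos h]
  · have h1 : cInt 0 k j = none := if_neg (by omega)
    rw [h1, if_neg (by simp), if_neg h]

theorem Sg_basis (hJ : IsJamesification b.basis e) (j : ℕ) : Sg b e (e j) = 1 := by
  change b.coord 0 (V b.basis e (cInf 0) (e j)) = _
  have h1 : cInf 0 j = some 0 := if_pos (Nat.zero_le _)
  rw [V_basis hJ (isCode_cInf 0), coord_ox, h1, if_pos rfl]

theorem S_zero (hJ : IsJamesification b.basis e) (z : E) : S b e 0 z = 0 := by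
  have : S b e 0 = 0 := clm_ext hJ.dense fun j => by
    rw [S_basis hJ, if_neg (by omega)]; rfl
  rw [this]; rfl

theorem V_cInt (hJ : IsJamesification b.basis e) {p q : ℕ} (hpq : p ≤ q) (z : E) :
    V b.basis e (cInt p q) z = (S b e q z - S b e p z) • b p := by
  have : V b.basis e (cInt p q) = (S b e q - S b e p).smulRight (b p) :=
    clm_ext hJ.dense fun j => by
      rw [V_basis hJ (isCode_cInt p q), ContinuousLinearMap.smulRight_apply, _root_.sub_apply,
        S_basis hJ, S_basis hJ]
      unfold cInt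
      by_cases h1 : p ≤ j ∧ j < q
      · rw [if_pos h1, if_pos h1.2, if_neg (by omega), sub_zero, one_smul, ox_some]
      · rw [if_neg h1]
        by_cases h2 : j < p
        · rw [if_pos h2, if_pos (by omega), sub_self, zero_smul, ox_none]
        · rw [if_neg h2, if_neg (by omega), sub_self, zero_smul, ox_none]
  rw [this]; rfl

theorem V_cInf (hJ : IsJamesification b.basis e) (p : ℕ) (z : E) :
    V b.basis e (cInf p) z = (Sg b e z - S b e p z) • b p := by
  have : V b.basis e (cInf p) = (Sg b e - S b e p).smulRight (b p) :=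
    clm_ext hJ.dense fun j => by
      rw [V_basis hJ (isCode_cInf p), ContinuousLinearMap.smulRight_apply, _root_.sub_apply,
        S_basis hJ, Sg_basis hJ]
      unfold cInf
      by_cases h1 : p ≤ j
      · rw [if_pos h1, if_neg (by omega), sub_zero, one_smul, ox_some]
      · rw [if_neg h1, if_pos (by omega), sub_self, zero_smul, ox_none]
  rw [this]; rfl

theorem V_cTwo (hJ : IsJamesification b.basis e) {i j p : ℕ} (hij : i ≤ j) (hjp : j ≤ p)
    (z : E) : V b.basis e (cTwo i j p) z =
      (S b e j z - S b e i z) • b i + (Sg b e z - S b e p z) • b p := by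
  have : V b.basis e (cTwo i j p) = (S b e j - S b e i).smulRight (b i) +
      (Sg b e - S b e p).smulRight (b p) :=
    clm_ext hJ.dense fun l => by
      rw [V_basis hJ (isCode_cTwo hjp), _root_.add_apply,
        ContinuousLinearMap.smulRight_apply, ContinuousLinearMap.smulRight_apply,
        _root_.sub_apply, _root_.sub_apply, S_basis hJ, S_basis hJ, S_basis hJ, Sg_basis hJ]
      unfold cTwo
      by_cases h1 : i ≤ l ∧ l < j
      · rw [if_pos h1, if_pos h1.2, if_neg (by omega), if_pos (by omega), sub_zero, one_smul,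
          sub_self, zero_smul, add_zero, ox_some]
      · rw [if_neg h1]
        by_cases h2 : p ≤ l
        · rw [if_pos h2, if_neg (by omega), if_neg (by omega), if_neg (by omega), sub_zero,
            zero_smul, zero_add, sub_zero, one_smul, ox_some]
        · rw [if_neg h2, if_pos (show l < p by omega), sub_self, zero_smul, add_zero, ox_none]
          by_cases h3 : l < i
          · rw [if_pos h3, if_pos (by omega), sub_self, zero_smul]
          · rw [if_neg h3, if_neg (by omega), sub_self, zero_smul]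
  rw [this]; rfl

theorem abs_S_sub_le (hn : ∀ i, ‖b i‖ = 1) (hJ : IsJamesification b.basis e) {p q : ℕ}
    (hpq : p ≤ q) (z : E) : |S b e q z - S b e p z| ≤ ‖z‖ := by
  have := norm_V_le hJ (isCode_cInt p q) z
  rwa [V_cInt hJ hpq, norm_smul, hn, mul_one, Real.norm_eq_abs] at this

theorem abs_Sg_sub_le (hn : ∀ i, ‖b i‖ = 1) (hJ : IsJamesification b.basis e) (p : ℕ) (z : E) :
    |Sg b e z - S b e p z| ≤ ‖z‖ := by
  have := norm_V_le hJ (isCode_cInf p) z
  rwa [V_cInf hJ, norm_smul, hn, mul_one, Real.norm_eq_abs] at this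

theorem abs_S_le (hn : ∀ i, ‖b i‖ = 1) (hJ : IsJamesification b.basis e) (q : ℕ) (z : E) :
    |S b e q z| ≤ ‖z‖ := by
  have := abs_S_sub_le hn hJ (Nat.zero_le q) z
  rwa [S_zero hJ, sub_zero] at this

theorem abs_Sg_le (hn : ∀ i, ‖b i‖ = 1) (hJ : IsJamesification b.basis e) (z : E) :
    |Sg b e z| ≤ ‖z‖ := by
  have := abs_Sg_sub_le hn hJ 0 z
  rwa [S_zero hJ, sub_zero] at this

/-- the coordinates of `V_r z` -/
theorem coord_V (hJ : IsJamesification b.basis e) {r : ℕ → Option ℕ} (hr : IsCode r) (p j : ℕ) :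
    b.coord p (V b.basis e r (e j)) = if r j = some p then 1 else 0 := by
  rw [V_basis hJ hr, coord_ox]

theorem coord_V_none (hJ : IsJamesification b.basis e) {r : ℕ → Option ℕ} (hr : IsCode r)
    {p : ℕ} (h : ∀ j, r j ≠ some p) (z : E) : b.coord p (V b.basis e r z) = 0 := by
  have : (b.coord p).comp (V b.basis e r) = 0 := clm_ext hJ.dense fun j => by
    rw [ContinuousLinearMap.comp_apply, coord_V hJ hr, if_neg (h j)]; rfl
  exact congrArg (fun f => f z) this

theorem coord_V_fin (hJ : IsJamesification b.basis e) {r : ℕ → Option ℕ} (hr : IsCode r)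
    {p q : ℕ} (hpq : p < q) (h : ∀ j, (r j = some p ↔ p ≤ j ∧ j < q)) (z : E) :
    b.coord p (V b.basis e r z) = S b e q z - S b e p z := by
  have : (b.coord p).comp (V b.basis e r) = S b e q - S b e p := clm_ext hJ.dense fun j => by
    rw [ContinuousLinearMap.comp_apply, coord_V hJ hr, _root_.sub_apply, S_basis hJ, S_basis hJ]
    by_cases h1 : p ≤ j ∧ j < q
    · rw [if_pos ((h j).2 h1), if_pos h1.2, if_neg (by omega), sub_zero]
    · rw [if_neg (fun h2 => h1 ((h j).1 h2))]
      by_cases h2 : j < p
      · rw [if_pos h2, if_pos (by omega), sub_self]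
      · rw [if_neg h2, if_neg (by omega), sub_self]
  exact congrArg (fun f => f z) this

theorem coord_V_inf (hJ : IsJamesification b.basis e) {r : ℕ → Option ℕ} (hr : IsCode r)
    {p : ℕ} (h : ∀ j, (r j = some p ↔ p ≤ j)) (z : E) :
    b.coord p (V b.basis e r z) = Sg b e z - S b e p z := by
  have : (b.coord p).comp (V b.basis e r) = Sg b e - S b e p := clm_ext hJ.dense fun j => by
    rw [ContinuousLinearMap.comp_apply, coord_V hJ hr, _root_.sub_apply, S_basis hJ, Sg_basis hJ]
    by_cases h1 : p ≤ j
    · rw [if_pos ((h j).2 h1), if_neg (by omega), sub_zero]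
    · rw [if_neg (fun h2 => h1 ((h j).1 h2)), if_pos (by omega), sub_self]
  exact congrArg (fun f => f z) this

/-- projections and subcodes -/
theorem proj_V (hJ : IsJamesification b.basis e) {r : ℕ → Option ℕ} (hr : IsCode r)
    (A : Finset ℕ) (z : E) : b.proj A (V b.basis e r z) = V b.basis e (rfil A r) z := by
  classical
  have : (b.proj A).comp (V b.basis e r) = V b.basis e (rfil A r) :=
    clm_ext hJ.dense fun j => by
      rw [ContinuousLinearMap.comp_apply, V_basis hJ hr, V_basis hJ (isCode_rfil hr)]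
      rcases h : r j with _ | p
      · have : rfil A r j = none := by
          unfold rfil
          rw [if_neg (by rw [h]; simp)]
        rw [this, ox_none, map_zero]
      · rw [ox_some, GeneralSchauderBasis.proj_apply_basis_mem]
        by_cases hp : p ∈ A
        · rw [if_pos hp, (rfil_eq_some (A := (A : Set ℕ))).2 ⟨h, hp⟩, ox_some]
        · have : rfil A r j = none := by
            unfold rfil
            rw [if_neg]
            rintro ⟨p', hp', h2⟩
            rw [h] at h2
            simp only [Option.some.injEq] at h2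
            exact hp (h2 ▸ hp')
          rw [if_neg hp, this, ox_none]
  exact congrArg (fun f => f z) this

theorem norm_proj_V_le (hJ : IsJamesification b.basis e) {r : ℕ → Option ℕ} (hr : IsCode r)
    (A : Finset ℕ) (z : E) : ‖b.proj A (V b.basis e r z)‖ ≤ ‖z‖ := by
  rw [proj_V hJ hr]
  exact norm_V_le hJ (isCode_rfil hr) z

theorem norm_e (hn : ∀ i, ‖b i‖ = 1) (hJ : IsJamesification b.basis e) (j : ℕ) :
    ‖e j‖ = 1 := by
  refine le_antisymm ?_ ?_
  · obtain ⟨r, hr, h⟩ := exists_attain hJ (e j)
    rw [← h, V_basis hJ hr]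
    rcases r j with _ | p
    · simp
    · rw [ox_some]; exact (hn p).le
  · have := abs_Sg_le hn hJ (e j)
    rwa [Sg_basis hJ, abs_one] at this

end Pool.Agent.Work.MP_8db9c5_an
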