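import Mathlib

/-!
# Jamesifications: definitions
-/

open Topology Filter Set

namespace Pool.Agent.Work.MP_8db9c5_an

variable {X : Type*} [NormedAddCommGroup X] [NormedSpace ℝ X]
variable {E : Type*} [NormedAddCommGroup E] [NormedSpace ℝ E]

/-- `p 0 ≤ q 0 < p 1 ≤ q 1 < ⋯ < p (k-1) ≤ q (k-1)` -/
def IsChain (k : ℕ) (p q : ℕ → ℕ) : Prop :=
  (∀ i, i < k → p i ≤ q i) ∧ ∀ i, i + 1 < k → q i < p (i + 1)

/-- the vector `∑_{i<k} (∑_{j=p i}^{q i} a j) x_{p i}` -/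
def jvec (x : ℕ → X) (a : ℕ → ℝ) (k : ℕ) (p q : ℕ → ℕ) : X :=
  ∑ i ∈ Finset.range k, (∑ j ∈ Finset.Icc (p i) (q i), a j) • x (p i)

/-- `E`, together with the sequence `e`, is the Jamesification `J(x_i)`: the span of the `e_i` is
dense in `E` and the norm of `∑ a_i e_i` is the supremum of the norms of the vectors
`∑_{i<k} (∑_{j=p i}^{q i} a j) x_{p i}` -/
structure IsJamesification (x : ℕ → X) (e : ℕ → E) : Prop where
  dense : Dense (Submodule.span ℝ (Set.range e) : Set E)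
  norm_eq : ∀ a : ℕ →₀ ℝ, IsLUB {c : ℝ | ∃ (k : ℕ) (p q : ℕ → ℕ), 1 ≤ k ∧ IsChain k p q ∧
    c = ‖jvec x a k p q‖} ‖a.sum fun i c => c • e i‖

end Pool.Agent.Work.MP_8db9c5_an
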