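import Pool.Agent.Work.MP_8db9c5_an.Coord

/-!
# Jamesifications: the span of the functionals `s_k` and `σ`
-/

set_option linter.unusedSectionVars false

open Topology Filter Set

namespace Pool.Agent.Work.MP_8db9c5_an

variable {X : Type*} [NormedAddCommGroup X] [NormedSpace ℝ X] [CompleteSpace X]
variable {E : Type*} [NormedAddCommGroup E] [NormedSpace ℝ E]
variable (b : UnconditionalSchauderBasis ℕ ℝ X) (e : ℕ → E)

/-- the span of the `s_k` -/
noncomputable def Fsub : Submodule ℝ (E →L[ℝ] ℝ) := Submodule.span ℝ (Set.range (S b e))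

/-- the span of the `s_k` and `σ` -/
noncomputable def Hsub : Submodule ℝ (E →L[ℝ] ℝ) :=
  Submodule.span ℝ (insert (Sg b e) (Set.range (S b e)))

variable {b e}

theorem S_mem_F (k : ℕ) : S b e k ∈ Fsub b e := Submodule.subset_span ⟨k, rfl⟩

theorem F_le_H : Fsub b e ≤ Hsub b e := Submodule.span_mono (Set.subset_insert _ _)

theorem Sg_mem_H : Sg b e ∈ Hsub b e := Submodule.subset_span (Set.mem_insert _ _)

theorem isSeparable_H :
    TopologicalSpace.IsSeparable (closure (Hsub b e : Set (E →L[ℝ] ℝ))) := by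
  refine TopologicalSpace.IsSeparable.closure ?_
  refine TopologicalSpace.IsSeparable.span ?_
  exact ((Set.countable_range _).insert _).isSeparable

/-- the coordinates of `V_r` -/
noncomputable def cf (b : UnconditionalSchauderBasis ℕ ℝ X) (e : ℕ → E) (r : ℕ → Option ℕ)
    (p : ℕ) : E →L[ℝ] ℝ := (b.coord p).comp (V b.basis e r)

theorem cf_apply (r : ℕ → Option ℕ) (p : ℕ) (z : E) :
    cf b e r p z = b.coord p (V b.basis e r z) := rfl

theorem cf_cases (hJ : IsJamesification b.basis e) {r : ℕ → Option ℕ} (hr : IsCode r) (p : ℕ) :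
    cf b e r p = 0 ∨ (∃ q, p < q ∧ cf b e r p = S b e q - S b e p) ∨
      ((∀ j, (r j = some p ↔ p ≤ j)) ∧ cf b e r p = Sg b e - S b e p) := by
  rcases code_cases hr p with h | ⟨q, hpq, h⟩ | h
  · left; ext z; exact coord_V_none hJ hr h z
  · right; left; exact ⟨q, hpq, by ext z; exact coord_V_fin hJ hr hpq h z⟩
  · right; right; exact ⟨h, by ext z; exact coord_V_inf hJ hr h z⟩

theorem cf_mem_H (hJ : IsJamesification b.basis e) {r : ℕ → Option ℕ} (hr : IsCode r) (p : ℕ) :
    cf b e r p ∈ Hsub b e := by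
  rcases cf_cases hJ hr p with h | ⟨q, _, h⟩ | ⟨_, h⟩
  · rw [h]; exact zero_mem _
  · rw [h]; exact sub_mem (F_le_H (S_mem_F q)) (F_le_H (S_mem_F p))
  · rw [h]; exact sub_mem Sg_mem_H (F_le_H (S_mem_F p))

theorem cf_mem_F (hJ : IsJamesification b.basis e) {r : ℕ → Option ℕ} (hr : IsCode r) {p : ℕ}
    (hp : ¬ ∀ j, (r j = some p ↔ p ≤ j)) : cf b e r p ∈ Fsub b e := by
  rcases cf_cases hJ hr p with h | ⟨q, _, h⟩ | ⟨h1, _⟩
  · rw [h]; exact zero_mem _
  · rw [h]; exact sub_mem (S_mem_F q) (S_mem_F p)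
  · exact absurd h1 hp

theorem decomp (g : X →L[ℝ] ℝ) (r : ℕ → Option ℕ) (n : ℕ) (z : E) :
    g (V b.basis e r z) = ∑ p ∈ Finset.range n, g (b p) * cf b e r p z +
      g (Q b n (V b.basis e r z)) := by
  rw [Q_apply, map_sub, GeneralSchauderBasis.proj_apply, map_sum]
  have : ∀ p ∈ Finset.range n, g (b.coord p (V b.basis e r z) • b p) =
      g (b p) * cf b e r p z := fun p _ => by
    rw [map_smul, smul_eq_mul, mul_comm]; rfl
  rw [Finset.sum_congr rfl this]
  ring

/-- if there are no starting points `≥ n` then the tail vanishes -/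
theorem Q_V_eq_zero (hJ : IsJamesification b.basis e) {r : ℕ → Option ℕ} (hr : IsCode r) {n : ℕ}
    (h : ∀ j p, r j = some p → p < n) (z : E) : Q b n (V b.basis e r z) = 0 := by
  have : (Q b n).comp (V b.basis e r) = 0 := clm_ext hJ.dense fun j => by
    rw [ContinuousLinearMap.comp_apply, V_basis hJ hr]
    rcases h1 : r j with _ | p
    · rw [ox_none, map_zero]; rfl
    · rw [ox_some, Q_basis, if_neg (by have := h j p h1; omega)]; rfl
  exact congrArg (fun f => f z) this

theorem mem_closure_H (hrefl : Function.Surjective (NormedSpace.inclusionInDoubleDual ℝ X))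
    (hJ : IsJamesification b.basis e) {r : ℕ → Option ℕ} (hr : IsCode r) (g : X →L[ℝ] ℝ) :
    g.comp (V b.basis e r) ∈ closure (Hsub b e : Set (E →L[ℝ] ℝ)) := by
  rw [Metric.mem_closure_iff]
  intro ε hε
  obtain ⟨n, hn⟩ := exists_small_tail hrefl b g (ε := ε / 2) (by positivity)
  refine ⟨∑ p ∈ Finset.range n, g (b p) • cf b e r p, ?_, ?_⟩
  · exact Submodule.sum_mem _ fun p _ => Submodule.smul_mem _ _ (cf_mem_H hJ hr p)
  · rw [dist_eq_norm]
    refine lt_of_le_of_lt (ContinuousLinearMap.opNorm_le_bound _ (M := ε / 2) (by positivity)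
      fun z => ?_) (by linarith)
    have h1 : (g.comp (V b.basis e r) - ∑ p ∈ Finset.range n, g (b p) • cf b e r p) z =
        g (Q b n (V b.basis e r z)) := by
      rw [_root_.sub_apply, ContinuousLinearMap.comp_apply, decomp g r n z,
        _root_.sum_apply]
      simp only [_root_.smul_apply, smul_eq_mul]
      ring
    rw [h1, Real.norm_eq_abs]
    refine (hn _).trans ?_
    have := norm_V_le hJ hr z
    nlinarith

theorem comp_mem_F (hJ : IsJamesification b.basis e) {r : ℕ → Option ℕ} (hr : IsCode r)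
    {N : ℕ} (hN : ∀ j, N ≤ j → r j = none) (g : X →L[ℝ] ℝ) :
    g.comp (V b.basis e r) ∈ Fsub b e := by
  have h1 : g.comp (V b.basis e r) = ∑ p ∈ Finset.range N, g (b p) • cf b e r p := by
    ext z
    rw [ContinuousLinearMap.comp_apply, decomp g r N z, Q_V_eq_zero hJ hr (fun j p hjp => by
      by_contra hcon
      have := hN j (by have := (hr j p hjp).1; omega)
      rw [this] at hjp
      simp at hjp), map_zero, add_zero, _root_.sum_apply]
    simp only [_root_.smul_apply, smul_eq_mul]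
  rw [h1]
  refine Submodule.sum_mem _ fun p _ => Submodule.smul_mem _ _ (cf_mem_F hJ hr fun h => ?_)
  have h2 := (h (max p N)).2 (le_max_left _ _)
  rw [hN _ (le_max_right _ _)] at h2
  simp at h2

theorem F_norming (hJ : IsJamesification b.basis e) (z : E) (ε : ℝ) (hε : 0 < ε) :
    ∃ f ∈ (Fsub b e : Set (E →L[ℝ] ℝ)), ‖f‖ ≤ 1 ∧ ‖z‖ - ε < f z := by
  obtain ⟨r, hr, ⟨N, hN⟩, h⟩ := exists_near_code hJ z hε
  obtain ⟨g, hg1, hg2⟩ := exists_dual_vector'' ℝ (V b.basis e r z)
  refine ⟨g.comp (V b.basis e r), comp_mem_F hJ hr hN g, ?_, ?_⟩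
  · refine ContinuousLinearMap.opNorm_le_bound _ zero_le_one fun y => ?_
    rw [one_mul, ContinuousLinearMap.comp_apply]
    have := g.le_of_opNorm_le hg1 (V b.basis e r y)
    rw [one_mul] at this
    exact this.trans (norm_V_le hJ hr y)
  · rw [ContinuousLinearMap.comp_apply, hg2]
    simpa using h

theorem H_norming (hrefl : Function.Surjective (NormedSpace.inclusionInDoubleDual ℝ X))
    (hJ : IsJamesification b.basis e) (z : E) :
    ∃ f ∈ closure (Hsub b e : Set (E →L[ℝ] ℝ)), ‖f‖ ≤ 1 ∧ f z = ‖z‖ := by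
  obtain ⟨r, g, hr, hg1, hg2⟩ := exists_norming hJ z
  refine ⟨g.comp (V b.basis e r), mem_closure_H hrefl hJ hr g, ?_, hg2⟩
  refine ContinuousLinearMap.opNorm_le_bound _ zero_le_one fun y => ?_
  rw [one_mul, ContinuousLinearMap.comp_apply]
  have := g.le_of_opNorm_le hg1 (V b.basis e r y)
  rw [one_mul] at this
  exact this.trans (norm_V_le hJ hr y)

/-! ### Limits -/

theorem tendsto_of_approx {l : Filter ℕ} {c : ℕ → ℝ} {L : ℝ}
    (h : ∀ ε : ℝ, 0 < ε → ∃ a : ℕ → ℝ, Tendsto a l (𝓝 L) ∧ ∀ n, |c n - a n| ≤ ε) :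
    Tendsto c l (𝓝 L) := by
  rw [Metric.tendsto_nhds]
  intro ε hε
  obtain ⟨a, ha, hc⟩ := h (ε / 2) (by positivity)
  refine ((Metric.tendsto_nhds.1 ha) (ε / 2) (by positivity)).mono fun n hn => ?_
  rw [Real.dist_eq] at hn ⊢
  have h1 := hc n
  have h2 := abs_add_le (c n - a n) (a n - L)
  rw [sub_add_sub_cancel] at h2
  linarith

theorem tendsto_F {l : Filter ℕ} {v : ℕ → E} {z : E}
    (h : ∀ k, Tendsto (fun n => S b e k (v n)) l (𝓝 (S b e k z))) {f : E →L[ℝ] ℝ}
    (hf : f ∈ Fsub b e) : Tendsto (fun n => f (v n)) l (𝓝 (f z)) := by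
  refine Submodule.span_induction (p := fun f _ => Tendsto (fun n => f (v n)) l (𝓝 (f z)))
    ?_ ?_ ?_ ?_ hf
  · rintro _ ⟨k, rfl⟩; exact h k
  · exact tendsto_const_nhds
  · intro f g _ _ h1 h2
    simpa only [_root_.add_apply] using h1.add h2
  · intro c f _ h1
    simpa only [_root_.smul_apply, smul_eq_mul] using h1.const_mul c

theorem tendsto_F_zero {l : Filter ℕ} {v : ℕ → E}
    (h : ∀ k, Tendsto (fun n => S b e k (v n)) l (𝓝 0)) {f : E →L[ℝ] ℝ}
    (hf : f ∈ Fsub b e) : Tendsto (fun n => f (v n)) l (𝓝 0) := by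
  have := tendsto_F (b := b) (e := e) (z := 0) (v := v) (l := l) (fun k => by
    simpa using h k) hf
  simpa using this

/-- limits of norming functionals along sequences with `s_k → 0`, `σ → c` -/
theorem tendsto_inf (hJ : IsJamesification b.basis e) {l : Filter ℕ} {v : ℕ → E} {c : ℝ}
    (h : ∀ k, Tendsto (fun n => S b e k (v n)) l (𝓝 0))
    (hc : Tendsto (fun n => Sg b e (v n)) l (𝓝 c)) {r : ℕ → Option ℕ} (hr : IsCode r) {p : ℕ}
    (hp : ∀ j, (r j = some p ↔ p ≤ j)) (g : X →L[ℝ] ℝ) :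
    Tendsto (fun n => g (V b.basis e r (v n))) l (𝓝 (g (b p) * c)) := by
  have h1 : ∀ z, g (V b.basis e r z) = ∑ p' ∈ Finset.range p, g (b p') * cf b e r p' z +
      g (b p) * (Sg b e z - S b e p z) := by
    intro z
    rw [decomp g r (p + 1) z, Q_V_eq_zero hJ hr (fun j p' hjp => by
      by_contra hcon
      have h2 := (hr j p' hjp).1
      have h3 := (hp j).2 (by omega)
      rw [hjp] at h3
      simp only [Option.some.injEq] at h3
      omega), map_zero, add_zero, Finset.sum_range_succ, cf_apply, coord_V_inf hJ hr hp]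
  have h2 : Tendsto (fun n => ∑ p' ∈ Finset.range p, g (b p') * cf b e r p' (v n) +
      g (b p) * (Sg b e (v n) - S b e p (v n))) l (𝓝 (∑ p' ∈ Finset.range p, g (b p') * 0 +
      g (b p) * (c - 0))) := by
    refine Tendsto.add ?_ ((hc.sub (h p)).const_mul _)
    refine tendsto_finsetSum _ fun p' hp' => Tendsto.const_mul _ ?_
    refine tendsto_F_zero h (cf_mem_F hJ hr fun hcon => ?_)
    have hlt := Finset.mem_range.1 hp'
    have h3 := (hcon p).2 hlt.le
    rw [(hp p).2 le_rfl] at h3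
    simp only [Option.some.injEq] at h3
    omega
  simp only [mul_zero, Finset.sum_const_zero, zero_add, sub_zero] at h2
  exact h2.congr fun n => (h1 (v n)).symm

theorem tendsto_noinf (hrefl : Function.Surjective (NormedSpace.inclusionInDoubleDual ℝ X))
    (hJ : IsJamesification b.basis e) {l : Filter ℕ} {v : ℕ → E} (hv : ∀ n, ‖v n‖ ≤ 1)
    (h : ∀ k, Tendsto (fun n => S b e k (v n)) l (𝓝 0)) {r : ℕ → Option ℕ} (hr : IsCode r)
    (hp : ∀ p, ¬ ∀ j, (r j = some p ↔ p ≤ j)) (g : X →L[ℝ] ℝ) :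
    Tendsto (fun n => g (V b.basis e r (v n))) l (𝓝 0) := by
  refine tendsto_of_approx fun ε hε => ?_
  obtain ⟨N, hN⟩ := exists_small_tail hrefl b g hε
  refine ⟨fun n => ∑ p ∈ Finset.range N, g (b p) * cf b e r p (v n), ?_, fun n => ?_⟩
  · have : Tendsto (fun n => ∑ p ∈ Finset.range N, g (b p) * cf b e r p (v n)) l
        (𝓝 (∑ p ∈ Finset.range N, g (b p) * 0)) :=
      tendsto_finsetSum _ fun p _ => Tendsto.const_mul _ (tendsto_F_zero h
        (cf_mem_F hJ hr (hp p)))
    simpa using this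
  · rw [decomp g r N (v n), add_sub_cancel_left]
    refine (hN _).trans ?_
    have h1 := norm_V_le hJ hr (v n)
    have h2 := hv n
    nlinarith

end Pool.Agent.Work.MP_8db9c5_an
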