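import Pool.Agent.Work.MP_8db9c5_an.Group

/-!
# The pair `ℓ_∞^n ⊕_2 ℓ_2`
-/

set_option linter.unusedSectionVars false

open Topology Filter Set

namespace Pool.Agent.Work.MP_8db9c5_an

/-- `X` is reflexive -/
def IsReflexive (X : Type*) [NormedAddCommGroup X] [NormedSpace ℝ X] : Prop :=
  Function.Surjective (NormedSpace.inclusionInDoubleDual ℝ X)

section Reflexive

variable {X : Type*} [NormedAddCommGroup X] [NormedSpace ℝ X]
variable {Y : Type*} [NormedAddCommGroup Y] [NormedSpace ℝ Y]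

theorem refl_of_equiv (L : X ≃L[ℝ] Y)
    (hY : Function.Surjective (NormedSpace.inclusionInDoubleDual ℝ Y)) :
    Function.Surjective (NormedSpace.inclusionInDoubleDual ℝ X) := by
  intro φ
  set ψ : StrongDual ℝ (StrongDual ℝ Y) :=
    φ.comp ((ContinuousLinearMap.compL ℝ X Y ℝ).flip (L : X →L[ℝ] Y)) with hψ
  obtain ⟨y, hy⟩ := hY ψ
  refine ⟨L.symm y, ?_⟩
  ext f
  rw [NormedSpace.dual_def]
  have h1 : ψ (f.comp (L.symm : Y →L[ℝ] X)) = f (L.symm y) := by
    rw [← hy, NormedSpace.dual_def]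
    rfl
  rw [← h1, hψ]
  change φ ((f.comp (L.symm : Y →L[ℝ] X)).comp (L : X →L[ℝ] Y)) = φ f
  congr 1
  ext x
  simp

theorem refl_hilbert {H : Type*} [NormedAddCommGroup H] [InnerProductSpace ℝ H]
    [CompleteSpace H] : Function.Surjective (NormedSpace.inclusionInDoubleDual ℝ H) := by
  intro φ
  set ψ : StrongDual ℝ H := LinearMap.mkContinuous
    { toFun := fun h => φ (InnerProductSpace.toDual ℝ H h)
      map_add' := fun x y => by rw [map_add, map_add]
      map_smul' := fun c x => by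
        rw [map_smulₛₗ, map_smul]
        simp } ‖φ‖ (fun x => by
        change ‖φ (InnerProductSpace.toDual ℝ H x)‖ ≤ _
        refine (φ.le_opNorm _).trans ?_
        rw [LinearIsometryEquiv.norm_map]) with hψ
  obtain ⟨y, hy⟩ := (InnerProductSpace.toDual ℝ H).surjective ψ
  refine ⟨y, ?_⟩
  ext f
  rw [NormedSpace.dual_def]
  obtain ⟨h, rfl⟩ := (InnerProductSpace.toDual ℝ H).surjective f
  have h1 : ψ h = φ (InnerProductSpace.toDual ℝ H h) := rfl
  rw [← h1, ← hy, InnerProductSpace.toDual_apply_apply, InnerProductSpace.toDual_apply_apply,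
    real_inner_comm]

end Reflexive

/-- the Hilbert space `ℓ_2` -/
abbrev L2 : Type := lp (fun _ : ℕ => ℝ) 2

/-- the space `ℓ_∞^n ⊕_2 ℓ_2` -/
abbrev XEx (n : ℕ) : Type := WithLp 2 ((Fin n → ℝ) × L2)

theorem XEx_refl (n : ℕ) :
    Function.Surjective (NormedSpace.inclusionInDoubleDual ℝ (XEx n)) := by
  have L : XEx n ≃L[ℝ] WithLp 2 (EuclideanSpace ℝ (Fin n) × L2) :=
    (WithLp.prodContinuousLinearEquiv 2 ℝ (Fin n → ℝ) L2).trans
      (((EuclideanSpace.equiv (Fin n) ℝ).symm.prodCongr (ContinuousLinearEquiv.refl ℝ L2)).trans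
        (WithLp.prodContinuousLinearEquiv 2 ℝ (EuclideanSpace ℝ (Fin n)) L2).symm)
  exact refl_of_equiv L refl_hilbert

/-- the unit vectors of `ℓ_∞^n ⊕_2 ℓ_2` -/
noncomputable def uEx (n : ℕ) (i : ℕ) : XEx n :=
  if h : i < n then WithLp.toLp 2 (Pi.single ⟨i, h⟩ 1, 0)
  else WithLp.toLp 2 (0, lp.single 2 (i - n) 1)

/-- the coordinate functionals of `ℓ_∞^n ⊕_2 ℓ_2` -/
noncomputable def cEx (n : ℕ) (i : ℕ) : StrongDual ℝ (XEx n) :=
  if h : i < n then (ContinuousLinearMap.proj ⟨i, h⟩).comp (WithLp.fstL 2 ℝ (Fin n → ℝ) L2)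
  else (lp.evalCLM ℝ (fun _ : ℕ => ℝ) 2 (i - n)).comp (WithLp.sndL 2 ℝ (Fin n → ℝ) L2)

theorem uEx_lt {n i : ℕ} (h : i < n) :
    uEx n i = WithLp.toLp 2 (Pi.single ⟨i, h⟩ 1, 0) := dif_pos h

theorem uEx_ge {n i : ℕ} (h : n ≤ i) :
    uEx n i = WithLp.toLp 2 (0, lp.single 2 (i - n) 1) := dif_neg (not_lt.2 h)

theorem cEx_lt {n i : ℕ} (h : i < n) (x : XEx n) : cEx n i x = x.fst ⟨i, h⟩ := by
  unfold cEx
  rw [dif_pos h]
  rfl

theorem cEx_ge {n i : ℕ} (h : n ≤ i) (x : XEx n) : cEx n i x = x.snd (i - n) := by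
  unfold cEx
  rw [dif_neg (not_lt.2 h)]
  rfl

theorem ortho_Ex (n i j : ℕ) : cEx n i (uEx n j) = if i = j then 1 else 0 := by
  rcases lt_or_ge i n with hi | hi
  · rw [cEx_lt hi]
    rcases lt_or_ge j n with hj | hj
    · rw [uEx_lt hj, WithLp.toLp_fst]
      by_cases hij : i = j
      · subst hij; simp
      · rw [if_neg hij]
        exact Pi.single_eq_of_ne (by simpa using hij) _
    · rw [uEx_ge hj, WithLp.toLp_fst, if_neg (by omega)]
      rfl
  · rw [cEx_ge hi]
    rcases lt_or_ge j n with hj | hj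
    · rw [uEx_lt hj, WithLp.toLp_snd, if_neg (by omega)]
      rfl
    · rw [uEx_ge hj, WithLp.toLp_snd]
      by_cases hij : i = j
      · subst hij; simp
      · rw [lp.single_apply_ne _ _ _ (by omega), if_neg hij]

theorem expansion_Ex (n : ℕ) (x : XEx n) : HasSum (fun i => cEx n i x • uEx n i) x := by
  have h1 : HasSum (fun i => x.snd i • (WithLp.toLp 2 (0, lp.single 2 i 1) : XEx n))
      (WithLp.toLp 2 (0, x.snd)) := by
    have h2 := lp.hasSum_single (E := fun _ : ℕ => ℝ) (p := 2) (by norm_num) x.snd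
    have h3 := h2.mapL (((WithLp.prodContinuousLinearEquiv 2 ℝ (Fin n → ℝ) L2).symm :
      ((Fin n → ℝ) × L2) →L[ℝ] XEx n).comp (ContinuousLinearMap.inr ℝ (Fin n → ℝ) L2))
    have h4 : (fun i => x.snd i • (WithLp.toLp 2 (0, lp.single 2 i 1) : XEx n)) =
        fun i => WithLp.toLp 2 (0, lp.single 2 i (x.snd i)) := by
      funext i
      rw [← WithLp.toLp_smul, Prod.smul_mk, smul_zero, ← lp.single_smul, smul_eq_mul, mul_one]
    rw [h4]
    exact h3
  refine (hasSum_nat_add_iff' n).1 ?_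
  have h4 : (fun i => cEx n (i + n) x • uEx n (i + n)) =
      fun i => x.snd i • (WithLp.toLp 2 (0, lp.single 2 i 1) : XEx n) := by
    funext i
    rw [cEx_ge (by omega), uEx_ge (by omega), Nat.add_sub_cancel]
  have h5 : x - ∑ i ∈ Finset.range n, cEx n i x • uEx n i = WithLp.toLp 2 (0, x.snd) := by
    rw [sub_eq_iff_eq_add, Finset.sum_range]
    have h2 : ∀ i : Fin n, cEx n i x • uEx n i =
        WithLp.toLp 2 (Pi.single i (x.fst i), (0 : L2)) := by
      intro i
      rw [cEx_lt i.2, uEx_lt i.2, ← WithLp.toLp_smul, Prod.smul_mk, smul_zero,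
        ← Pi.single_smul, smul_eq_mul, mul_one]
    simp only [h2]
    have h3 : ∑ i : Fin n, (WithLp.toLp 2 (Pi.single i (x.fst i), (0 : L2)) : XEx n) =
        WithLp.toLp 2 (x.fst, 0) := by
      rw [← WithLp.toLp_sum]
      congr 1
      refine Prod.ext ?_ ?_
      · rw [Prod.fst_sum]
        exact Finset.univ_sum_single x.fst
      · rw [Prod.snd_sum]
        simp
    rw [h3, ← WithLp.toLp_add, Prod.mk_add_mk, zero_add, add_zero]
    rfl
  rw [h4, h5]
  exact h1

/-- the unit vector basis of `ℓ_∞^n ⊕_2 ℓ_2` -/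
noncomputable def bEx (n : ℕ) : UnconditionalSchauderBasis ℕ ℝ (XEx n) where
  basis := uEx n
  coord := cEx n
  ortho i j := by
    rw [ortho_Ex]
    by_cases hij : i = j
    · subst hij; simp
    · rw [if_neg hij]
      simp [Pi.single, Function.update, hij]
  expansion x := expansion_Ex n x

theorem bEx_apply (n i : ℕ) : bEx n i = uEx n i := rfl

theorem norm_sq_Ex {n : ℕ} (a : Fin n → ℝ) (y : L2) :
    ‖(WithLp.toLp 2 (a, y) : XEx n)‖ ^ 2 = ‖a‖ ^ 2 + ‖y‖ ^ 2 := by
  rw [WithLp.prod_norm_sq_eq_of_L2]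
  rfl

theorem norm_Ex_zero {n : ℕ} (a : Fin n → ℝ) : ‖(WithLp.toLp 2 (a, 0) : XEx n)‖ = ‖a‖ := by
  have h := norm_sq_Ex a (0 : L2)
  rw [norm_zero] at h
  exact (sq_eq_sq₀ (norm_nonneg _) (norm_nonneg _)).1 (by linarith)

theorem norm_Ex_zero' {n : ℕ} (y : L2) : ‖(WithLp.toLp 2 (0, y) : XEx n)‖ = ‖y‖ := by
  have h := norm_sq_Ex (0 : Fin n → ℝ) y
  rw [norm_zero] at h
  exact (sq_eq_sq₀ (norm_nonneg _) (norm_nonneg _)).1 (by linarith)

theorem norm_uEx (n i : ℕ) : ‖uEx n i‖ = 1 := by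
  rcases lt_or_ge i n with h | h
  · rw [uEx_lt h, norm_Ex_zero, Pi.norm_single, norm_one]
  · rw [uEx_ge h, norm_Ex_zero', lp.norm_single (by norm_num), norm_one]

theorem norm_bEx (n i : ℕ) : ‖bEx n i‖ = 1 := norm_uEx n i

theorem norm_two_single {i j : ℕ} (hij : i ≠ j) (c d : ℝ) :
    ‖(lp.single 2 i c + lp.single 2 j d : L2)‖ ^ 2 = c ^ 2 + d ^ 2 := by
  rw [norm_add_sq_real, lp.inner_single_left, lp.single_apply_ne _ _ _ hij,
    lp.norm_single (by norm_num), lp.norm_single (by norm_num)]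
  simp

/-- the norm of a combination of two unit vectors not both in the first block -/
theorem norm_two {n i p : ℕ} (hip : i < p) (hp : n ≤ p) (c d : ℝ) :
    ‖c • uEx n p + d • uEx n i‖ ^ 2 = c ^ 2 + d ^ 2 := by
  rw [uEx_ge hp, ← WithLp.toLp_smul, Prod.smul_mk, smul_zero, ← lp.single_smul, smul_eq_mul,
    mul_one]
  rcases lt_or_ge i n with h | h
  · rw [uEx_lt h, ← WithLp.toLp_smul, Prod.smul_mk, smul_zero, ← WithLp.toLp_add,
      Prod.mk_add_mk, zero_add, add_zero, norm_sq_Ex, norm_smul, Pi.norm_single, norm_one,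
      lp.norm_single (by norm_num)]
    simp
    ring
  · rw [uEx_ge h, ← WithLp.toLp_smul, Prod.smul_mk, smul_zero, ← WithLp.toLp_add,
      Prod.mk_add_mk, zero_add, ← lp.single_smul, smul_eq_mul, mul_one, norm_Ex_zero',
      norm_two_single (by omega)]

theorem sep_Ex (n : ℕ) (u q : ℕ) (huq : u < q) (hq : n ≤ q) : 1 < ‖bEx n u - bEx n q‖ := by
  have h := norm_two huq hq (-1) 1
  rw [one_smul, neg_smul, one_smul, neg_add_eq_sub] at h
  rw [bEx_apply, bEx_apply]
  by_contra hcon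
  have h1 : ‖uEx n u - uEx n q‖ ^ 2 ≤ 1 := by
    have := norm_nonneg (uEx n u - uEx n q)
    nlinarith
  linarith

theorem smooth_Ex (n : ℕ) : SmoothAt (bEx n) := by
  intro p i hip s hs
  have hs2 : s ^ 2 = 1 := by rcases hs with h | h <;> rw [h] <;> norm_num
  have hsa : |s| = 1 := by rcases hs with h | h <;> rw [h] <;> norm_num
  simp only [bEx_apply]
  rcases lt_or_ge p n with hp | hp
  · have hi : i < n := by omega
    refine tendsto_const_nhds.congr' ?_
    filter_upwards [eventually_ge_atTop (1 : ℝ)] with M hM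
    rw [uEx_lt hp, uEx_lt hi, ← WithLp.toLp_smul, ← WithLp.toLp_smul, Prod.smul_mk,
      Prod.smul_mk, smul_zero, smul_zero, ← WithLp.toLp_add, Prod.mk_add_mk, add_zero,
      norm_Ex_zero]
    have h1 : ‖M • (Pi.single ⟨p, hp⟩ 1 : Fin n → ℝ) + s • Pi.single ⟨i, hi⟩ 1‖ = M := by
      refine le_antisymm ?_ ?_
      · refine (pi_norm_le_iff_of_nonneg (by linarith)).2 fun j => ?_
        rw [Pi.add_apply, Pi.smul_apply, Pi.smul_apply, Pi.single_apply, Pi.single_apply,
          smul_eq_mul, smul_eq_mul, Real.norm_eq_abs]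
        by_cases h1 : j = ⟨p, hp⟩
        · rw [if_pos h1, if_neg (by rw [h1]; simp; omega), mul_one, mul_zero, add_zero,
            abs_of_nonneg (by linarith)]
        · rw [if_neg h1, mul_zero, zero_add]
          split_ifs
          · rw [mul_one, hsa]; exact hM
          · rw [mul_zero, abs_zero]; linarith
      · refine le_trans ?_ (norm_le_pi_norm _ ⟨p, hp⟩)
        rw [Pi.add_apply, Pi.smul_apply, Pi.smul_apply, Pi.single_apply, Pi.single_apply,
          smul_eq_mul, smul_eq_mul, Real.norm_eq_abs, if_pos rfl,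
          if_neg (by simp; omega), mul_one, mul_zero, add_zero]
        exact le_abs_self _
    rw [h1, sub_self]
  · have hlim : Tendsto (fun M : ℝ => 1 / M) atTop (𝓝 0) := by
      simpa using tendsto_inv_atTop_zero (𝕜 := ℝ)
    refine tendsto_of_tendsto_of_tendsto_of_le_of_le' tendsto_const_nhds hlim ?_ ?_
    · filter_upwards [eventually_gt_atTop (0 : ℝ)] with M hM
      have h1 := norm_two hip hp M s
      have h2 := norm_nonneg (M • uEx n p + s • uEx n i)
      by_contra hcon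
      nlinarith
    · filter_upwards [eventually_gt_atTop (0 : ℝ)] with M hM
      have h1 := norm_two hip hp M s
      have h2 := norm_nonneg (M • uEx n p + s • uEx n i)
      rw [hs2] at h1
      have h3 : 0 < 1 / M := by positivity
      have h4 : M * (1 / M) = 1 := by field_simp
      by_contra hcon
      have h5 : M + 1 / M < ‖M • uEx n p + s • uEx n i‖ := by linarith
      nlinarith

theorem head_Ex (n : ℕ) (hn : 1 ≤ n) : HeadSup (bEx n) n := by
  intro a y hy
  have hfst : y.fst = 0 := by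
    refine Submodule.span_induction (p := fun y _ => WithLp.fst y = 0) ?_ ?_ ?_ ?_ hy
    · rintro _ ⟨i, hi, rfl⟩
      change (uEx n i).fst = 0
      rw [uEx_ge hi]
      rfl
    · rfl
    · intro x y _ _ hx hy
      rw [WithLp.add_fst, hx, hy, add_zero]
    · intro c x _ hx
      rw [WithLp.smul_fst, hx, smul_zero]
  have h1 : ∑ i : Fin n, a i • bEx n i = WithLp.toLp 2 (a, 0) := by
    have h2 : ∀ i : Fin n, a i • bEx n i = WithLp.toLp 2 (Pi.single i (a i), (0 : L2)) := by
      intro i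
      rw [bEx_apply, uEx_lt i.2, ← WithLp.toLp_smul, Prod.smul_mk, smul_zero,
        ← Pi.single_smul, smul_eq_mul, mul_one]
    simp only [h2]
    rw [← WithLp.toLp_sum]
    congr 1
    refine Prod.ext ?_ ?_
    · rw [Prod.fst_sum]
      exact Finset.univ_sum_single a
    · rw [Prod.snd_sum]
      simp
  refine (sq_eq_sq₀ (norm_nonneg _) (norm_nonneg _)).1 ?_
  rw [h1, WithLp.prod_norm_sq_eq_of_L2, WithLp.prod_norm_sq_eq_of_L2, bEx_apply, uEx_lt hn,
    WithLp.add_fst, WithLp.add_snd, WithLp.add_fst, WithLp.add_snd, hfst, WithLp.smul_fst,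
    WithLp.smul_snd, WithLp.toLp_fst, WithLp.toLp_snd, WithLp.toLp_fst, WithLp.toLp_snd]
  simp [norm_smul, Pi.norm_single]

theorem norm_formula_Ex (n : ℕ) (a : ℕ → ℝ) (N : ℕ) :
    ‖∑ i ∈ Finset.range (n + N), a i • bEx n i‖ ^ 2 =
      ‖fun i : Fin n => a i‖ ^ 2 + ∑ i ∈ Finset.range N, a (n + i) ^ 2 := by
  have h1 : ∑ i ∈ Finset.range n, a i • bEx n i =
      WithLp.toLp 2 ((fun i : Fin n => a i), (0 : L2)) := by
    rw [Finset.sum_range]
    have h2 : ∀ i : Fin n, a i • bEx n i = WithLp.toLp 2 (Pi.single i (a i), (0 : L2)) := by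
      intro i
      rw [bEx_apply, uEx_lt i.2, ← WithLp.toLp_smul, Prod.smul_mk, smul_zero,
        ← Pi.single_smul, smul_eq_mul, mul_one]
    simp only [h2]
    rw [← WithLp.toLp_sum]
    congr 1
    refine Prod.ext ?_ ?_
    · rw [Prod.fst_sum]
      exact Finset.univ_sum_single (fun i : Fin n => a i)
    · rw [Prod.snd_sum]
      simp
  have h2 : ∑ i ∈ Finset.range N, a (n + i) • bEx n (n + i) =
      WithLp.toLp 2 ((0 : Fin n → ℝ), ∑ i ∈ Finset.range N, (lp.single 2 i (a (n + i)) : L2)) := by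
    have h3 : ∀ i, a (n + i) • bEx n (n + i) =
        WithLp.toLp 2 ((0 : Fin n → ℝ), (lp.single 2 i (a (n + i)) : L2)) := by
      intro i
      rw [bEx_apply, uEx_ge (by omega), ← WithLp.toLp_smul, Prod.smul_mk, smul_zero,
        ← lp.single_smul, smul_eq_mul, mul_one, Nat.add_sub_cancel_left]
    simp only [h3]
    rw [← WithLp.toLp_sum]
    congr 1
    refine Prod.ext ?_ ?_
    · rw [Prod.fst_sum]
      simp
    · rw [Prod.snd_sum]
  rw [Finset.sum_range_add, h1, h2, ← WithLp.toLp_add, Prod.mk_add_mk, add_zero, zero_add,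
    norm_sq_Ex]
  congr 1
  have h3 := lp.norm_sum_single (E := fun _ : ℕ => ℝ) (p := 2) (by norm_num)
    (fun i => a (n + i)) (Finset.range N)
  simpa using h3

end Pool.Agent.Work.MP_8db9c5_an
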