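import Pool.Agent.Work.MP_8db9c5_an.Head

/-!
# The isometry group is `{±1} × S_n` for smooth bases with an initial `ℓ_∞^n` segment
-/

set_option linter.unusedSectionVars false

open Topology Filter Set

namespace Pool.Agent.Work.MP_8db9c5_an

variable {X : Type*} [NormedAddCommGroup X] [NormedSpace ℝ X] [CompleteSpace X]
variable {E : Type*} [NormedAddCommGroup E] [NormedSpace ℝ E] [CompleteSpace E]
variable {b : UnconditionalSchauderBasis ℕ ℝ X} {e : ℕ → E}

/-- the coordinates beyond `n` are fixed if `‖x_u - x_q‖ > 1` for `u < q`, `n ≤ q` -/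
theorem perm_fix (hn : ∀ i, ‖b i‖ = 1) (hJ : IsJamesification b.basis e) {n : ℕ}
    (hsep : ∀ u q, u < q → n ≤ q → 1 < ‖b u - b q‖) {T : E ≃ₗᵢ[ℝ] E} {ρ : Equiv.Perm ℕ}
    (hρ : ∀ m z, t b e m (T z) = t b e (ρ m) z) : ∀ q, n ≤ q → ρ q = q := by
  have hlt : ∀ u q, u < q → n ≤ q → ρ u < ρ q := by
    intro u q huq hq
    by_contra hcon
    have hne : ρ u ≠ ρ q := fun h => by
      have := ρ.injective h
      omega
    have hlt : ρ q < ρ u := by omega
    have h1 := norm_V_le hJ (isCode_cTwo (i := u) (le_refl q)) (T (e (ρ q)))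
    rw [V_cTwo hJ huq.le le_rfl, T.norm_map, norm_e hn hJ] at h1
    have h2 : t b e u (T (e (ρ q))) = 0 := by
      rw [hρ, t_basis hJ, if_pos hlt]
    have h3 : t b e q (T (e (ρ q))) = -1 := by
      rw [hρ, t_basis hJ, if_neg (lt_irrefl _)]
    rw [t_apply] at h2 h3
    have h4 : S b e q (T (e (ρ q))) - S b e u (T (e (ρ q))) = -1 := by
      linarith
    have h5 : Sg b e (T (e (ρ q))) - S b e q (T (e (ρ q))) = 1 := by
      linarith
    rw [h4, h5, one_smul, neg_smul, one_smul] at h1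
    have h6 : -b u + b q = -(b u - b q) := by abel
    rw [h6, norm_neg] at h1
    have := hsep u q huq hq
    linarith
  intro q hq
  refine le_antisymm ?_ ?_
  · have h1 : (Finset.range (ρ q)).card ≤ (Finset.range q).card := by
      refine Finset.card_le_card_of_injOn ρ.symm ?_ ρ.symm.injective.injOn
      intro v hv
      have hv' := Finset.mem_range.1 (Finset.mem_coe.1 hv)
      refine Finset.mem_coe.2 (Finset.mem_range.2 ?_)
      by_contra hcon
      rcases (not_lt.1 hcon).eq_or_lt with h2 | h2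
      · rw [h2, Equiv.apply_symm_apply] at hv'
        omega
      · have h3 := hlt q (ρ.symm v) h2 (by omega)
        rw [Equiv.apply_symm_apply] at h3
        omega
    simpa using h1
  · have h1 : (Finset.range q).card ≤ (Finset.range (ρ q)).card := by
      refine Finset.card_le_card_of_injOn ρ ?_ ρ.injective.injOn
      intro u hu
      exact Finset.mem_coe.2 (Finset.mem_range.2
        (hlt u q (Finset.mem_range.1 (Finset.mem_coe.1 hu)) hq))
    simpa using h1

theorem exists_perm_clm (hJ : IsJamesification b.basis e) {n : ℕ} (hn1 : 1 ≤ n)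
    (hH : HeadSup b n) (π : Equiv.Perm ℕ) (hπ : ∀ m, n ≤ m → π m = m) :
    ∃ Φ : E →L[ℝ] E, ∀ m z, t b e m (Φ z) = t b e (π.symm m) z := by
  have hπ' : ∀ m, n ≤ m → π.symm m = m := fun m hm => by
    rw [Equiv.symm_apply_eq, hπ m hm]
  set y : ℕ → E := fun j => - ∑ m ∈ Finset.range (j + 1), dl e (π m) with hy
  have ht : ∀ m j, t b e m (y j) = t b e (π.symm m) (e j) := by
    intro m j
    rw [hy]
    simp only
    rw [map_neg, map_sum, t_basis hJ]
    by_cases h : j < π.symm m
    · rw [if_pos h, Finset.sum_eq_zero, neg_zero]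
      intro m' hm'
      have := Finset.mem_range.1 hm'
      rw [t_dl hJ, if_neg]
      intro h2
      rw [h2, Equiv.symm_apply_apply] at h
      omega
    · rw [if_neg h, Finset.sum_eq_single_of_mem (π.symm m) (Finset.mem_range.2 (by omega)),
        t_dl hJ, Equiv.apply_symm_apply, if_pos rfl]
      intro m' _ hm'
      rw [t_dl hJ, if_neg]
      intro h2
      exact hm' (by rw [h2, Equiv.symm_apply_apply])
  obtain ⟨Φ, h1, _⟩ := exists_clm hJ.dense y 1 fun a => by
    rw [one_mul]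
    refine norm_perm_le hJ hn1 hH hπ' fun m => ?_
    rw [Finsupp.sum, Finsupp.sum, map_sum, map_sum]
    exact Finset.sum_congr rfl fun j _ => by rw [map_smul, map_smul, ht]
  refine ⟨Φ, fun m => ?_⟩
  have h2 : (t b e m).comp Φ = t b e (π.symm m) := clm_ext hJ.dense fun j => by
    rw [ContinuousLinearMap.comp_apply, h1, ht]
  exact fun z => congrArg (fun f => f z) h2

theorem exists_perm_iso (hJ : IsJamesification b.basis e) {n : ℕ} (hn1 : 1 ≤ n)
    (hH : HeadSup b n) (π : Equiv.Perm ℕ) (hπ : ∀ m, n ≤ m → π m = m) :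
    ∃ T : E ≃ₗᵢ[ℝ] E, ∀ m, T (dl e m) = dl e (π m) := by
  have hπ' : ∀ m, n ≤ m → π.symm m = m := fun m hm => by
    rw [Equiv.symm_apply_eq, hπ m hm]
  obtain ⟨Φ, hΦ⟩ := exists_perm_clm hJ hn1 hH π hπ
  obtain ⟨Ψ, hΨ⟩ := exists_perm_clm hJ hn1 hH π.symm hπ'
  simp only [Equiv.symm_symm] at hΨ
  have h1 : ∀ z, Φ (Ψ z) = z := fun z => eq_of_t hJ fun m => by
    rw [hΦ, hΨ, Equiv.apply_symm_apply]
  have h2 : ∀ z, Ψ (Φ z) = z := fun z => eq_of_t hJ fun m => by
    rw [hΨ, hΦ, Equiv.symm_apply_apply]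
  have h3 : ∀ z, ‖Φ z‖ = ‖z‖ := fun z => by
    refine le_antisymm (norm_perm_le hJ hn1 hH hπ' fun m => hΦ m z) ?_
    refine norm_perm_le hJ hn1 hH hπ fun m => ?_
    rw [hΦ, Equiv.symm_apply_apply]
  refine ⟨⟨LinearEquiv.ofLinearMap (Φ : E →ₗ[ℝ] E) (Ψ : E →ₗ[ℝ] E) (LinearMap.ext h1)
    (LinearMap.ext h2), h3⟩, fun m => ?_⟩
  change Φ (dl e m) = dl e (π m)
  refine eq_of_t hJ fun k => ?_
  rw [hΦ, t_dl hJ, t_dl hJ]
  by_cases h : k = π m
  · rw [if_pos h, if_pos (by rw [h, Equiv.symm_apply_apply])]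
  · rw [if_neg h, if_neg]
    intro h4
    exact h (by rw [← h4, Equiv.apply_symm_apply])

/-- the structure of the isometries; here the first `n` vectors are arbitrary -/
theorem group_structure (hrefl : Function.Surjective (NormedSpace.inclusionInDoubleDual ℝ X))
    (hn : ∀ i, ‖b i‖ = 1) (hJ : IsJamesification b.basis e) (hS : SmoothAt b) {n : ℕ}
    (hsep : ∀ u q, u < q → n ≤ q → 1 < ‖b u - b q‖) (T : E ≃ₗᵢ[ℝ] E) :
    ∃ (s : ℝ) (π : Equiv.Perm ℕ), (s = 1 ∨ s = -1) ∧ (∀ m, n ≤ m → π m = m) ∧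
      ∀ m, T (dl e m) = s • dl e (π m) := by
  rcases pos_or_neg hrefl hn hJ (noTwo_of_smooth hS) T with h | h
  · obtain ⟨ρ, hρ⟩ := smooth_perm hrefl hn hJ hS h
    exact ⟨1, ρ.symm, Or.inl rfl, fun m hm => by
      rw [Equiv.symm_apply_eq, perm_fix hn hJ hsep hρ m hm],
      fun m => by rw [smooth_dl hJ hρ, one_smul]⟩
  · obtain ⟨ρ, hρ⟩ := smooth_perm hrefl hn hJ hS h
    refine ⟨-1, ρ.symm, Or.inr rfl, fun m hm => by
      rw [Equiv.symm_apply_eq, perm_fix hn hJ hsep hρ m hm], fun m => ?_⟩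
    have h1 := smooth_dl hJ hρ m
    have h2 : (T.trans (LinearIsometryEquiv.neg ℝ)) (dl e m) = - T (dl e m) := rfl
    rw [h2] at h1
    rw [neg_smul, one_smul, ← h1, neg_neg]

/-- an isometry is determined by the images of the vectors `δ_m` -/
theorem iso_ext (hJ : IsJamesification b.basis e) {T T' : E ≃ₗᵢ[ℝ] E}
    (h : ∀ m, T (dl e m) = T' (dl e m)) : T = T' := by
  have hsum : ∀ m, e m = - ∑ n ∈ Finset.range (m + 1), dl e n := by
    intro m
    induction m with
    | zero => simp [dl]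
    | succ m ih =>
      rw [Finset.sum_range_succ, neg_add, ← ih]
      simp [dl]
  have h1 : (T : E →L[ℝ] E) = (T' : E →L[ℝ] E) := clm_ext hJ.dense fun j => by
    rw [hsum j, map_neg, map_neg, map_sum, map_sum]
    congr 1
    exact Finset.sum_congr rfl fun m _ => h m
  ext z
  exact congrArg (fun f => f z) h1

/-- the permutation of `ℕ` given by a permutation of `Fin n` -/
def permExt {n : ℕ} (π : Equiv.Perm (Fin n)) : Equiv.Perm ℕ where
  toFun m := if h : m < n then (π ⟨m, h⟩ : ℕ) else m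
  invFun m := if h : m < n then (π.symm ⟨m, h⟩ : ℕ) else m
  left_inv m := by
    by_cases h : m < n
    · simp [h]
    · simp [h]
  right_inv m := by
    by_cases h : m < n
    · simp [h]
    · simp [h]

theorem permExt_lt {n : ℕ} (π : Equiv.Perm (Fin n)) (i : Fin n) : permExt π i = π i := by
  change (if h : (i : ℕ) < n then (π ⟨i, h⟩ : ℕ) else i) = π i
  rw [dif_pos i.2]

theorem permExt_ge {n : ℕ} (π : Equiv.Perm (Fin n)) {m : ℕ} (hm : n ≤ m) :
    permExt π m = m := by
  change (if h : m < n then (π ⟨m, h⟩ : ℕ) else m) = m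
  rw [dif_neg (by omega)]

theorem dl_ne (hJ : IsJamesification b.basis e) {s s' : ℝ} (hs : s ≠ 0) {m m' : ℕ}
    (h : s • dl e m = s' • dl e m') : m = m' ∧ s = s' := by
  have h1 := congrArg (t b e m) h
  rw [map_smul, map_smul, t_dl hJ, t_dl hJ, if_pos rfl] at h1
  by_cases h2 : m = m'
  · rw [if_pos h2] at h1
    exact ⟨h2, by simpa using h1⟩
  · rw [if_neg h2] at h1
    simp at h1
    exact absurd h1 hs

/-- up to a common sign, every isometry of `E` is given by a permutation of the vectors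
`dl e 0, …, dl e (n-1)` and it fixes all the other `dl e m` -/
def IsometriesPermute (e : ℕ → E) (n : ℕ) : Prop :=
  ∀ T : E ≃ₗᵢ[ℝ] E, ∃ (s : ℝ) (π : Equiv.Perm ℕ), (s = 1 ∨ s = -1) ∧
    (∀ m, n ≤ m → π m = m) ∧ ∀ m, T (dl e m) = s • dl e (π m)

/-- the isometry group of `E` is isomorphic to `{±1} × S_n`, where `S_n` acts by permuting the
vectors `dl e 0, …, dl e (n-1)` and fixes all the other `dl e m` -/
def IsomGroupEqSym (e : ℕ → E) (n : ℕ) : Prop :=
  ∃ Φ : ℤˣ × Equiv.Perm (Fin n) ≃* (E ≃ₗᵢ[ℝ] E), ∀ (s : ℤˣ) (π : Equiv.Perm (Fin n)),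
    (∀ i : Fin n, Φ (s, π) (dl e i) = ((s : ℤ) : ℝ) • dl e (π i)) ∧
    ∀ m, n ≤ m → Φ (s, π) (dl e m) = ((s : ℤ) : ℝ) • dl e m

/-- **the isometry group is `{±1} × S_n`** -/
theorem group_equiv (hrefl : Function.Surjective (NormedSpace.inclusionInDoubleDual ℝ X))
    (hn : ∀ i, ‖b i‖ = 1) (hJ : IsJamesification b.basis e) (hS : SmoothAt b) {n : ℕ}
    (hn1 : 1 ≤ n) (hH : HeadSup b n)
    (hsep : ∀ u q, u < q → n ≤ q → 1 < ‖b u - b q‖) : IsomGroupEqSym e n := by
  have hex : ∀ x : ℤˣ × Equiv.Perm (Fin n), ∃ T : E ≃ₗᵢ[ℝ] E,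
      ∀ m, T (dl e m) = ((x.1 : ℤ) : ℝ) • dl e (permExt x.2 m) := by
    rintro ⟨s, π⟩
    obtain ⟨T, hT⟩ := exists_perm_iso hJ hn1 hH (permExt π) fun m hm => permExt_ge π hm
    rcases Int.units_eq_one_or s with h | h
    · subst h
      exact ⟨T, fun m => by rw [hT]; simp⟩
    · subst h
      exact ⟨T.trans (LinearIsometryEquiv.neg ℝ), fun m => by
        change - T (dl e m) = _
        rw [hT]; simp⟩
  choose F hF using hex
  have hmul : ∀ x y, F (x * y) = F x * F y := by
    intro x y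
    refine iso_ext hJ fun m => ?_
    change F (x * y) (dl e m) = F x (F y (dl e m))
    rw [hF, hF, map_smul, hF, smul_smul]
    have h1 : permExt (x * y).2 m = permExt x.2 (permExt y.2 m) := by
      rcases lt_or_ge m n with h | h
      · have h2 := permExt_lt (x * y).2 ⟨m, h⟩
        have h3 := permExt_lt y.2 ⟨m, h⟩
        simp only at h2 h3
        rw [h2, h3, permExt_lt]
        rfl
      · rw [permExt_ge _ h, permExt_ge _ h, permExt_ge _ h]
    rw [h1]
    congr 1
    simp [mul_comm]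
  have hinj : Function.Injective F := by
    rintro ⟨s, π⟩ ⟨s', π'⟩ h
    have hs : ((s : ℤ) : ℝ) ≠ 0 := by
      rcases Int.units_eq_one_or s with h | h <;> simp [h]
    have h1 : ∀ m, ((s : ℤ) : ℝ) • dl e (permExt π m) =
        ((s' : ℤ) : ℝ) • dl e (permExt π' m) := by
      intro m
      rw [← hF (s, π), ← hF (s', π'), h]
    have h2 := fun m => dl_ne hJ hs (h1 m)
    have h3 : s = s' := by
      have := (h2 0).2
      exact Units.ext (by exact_mod_cast this)
    have h4 : π = π' := by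
      ext i
      have h5 := (h2 i).1
      rw [permExt_lt, permExt_lt] at h5
      exact h5
    rw [h3, h4]
  have hsurj : Function.Surjective F := by
    intro T
    obtain ⟨s, π, hs, hπ, hT⟩ := group_structure hrefl hn hJ hS hsep T
    have hlt : ∀ m, m < n → π m < n := by
      intro m hm
      by_contra hcon
      have h1 := hπ (π m) (by omega)
      have := π.injective h1
      omega
    have hlt' : ∀ m, m < n → π.symm m < n := by
      intro m hm
      by_contra hcon
      have h1 := hπ (π.symm m) (by omega)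
      rw [Equiv.apply_symm_apply] at h1
      omega
    set π' : Equiv.Perm (Fin n) :=
      { toFun := fun i => ⟨π i, hlt i i.2⟩
        invFun := fun i => ⟨π.symm i, hlt' i i.2⟩
        left_inv := fun i => by simp
        right_inv := fun i => by simp } with hπ'
    have h1 : ∀ m, permExt π' m = π m := by
      intro m
      rcases lt_or_ge m n with h | h
      · have h2 := permExt_lt π' ⟨m, h⟩
        simp only at h2
        rw [h2]
        rfl
      · rw [permExt_ge _ h, hπ m h]
    rcases hs with hs | hs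
    · refine ⟨(1, π'), iso_ext hJ fun m => ?_⟩
      rw [hF, hT, h1, hs]
      simp
    · refine ⟨(-1, π'), iso_ext hJ fun m => ?_⟩
      rw [hF, hT, h1, hs]
      simp
  refine ⟨MulEquiv.ofBijective (MonoidHom.mk' F hmul) ⟨hinj, hsurj⟩, fun s π => ⟨?_, ?_⟩⟩
  · intro i
    change F (s, π) (dl e i) = _
    rw [hF, permExt_lt]
  · intro m hm
    change F (s, π) (dl e m) = _
    rw [hF, permExt_ge _ hm]

end Pool.Agent.Work.MP_8db9c5_an
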