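import Pool.Agent.Work.MP_8db9c5_an.Smooth

/-!
# Bases with an initial `ℓ_∞^n` segment: permutations of the first `n` coordinates `t_m`
-/

set_option linter.unusedSectionVars false

open Topology Filter Set

namespace Pool.Agent.Work.MP_8db9c5_an

variable {X : Type*} [NormedAddCommGroup X] [NormedSpace ℝ X] [CompleteSpace X]
variable {E : Type*} [NormedAddCommGroup E] [NormedSpace ℝ E] [CompleteSpace E]
variable {b : UnconditionalSchauderBasis ℕ ℝ X} {e : ℕ → E}

/-- the first `n` basis vectors enter the norm only by the maximum of their coefficients -/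
def HeadSup (b : UnconditionalSchauderBasis ℕ ℝ X) (n : ℕ) : Prop :=
  ∀ (a : Fin n → ℝ) (y : X), y ∈ Submodule.span ℝ (b.basis '' Set.Ici n) →
    ‖(∑ i, a i • b i) + y‖ = ‖‖a‖ • b 0 + y‖

theorem V_eq_sum (hJ : IsJamesification b.basis e) {r : ℕ → Option ℕ} (hr : IsCode r) {N : ℕ}
    (hN : ∀ j, N ≤ j → r j = none) (z : E) :
    V b.basis e r z = ∑ p ∈ Finset.range N, b.coord p (V b.basis e r z) • b p := by
  have : V b.basis e r = ∑ p ∈ Finset.range N, ((b.coord p).comp (V b.basis e r)).smulRight (b p) :=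
    clm_ext hJ.dense fun j => by
      rw [_root_.sum_apply]
      simp only [ContinuousLinearMap.smulRight_apply, ContinuousLinearMap.comp_apply,
        coord_V hJ hr]
      rw [V_basis hJ hr]
      rcases h : r j with _ | p
      · simp
      · have hpj := (hr j p h).1
        have hjN : j < N := by
          by_contra hcon
          rw [hN j (by omega)] at h
          simp at h
        rw [Finset.sum_eq_single_of_mem p (Finset.mem_range.2 (by omega))]
        · simp
        · intro q _ hq
          rw [if_neg (by simpa using Ne.symm hq), zero_smul]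
  conv_lhs => rw [this]
  rw [_root_.sum_apply]
  rfl

/-- the code with one more interval `[A, B)` before all the others -/
def cAdd (A B : ℕ) (r : ℕ → Option ℕ) : ℕ → Option ℕ := fun j =>
  if A ≤ j ∧ j < B then some A else r j

theorem isCode_cAdd {A B : ℕ} {r : ℕ → Option ℕ} (hr : IsCode r) (h : ∀ j, j < B → r j = none) :
    IsCode (cAdd A B r) := by
  intro j p hj
  unfold cAdd at hj ⊢
  split_ifs at hj with h1
  · simp only [Option.some.injEq] at hj
    subst hj
    exact ⟨h1.1, fun i hi1 hi2 => by rw [if_pos ⟨hi1, by omega⟩]⟩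
  · obtain ⟨h2, h3⟩ := hr j p hj
    refine ⟨h2, fun i hi1 hi2 => ?_⟩
    have h4 := h3 i hi1 hi2
    have h5 : ¬ (A ≤ i ∧ i < B) := by
      rintro ⟨_, h6⟩
      rw [h i h6] at h4
      simp at h4
    rw [if_neg h5]
    exact h4

theorem V_cAdd (hJ : IsJamesification b.basis e) {A B : ℕ} (hAB : A ≤ B) {r : ℕ → Option ℕ}
    (hr : IsCode r) (h : ∀ j, j < B → r j = none) (z : E) :
    V b.basis e (cAdd A B r) z = (t b e B z - t b e A z) • b A + V b.basis e r z := by
  have : V b.basis e (cAdd A B r) = (t b e B - t b e A).smulRight (b A) + V b.basis e r :=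
    clm_ext hJ.dense fun j => by
      rw [V_basis hJ (isCode_cAdd hr h), _root_.add_apply,
        ContinuousLinearMap.smulRight_apply, _root_.sub_apply, t_basis hJ, t_basis hJ,
        V_basis hJ hr]
      unfold cAdd
      by_cases h1 : A ≤ j ∧ j < B
      · rw [if_pos h1, if_pos h1.2, if_neg (by omega), h j h1.2, ox_none, ox_some]
        norm_num
      · rw [if_neg h1]
        by_cases h2 : j < A
        · rw [if_pos h2, if_pos (by omega)]; simp
        · rw [if_neg h2, if_neg (by omega)]; simp
  rw [this]; rfl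

theorem exists_norm_eq {n : ℕ} (hn1 : 1 ≤ n) (a : Fin n → ℝ) : ∃ i, ‖a‖ = |a i| := by
  have : Nonempty (Fin n) := ⟨⟨0, hn1⟩⟩
  obtain ⟨i, -, hi⟩ := Finset.exists_max_image Finset.univ (fun i => ‖a i‖)
    Finset.univ_nonempty
  refine ⟨i, le_antisymm ?_ ?_⟩
  · exact (pi_norm_le_iff_of_nonneg (abs_nonneg _)).2 fun j => hi j (Finset.mem_univ _)
  · exact norm_le_pi_norm a i

theorem head_single {n : ℕ} (hH : HeadSup b n) {A : ℕ} (hA : A < n) (d : ℝ) {y : X}
    (hy : y ∈ Submodule.span ℝ (b.basis '' Set.Ici n)) :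
    ‖d • b A + y‖ = ‖|d| • b 0 + y‖ := by
  have h1 := hH (Pi.single ⟨A, hA⟩ d) y hy
  have h2 : ‖(Pi.single ⟨A, hA⟩ d : Fin n → ℝ)‖ = |d| := by
    rw [Pi.norm_single, Real.norm_eq_abs]
  rw [h2, Finset.sum_eq_single (⟨A, hA⟩ : Fin n)] at h1
  · simpa using h1
  · intro i _ hi
    rw [Pi.single_eq_of_ne hi, zero_smul]
  · intro h; exact absurd (Finset.mem_univ _) h

/-- permuting the first `n` coordinates does not increase the norm -/
theorem norm_perm_le (hJ : IsJamesification b.basis e) {n : ℕ} (hn1 : 1 ≤ n) (hH : HeadSup b n)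
    {ρ : Equiv.Perm ℕ} (hρ : ∀ m, n ≤ m → ρ m = m) {w z : E}
    (h : ∀ m, t b e m w = t b e (ρ m) z) : ‖w‖ ≤ ‖z‖ := by
  classical
  have hlt : ∀ m, m < n → ρ m < n := by
    intro m hm
    by_contra hcon
    have h1 := hρ (ρ m) (by omega)
    have := ρ.injective h1
    omega
  refine le_of_forall_pos_le_add fun ε hε => ?_
  obtain ⟨r, hr, ⟨N0, hN0⟩, hlt2⟩ := exists_near_code hJ w hε
  suffices hs : ‖V b.basis e r w‖ ≤ ‖z‖ by linarith
  set N := max N0 n with hNdef
  have hN : ∀ j, N ≤ j → r j = none := fun j hj => hN0 j ((le_max_left _ _).trans hj)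
  have hnN : n ≤ N := le_max_right _ _
  -- intervals are finite
  have hcase : ∀ p, (∀ j, r j ≠ some p) ∨ (∃ q, p < q ∧ ∀ j, (r j = some p ↔ p ≤ j ∧ j < q)) := by
    intro p
    rcases code_cases hr p with h1 | h1 | h1
    · exact Or.inl h1
    · exact Or.inr h1
    · exfalso
      have h2 := (h1 (max N p)).2 (le_max_right _ _)
      rw [hN _ (le_max_left _ _)] at h2
      simp at h2
  -- the tail
  have htail : ∀ p, n ≤ p → b.coord p (V b.basis e r w) = b.coord p (V b.basis e r z) := by
    intro p hp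
    rcases hcase p with h1 | ⟨q, hpq, h1⟩
    · rw [coord_V_none hJ hr h1, coord_V_none hJ hr h1]
    · rw [coord_V_fin hJ hr hpq h1, coord_V_fin hJ hr hpq h1]
      have h2 := h p
      have h3 := h q
      rw [hρ p hp, t_apply, t_apply] at h2
      rw [hρ q (by omega), t_apply, t_apply] at h3
      linarith
  set r' := rfil (Finset.Ico n N : Finset ℕ) r with hr'
  have hr'c : IsCode r' := isCode_rfil hr
  have hproj : ∀ u : E, V b.basis e r' u =
      ∑ p ∈ Finset.Ico n N, b.coord p (V b.basis e r u) • b p := by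
    intro u
    rw [hr', ← proj_V hJ hr, GeneralSchauderBasis.proj_apply]
  set y := V b.basis e r' z with hy
  have hyw : V b.basis e r' w = y := by
    rw [hy, hproj, hproj]
    exact Finset.sum_congr rfl fun p hp => by rw [htail p (Finset.mem_Ico.1 hp).1]
  have hyspan : y ∈ Submodule.span ℝ (b.basis '' Set.Ici n) := by
    rw [hy, hproj]
    refine Submodule.sum_mem _ fun p hp => Submodule.smul_mem _ _ (Submodule.subset_span ?_)
    exact ⟨p, (Finset.mem_Ico.1 hp).1, rfl⟩
  set a : Fin n → ℝ := fun i => b.coord i (V b.basis e r w) with ha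
  have hv : V b.basis e r w = (∑ i, a i • b i) + y := by
    conv_lhs => rw [V_eq_sum hJ hr hN w]
    rw [← hyw, hproj, Finset.sum_range (n := n) (f := fun i => b.coord i (V b.basis e r w) • b i) |>.symm,
      Finset.sum_range_add_sum_Ico _ hnN]
  rw [hv, hH a y hyspan]
  obtain ⟨i, hi⟩ := exists_norm_eq hn1 a
  rcases hcase i with h1 | ⟨q, hpq, h1⟩
  · have : a i = 0 := coord_V_none hJ hr h1 w
    rw [hi, this, abs_zero, zero_smul, zero_add, hy]
    exact norm_V_le hJ hr'c z
  · have hai : a i = t b e (ρ q) z - t b e (ρ i) z := by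
      change b.coord i (V b.basis e r w) = _
      rw [coord_V_fin hJ hr hpq h1, ← h, ← h, t_apply, t_apply]
      ring
    -- the new interval
    obtain ⟨A, B, hA, hAB, hB, hval⟩ : ∃ A B, A < n ∧ A ≤ B ∧ (∀ j, j < B → r' j = none) ∧
        |t b e B z - t b e A z| = |a i| := by
      have hin := hlt i i.2
      rcases lt_or_ge q n with hq | hq
      · have hqn := hlt q hq
        have hnone : ∀ B, B < n → ∀ j, j < B → r' j = none := by
          intro B hB j hj
          by_contra hcon
          obtain ⟨p, hp⟩ := Option.ne_none_iff_exists'.1 hcon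
          obtain ⟨h2, h3⟩ := rfil_eq_some.1 hp
          have h4 := (Finset.mem_Ico.1 (Finset.mem_coe.1 h3)).1
          have h5 := (hr j p h2).1
          omega
        rcases le_total (ρ i) (ρ q) with h2 | h2
        · exact ⟨ρ i, ρ q, hin, h2, hnone _ hqn, by rw [hai]⟩
        · exact ⟨ρ q, ρ i, hqn, h2, hnone _ hin, by rw [hai, abs_sub_comm]⟩
      · refine ⟨ρ i, q, hin, by omega, ?_, by rw [hai, hρ q hq]⟩
        intro j hj
        by_contra hcon
        obtain ⟨p, hp⟩ := Option.ne_none_iff_exists'.1 hcon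
        obtain ⟨h2, h3⟩ := rfil_eq_some.1 hp
        have h4 := (Finset.mem_Ico.1 (Finset.mem_coe.1 h3)).1
        have h5 := (hr j p h2).1
        have h6 := (h1 j).2 ⟨by have := i.2; omega, hj⟩
        rw [h2] at h6
        simp only [Option.some.injEq] at h6
        have := i.2
        omega
    have h2 := norm_V_le hJ (isCode_cAdd (A := A) hr'c hB) z
    rw [V_cAdd hJ hAB hr'c hB, ← hy, head_single hH hA _ hyspan, hval, ← hi] at h2
    exact h2

end Pool.Agent.Work.MP_8db9c5_an
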