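import Pool.Agent.Work.MP_8db9c5_an.BC
import Pool.Agent.Work.MP_8db9c5_an.Bd.B01

/-!
# Isometries of Jamesifications: the common part
-/

set_option linter.unusedSectionVars false

open Topology Filter Set

namespace Pool.Agent.Work.MP_8db9c5_an

variable {X : Type*} [NormedAddCommGroup X] [NormedSpace ℝ X] [CompleteSpace X]
variable {E : Type*} [NormedAddCommGroup E] [NormedSpace ℝ E] [CompleteSpace E]
variable {b : UnconditionalSchauderBasis ℕ ℝ X} {e : ℕ → E}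

theorem S_e_zero (hJ : IsJamesification b.basis e) {U : Ultrafilter ℕ}
    (hU : (U : Filter ℕ) ≤ atTop) (k : ℕ) : Tendsto (fun n => S b e k (e n)) U (𝓝 0) := by
  refine tendsto_const_nhds.congr' ?_
  have : ∀ᶠ n in (U : Filter ℕ), k ≤ n := hU (eventually_ge_atTop k)
  filter_upwards [this] with n hn
  rw [S_basis hJ, if_neg (by omega)]

/-- isometries are weak* continuous: `s_k (T e_n) → 0` -/
theorem S_T_zero (hrefl : Function.Surjective (NormedSpace.inclusionInDoubleDual ℝ X))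
    (hn : ∀ i, ‖b i‖ = 1) (hJ : IsJamesification b.basis e) (T : E ≃ₗᵢ[ℝ] E)
    {U : Ultrafilter ℕ} (hU : (U : Filter ℕ) ≤ atTop) (k : ℕ) :
    Tendsto (fun n => S b e k (T (e n))) U (𝓝 0) := by
  obtain ⟨z, hz⟩ := exists_limit hrefl hn hJ U (v := fun n => T (e n)) fun n => by
    rw [T.norm_map, norm_e hn hJ]
  have hz0 : z = 0 := by
    refine lim_eq_zero (closure (Hsub b e : Set (E →L[ℝ] ℝ))) isSeparable_H
      (H_norming hrefl hJ) (Fsub b e : Set (E →L[ℝ] ℝ)) (F_norming hJ) T U e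
      (fun n => (norm_e hn hJ n).le) ?_ z ?_
    · intro f hf
      exact tendsto_F_zero (S_e_zero hJ hU) hf
    · intro f hf
      exact tendsto_F hz hf
  have := hz k
  rwa [hz0, map_zero] at this

/-! ### The points `ξ_k` -/

/-- the point `ξ_k = ∑_i 2^{-i-1} e_{k+i}` -/
noncomputable def xi (e : ℕ → E) (k : ℕ) : E := ∑' i : ℕ, ((1 : ℝ) / 2) ^ (i + 1) • e (k + i)

theorem hasSum_half : HasSum (fun i : ℕ => ((1 : ℝ) / 2) ^ (i + 1)) 1 := by
  have h := hasSum_geometric_two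
  have h2 := h.mul_left (1 / 2 : ℝ)
  have e1 : (1 : ℝ) / 2 * 2 = 1 := by norm_num
  rw [e1] at h2
  refine h2.congr_fun ?_ |> fun h => h
  intro i
  rw [pow_succ, mul_comm]

theorem hasSum_xi (hn : ∀ i, ‖b i‖ = 1) (hJ : IsJamesification b.basis e) (k : ℕ) :
    HasSum (fun i : ℕ => ((1 : ℝ) / 2) ^ (i + 1) • e (k + i)) (xi e k) := by
  refine Summable.hasSum ?_
  refine Summable.of_norm ?_
  refine hasSum_half.summable.congr fun i => ?_
  rw [norm_smul, norm_e hn hJ, mul_one, Real.norm_eq_abs, abs_of_pos (by positivity)]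

theorem hasSum_f_xi (hn : ∀ i, ‖b i‖ = 1) (hJ : IsJamesification b.basis e) (k : ℕ)
    (f : E →L[ℝ] ℝ) :
    HasSum (fun i : ℕ => ((1 : ℝ) / 2) ^ (i + 1) * f (e (k + i))) (f (xi e k)) := by
  have := (hasSum_xi hn hJ k).mapL f
  simpa only [map_smul, smul_eq_mul] using this

theorem Sg_xi (hn : ∀ i, ‖b i‖ = 1) (hJ : IsJamesification b.basis e) (k : ℕ) :
    Sg b e (xi e k) = 1 := by
  have h := hasSum_f_xi hn hJ k (Sg b e)
  simp only [Sg_basis hJ, mul_one] at h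
  exact h.unique hasSum_half

theorem norm_xi (hn : ∀ i, ‖b i‖ = 1) (hJ : IsJamesification b.basis e) (k : ℕ) :
    ‖xi e k‖ = 1 := by
  refine le_antisymm ?_ ?_
  · unfold xi
    refine (tsum_of_norm_bounded hasSum_half fun i => ?_)
    rw [norm_smul, norm_e hn hJ, mul_one, Real.norm_eq_abs, abs_of_pos (by positivity)]
  · have := abs_Sg_le hn hJ (xi e k)
    rwa [Sg_xi hn hJ, abs_one] at this

/-- if a functional with `f (e_n) ≤ 1` has the value `1` at `ξ_k` then `f (e_n) = 1` for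
`n ≥ k` -/
theorem eq_one_of_xi (hn : ∀ i, ‖b i‖ = 1) (hJ : IsJamesification b.basis e) {k : ℕ}
    {f : E →L[ℝ] ℝ} (hf : ∀ n, f (e n) ≤ 1) (h : f (xi e k) = 1) {n : ℕ} (hkn : k ≤ n) :
    f (e n) = 1 := by
  have h1 := hasSum_half.sub (hasSum_f_xi hn hJ k f)
  rw [h, sub_self] at h1
  have h2 : ∀ i, 0 ≤ ((1 : ℝ) / 2) ^ (i + 1) - ((1 : ℝ) / 2) ^ (i + 1) * f (e (k + i)) := by
    intro i
    have := hf (k + i)
    have h3 : (0 : ℝ) < (1 / 2) ^ (i + 1) := by positivity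
    nlinarith
  have h3 := (hasSum_zero_iff_of_nonneg h2).1 h1
  have h4 := congrFun h3 (n - k)
  simp only [Pi.zero_apply] at h4
  rw [show k + (n - k) = n by omega] at h4
  have h5 : (0 : ℝ) < (1 / 2) ^ (n - k + 1) := by positivity
  have h6 : ((1 : ℝ) / 2) ^ (n - k + 1) * (1 - f (e n)) = 0 := by linarith
  rcases mul_eq_zero.1 h6 with h7 | h7
  · exact absurd h7 h5.ne'
  · linarith

/-- no functional of norm one takes the value `1` at two basis vectors -/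
def NoTwo (b : UnconditionalSchauderBasis ℕ ℝ X) : Prop :=
  ∀ (g : X →L[ℝ] ℝ) (i j : ℕ), ‖g‖ ≤ 1 → g (b i) = 1 → g (b j) = 1 → i = j

theorem g_ox_le (hn : ∀ i, ‖b i‖ = 1) {g : X →L[ℝ] ℝ} (hg : ‖g‖ ≤ 1) (o : Option ℕ) :
    |g (ox b.basis o)| ≤ 1 := by
  rcases o with _ | p
  · simp
  · have := g.le_of_opNorm_le hg (b p)
    rw [hn, mul_one, Real.norm_eq_abs] at this
    exact this

theorem norming_xi (hn : ∀ i, ‖b i‖ = 1) (hJ : IsJamesification b.basis e) (h2 : NoTwo b)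
    {k : ℕ} {r : ℕ → Option ℕ} (hr : IsCode r) {g : X →L[ℝ] ℝ} (hg : ‖g‖ ≤ 1)
    (h : g (V b.basis e r (xi e k)) = 1) :
    ∃ p, p ≤ k ∧ (∀ j, (r j = some p ↔ p ≤ j)) ∧ g (b p) = 1 := by
  have h1 : ∀ n, k ≤ n → g (ox b.basis (r n)) = 1 := by
    intro n hkn
    have := eq_one_of_xi hn hJ (f := g.comp (V b.basis e r)) (k := k) (fun n => by
      rw [ContinuousLinearMap.comp_apply, V_basis hJ hr]
      exact (le_abs_self _).trans (g_ox_le hn hg _)) h hkn
    rwa [ContinuousLinearMap.comp_apply, V_basis hJ hr] at this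
  have h3 : ∀ n, k ≤ n → ∃ p, r n = some p ∧ g (b p) = 1 := by
    intro n hkn
    have h4 := h1 n hkn
    rcases h5 : r n with _ | p
    · rw [h5, ox_none, map_zero] at h4
      exact absurd h4 zero_ne_one
    · rw [h5, ox_some] at h4
      exact ⟨p, rfl, h4⟩
  obtain ⟨p, hp1, hp2⟩ := h3 k le_rfl
  refine ⟨p, (hr k p hp1).1, fun j => ⟨fun hj => (hr j p hj).1, fun hj => ?_⟩, hp2⟩
  rcases le_or_gt k j with hkj | hkj
  · obtain ⟨p', hp1', hp2'⟩ := h3 j hkj
    rw [hp1', h2 g p' p hg hp2' hp2]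
  · exact (hr k p hp1).2 j hj hkj.le

theorem V_xi_of_inf (hn : ∀ i, ‖b i‖ = 1) (hJ : IsJamesification b.basis e) {k p : ℕ}
    (hpk : p ≤ k) {r : ℕ → Option ℕ} (hr : IsCode r) (hp : ∀ j, (r j = some p ↔ p ≤ j))
    {g : X →L[ℝ] ℝ} (hg : g (b p) = 1) : g (V b.basis e r (xi e k)) = 1 := by
  have h1 := hasSum_f_xi hn hJ k (g.comp (V b.basis e r))
  have h2 : ∀ i, (g.comp (V b.basis e r)) (e (k + i)) = 1 := fun i => by
    rw [ContinuousLinearMap.comp_apply, V_basis hJ hr, (hp _).2 (by omega), ox_some, hg]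
  simp only [h2, mul_one] at h1
  exact h1.unique hasSum_half

theorem comp_V_norm (hJ : IsJamesification b.basis e) {r : ℕ → Option ℕ} (hr : IsCode r)
    {g : X →L[ℝ] ℝ} (hg : ‖g‖ ≤ 1) : ‖g.comp (V b.basis e r)‖ ≤ 1 := by
  refine ContinuousLinearMap.opNorm_le_bound _ zero_le_one fun y => ?_
  rw [one_mul, ContinuousLinearMap.comp_apply]
  have := g.le_of_opNorm_le hg (V b.basis e r y)
  rw [one_mul] at this
  exact this.trans (norm_V_le hJ hr y)

/-- a norming functional at `T ξ_k` takes the value `1` at `T e_n` for `n ≥ k` -/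
theorem norming_T_basis (hn : ∀ i, ‖b i‖ = 1) (hJ : IsJamesification b.basis e)
    (h2 : NoTwo b) (T : E ≃ₗᵢ[ℝ] E) {k : ℕ} {f : E →L[ℝ] ℝ} (hf : ‖f‖ ≤ 1)
    (h : f (T (xi e k)) = 1) {n : ℕ} (hkn : k ≤ n) : f (T (e n)) = 1 := by
  have hcomp : ∀ z, ‖(f.comp (T : E →L[ℝ] E)) z‖ ≤ ‖z‖ := fun z => by
    have := f.le_of_opNorm_le hf (T z)
    rw [one_mul, T.norm_map] at this
    exact this
  have hnorm : ‖f.comp (T : E →L[ℝ] E)‖ ≤ 1 :=
    ContinuousLinearMap.opNorm_le_bound _ zero_le_one fun z => by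
      rw [one_mul]; exact hcomp z
  have key : ∀ s : ℝ, (s = 1 ∨ s = -1) → s * f (T (e n)) ≤ s := by
    intro s hs
    obtain ⟨r, g, hr, hg, hξ, hle⟩ := exists_danskin hJ (xi e k) (s • e n)
      (f.comp (T : E →L[ℝ] E)) hnorm (by
        rw [norm_xi hn hJ]; exact h)
    rw [norm_xi hn hJ] at hξ
    obtain ⟨p, hpk, hp, hgp⟩ := norming_xi hn hJ h2 hr hg hξ
    rw [map_smul, map_smul, map_smul, V_basis hJ hr, (hp n).2 (by omega), ox_some, hgp] at hle
    simpa using hle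
  have h3 := key 1 (Or.inl rfl)
  have h4 := key (-1) (Or.inr rfl)
  linarith

theorem norming_T (hrefl : Function.Surjective (NormedSpace.inclusionInDoubleDual ℝ X))
    (hn : ∀ i, ‖b i‖ = 1) (hJ : IsJamesification b.basis e) (h2 : NoTwo b)
    (T : E ≃ₗᵢ[ℝ] E) {U : Ultrafilter ℕ} (hU : (U : Filter ℕ) ≤ atTop) {c : ℝ}
    (hc : Tendsto (fun n => Sg b e (T (e n))) U (𝓝 c)) {k : ℕ} {r : ℕ → Option ℕ}
    (hr : IsCode r) {g : X →L[ℝ] ℝ} (hg : ‖g‖ ≤ 1)
    (h : g (V b.basis e r (T (xi e k))) = 1) :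
    ∃ p, (∀ j, (r j = some p ↔ p ≤ j)) ∧ g (b p) * c = 1 := by
  have h3 : Tendsto (fun n => g (V b.basis e r (T (e n)))) U (𝓝 1) := by
    refine tendsto_const_nhds.congr' ?_
    have : ∀ᶠ n in (U : Filter ℕ), k ≤ n := hU (eventually_ge_atTop k)
    filter_upwards [this] with n hkn
    exact (norming_T_basis hn hJ h2 T (comp_V_norm hJ hr hg) h hkn).symm
  by_cases hp : ∃ p, ∀ j, (r j = some p ↔ p ≤ j)
  · obtain ⟨p, hp⟩ := hp
    exact ⟨p, hp, tendsto_nhds_unique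
      (tendsto_inf hJ (S_T_zero hrefl hn hJ T hU) hc hr hp g) h3⟩
  · have h4 := tendsto_noinf hrefl hJ (v := fun n => T (e n)) (fun n => by
      rw [T.norm_map, norm_e hn hJ]) (S_T_zero hrefl hn hJ T hU) hr
      (fun p hcon => hp ⟨p, hcon⟩) g
    exact absurd (tendsto_nhds_unique h4 h3) zero_ne_one

/-- an isometry is positive if `σ (T e_n) = 1` for all large `n` -/
def IsPosIso (b : UnconditionalSchauderBasis ℕ ℝ X) (e : ℕ → E) (T : E ≃ₗᵢ[ℝ] E) : Prop :=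
  ∀ᶠ n in atTop, Sg b e (T (e n)) = 1

theorem exists_c (hrefl : Function.Surjective (NormedSpace.inclusionInDoubleDual ℝ X))
    (hn : ∀ i, ‖b i‖ = 1) (hJ : IsJamesification b.basis e) (h2 : NoTwo b)
    (T : E ≃ₗᵢ[ℝ] E) {U : Ultrafilter ℕ} (hU : (U : Filter ℕ) ≤ atTop) :
    ∃ c : ℝ, (c = 1 ∨ c = -1) ∧ Tendsto (fun n => Sg b e (T (e n))) U (𝓝 c) := by
  obtain ⟨c, hc1, hc2⟩ := exists_real_lim U (fun n => Sg b e (T (e n))) 1 fun n => by
    have := abs_Sg_le hn hJ (T (e n))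
    rwa [T.norm_map, norm_e hn hJ] at this
  refine ⟨c, ?_, hc2⟩
  obtain ⟨r, g, hr, hg, h⟩ := exists_norming hJ (T (xi e 0))
  rw [T.norm_map, norm_xi hn hJ] at h
  obtain ⟨p, _, h3⟩ := norming_T hrefl hn hJ h2 T hU hc2 hr hg h
  have h4 := g_ox_le hn hg (some p)
  rw [ox_some] at h4
  have h5 : |g (b p)| * |c| = 1 := by rw [← abs_mul, h3, abs_one]
  have h6 : |c| = 1 := by
    have := abs_nonneg c
    have := abs_nonneg (g (b p))
    nlinarith
  exact abs_eq (zero_le_one) |>.1 h6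

/-- for a norming functional `f` of `T ξ_0` one has `f ∘ T = σ` -/
theorem comp_T_eq_Sg (hn : ∀ i, ‖b i‖ = 1) (hJ : IsJamesification b.basis e) (h2 : NoTwo b)
    (T : E ≃ₗᵢ[ℝ] E) {f : E →L[ℝ] ℝ} (hf : ‖f‖ ≤ 1)
    (h : f (T (xi e 0)) = 1) (z : E) : f (T z) = Sg b e z := by
  have hnorm : ‖f.comp (T : E →L[ℝ] E)‖ ≤ 1 :=
    ContinuousLinearMap.opNorm_le_bound _ zero_le_one fun z => by
      have := f.le_of_opNorm_le hf (T z)
      rw [T.norm_map] at this
      exact this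
  have key : ∀ z, f (T z) ≤ Sg b e z := by
    intro z
    obtain ⟨r, g, hr, hg, hξ, hle⟩ := exists_danskin hJ (xi e 0) z
      (f.comp (T : E →L[ℝ] E)) hnorm (by rw [norm_xi hn hJ]; exact h)
    rw [norm_xi hn hJ] at hξ
    obtain ⟨p, hp0, hp, hgp⟩ := norming_xi hn hJ h2 hr hg hξ
    have hp0' : p = 0 := by omega
    subst hp0'
    have h3 : r = cInf 0 := by
      funext j
      rw [(hp j).2 (Nat.zero_le _)]
      unfold cInf
      rw [if_pos (Nat.zero_le _)]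
    rw [h3, V_cInf hJ, S_zero hJ, sub_zero, map_smul, hgp, smul_eq_mul, mul_one] at hle
    exact hle
  refine le_antisymm (key z) ?_
  have := key (-z)
  rw [map_neg, map_neg, map_neg] at this
  linarith

theorem pos_or_neg (hrefl : Function.Surjective (NormedSpace.inclusionInDoubleDual ℝ X))
    (hn : ∀ i, ‖b i‖ = 1) (hJ : IsJamesification b.basis e) (h2 : NoTwo b)
    (T : E ≃ₗᵢ[ℝ] E) :
    IsPosIso b e T ∨ IsPosIso b e (T.trans (LinearIsometryEquiv.neg ℝ)) := by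
  -- a norming functional at `T⁻¹ ξ_0`
  obtain ⟨r, g, hr, hg, h⟩ := exists_norming hJ (T.symm (xi e 0))
  rw [T.symm.norm_map, norm_xi hn hJ] at h
  obtain ⟨c, hc, hcT⟩ := exists_c hrefl hn hJ h2 T.symm
    (U := hyperfilter ℕ) Nat.hyperfilter_le_atTop
  obtain ⟨p, hp, h3⟩ := norming_T hrefl hn hJ h2 T.symm Nat.hyperfilter_le_atTop hcT hr hg h
  have h4 := comp_T_eq_Sg hn hJ h2 T.symm (comp_V_norm hJ hr hg) h
  have h5 : ∀ n, p ≤ n → Sg b e (T (e n)) = g (b p) := by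
    intro n hpn
    rw [← h4 (T (e n)), T.symm_apply_apply, ContinuousLinearMap.comp_apply, V_basis hJ hr,
      (hp n).2 hpn, ox_some]
  rcases hc with rfl | rfl
  · left
    filter_upwards [eventually_ge_atTop p] with n hpn
    rw [h5 n hpn]; linarith
  · right
    filter_upwards [eventually_ge_atTop p] with n hpn
    have : (T.trans (LinearIsometryEquiv.neg ℝ)) (e n) = - T (e n) := rfl
    rw [this, map_neg, h5 n hpn]; linarith

/-- the inverse of a positive isometry is positive -/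
theorem IsPosIso.symm (hrefl : Function.Surjective (NormedSpace.inclusionInDoubleDual ℝ X))
    (hn : ∀ i, ‖b i‖ = 1) (hJ : IsJamesification b.basis e) (h2 : NoTwo b)
    {T : E ≃ₗᵢ[ℝ] E} (hT : IsPosIso b e T) : IsPosIso b e T.symm := by
  obtain ⟨r, g, hr, hg, h⟩ := exists_norming hJ (T (xi e 0))
  rw [T.norm_map, norm_xi hn hJ] at h
  have hc : Tendsto (fun n => Sg b e (T (e n))) (hyperfilter ℕ) (𝓝 1) := by
    refine tendsto_const_nhds.congr' ?_
    have h3 : ∀ᶠ n in (hyperfilter ℕ : Filter ℕ), Sg b e (T (e n)) = 1 :=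
      Nat.hyperfilter_le_atTop hT
    exact h3.mono fun n hn => hn.symm
  obtain ⟨p, hp, h3⟩ := norming_T hrefl hn hJ h2 T Nat.hyperfilter_le_atTop hc hr hg h
  have h4 := comp_T_eq_Sg hn hJ h2 T (comp_V_norm hJ hr hg) h
  filter_upwards [eventually_ge_atTop p] with n hpn
  have h5 := h4 (T.symm (e n))
  rw [T.apply_symm_apply, ContinuousLinearMap.comp_apply, V_basis hJ hr, (hp n).2 hpn,
    ox_some] at h5
  rw [← h5]; linarith

/-- norming functionals of `T ξ_k` for a positive isometry -/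
theorem norming_T_pos (hrefl : Function.Surjective (NormedSpace.inclusionInDoubleDual ℝ X))
    (hn : ∀ i, ‖b i‖ = 1) (hJ : IsJamesification b.basis e) (h2 : NoTwo b)
    {T : E ≃ₗᵢ[ℝ] E} (hT : IsPosIso b e T) {k : ℕ} {r : ℕ → Option ℕ}
    (hr : IsCode r) {g : X →L[ℝ] ℝ} (hg : ‖g‖ ≤ 1)
    (h : g (V b.basis e r (T (xi e k))) = 1) :
    ∃ p, (∀ j, (r j = some p ↔ p ≤ j)) ∧ g (b p) = 1 := by
  have hc : Tendsto (fun n => Sg b e (T (e n))) (hyperfilter ℕ) (𝓝 1) := by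
    refine tendsto_const_nhds.congr' ?_
    have h3 : ∀ᶠ n in (hyperfilter ℕ : Filter ℕ), Sg b e (T (e n)) = 1 :=
      Nat.hyperfilter_le_atTop hT
    exact h3.mono fun n hn => hn.symm
  obtain ⟨p, hp, h3⟩ := norming_T hrefl hn hJ h2 T Nat.hyperfilter_le_atTop hc hr hg h
  exact ⟨p, hp, by linarith⟩

end Pool.Agent.Work.MP_8db9c5_an
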