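import Pool.Agent.Work.MP_8db9c5_an.Ops
import Pool.Agent.Work.MP_8db9c5_an.Bd.B01

/-!
# Jamesifications: compactness of the codes, attained norms, directional derivatives
-/

set_option linter.unusedSectionVars false

open Topology Filter Set

namespace Pool.Agent.Work.MP_8db9c5_an

theorem exists_lim_code (U : Ultrafilter ℕ) (R : ℕ → ℕ → Option ℕ) (hR : ∀ n, IsCode (R n)) :
    ∃ r, IsCode r ∧ ∀ j, ∀ᶠ n in (U : Filter ℕ), R n j = r j := by
  have h1 : ∀ j, ∃ o : Option ℕ, ∀ᶠ n in (U : Filter ℕ), R n j = o := by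
    intro j
    have hfin : (Set.range fun p : Option (Fin (j + 1)) => p.map (fun i => (i : ℕ))).Finite :=
      Set.finite_range _
    have hmem : (Set.range fun p : Option (Fin (j + 1)) => p.map (fun i => (i : ℕ))) ∈
        U.map (fun n => R n j) := by
      rw [Ultrafilter.mem_map]
      refine Filter.univ_mem' fun n => ?_
      change R n j ∈ Set.range _
      rcases h : R n j with _ | p
      · exact ⟨none, rfl⟩
      · exact ⟨some ⟨p, Nat.lt_succ_of_le (hR n j p h).1⟩, rfl⟩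
    obtain ⟨o, _, ho⟩ := Ultrafilter.eq_pure_of_finite_mem hfin hmem
    refine ⟨o, ?_⟩
    have : {o} ∈ U.map (fun n => R n j) := by
      rw [ho]; exact Filter.mem_pure.2 rfl
    exact this
  choose r hr using h1
  refine ⟨r, ?_, hr⟩
  intro j p hj
  have h2 : ∀ i, ∀ᶠ n in (U : Filter ℕ), R n j = some p ∧ R n i = r i := fun i =>
    ((hr j).mono fun n hn => by rw [hn, hj]).and (hr i)
  constructor
  · obtain ⟨n, hn, _⟩ := (h2 j).exists
    exact (hR n j p hn).1
  · intro i hi1 hi2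
    obtain ⟨n, hn, hn2⟩ := (h2 i).exists
    rw [← hn2]
    exact (hR n j p hn).2 i hi1 hi2

variable {X : Type*} [NormedAddCommGroup X] [NormedSpace ℝ X] [CompleteSpace X]
variable {E : Type*} [NormedAddCommGroup E] [NormedSpace ℝ E] {x : ℕ → X} {e : ℕ → E}

theorem tendsto_V (hJ : IsJamesification x e) (U : Ultrafilter ℕ) (R : ℕ → ℕ → Option ℕ)
    (hR : ∀ n, IsCode (R n)) {r : ℕ → Option ℕ} (hr : IsCode r)
    (h : ∀ j, ∀ᶠ n in (U : Filter ℕ), R n j = r j) (z : E) :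
    Tendsto (fun n => V x e (R n) z) U (𝓝 (V x e r z)) := by
  rw [Metric.tendsto_nhds]
  intro ε hε
  obtain ⟨a, ha⟩ := exists_approx hJ.dense z (ε := ε / 2) (by positivity)
  have h1 : ∀ᶠ n in (U : Filter ℕ), ∀ j ∈ a.support, R n j = r j :=
    (Filter.eventually_all_finset _).2 fun j _ => h j
  refine h1.mono fun n hn => ?_
  set y := a.sum fun j c => c • e j with hy
  have h2 : V x e (R n) y = V x e r y := by
    rw [hy, V_sum hJ (hR n), V_sum hJ hr]
    refine Finsupp.sum_congr fun j hj => ?_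
    rw [hn j hj]
  have h3 := norm_V_le hJ (hR n) (z - y)
  have h4 := norm_V_le hJ hr (z - y)
  rw [dist_eq_norm]
  have h5 : V x e (R n) z - V x e r z = V x e (R n) (z - y) - V x e r (z - y) := by
    rw [map_sub, map_sub, h2]; abel
  rw [h5]
  have := norm_sub_le (V x e (R n) (z - y)) (V x e r (z - y))
  linarith

theorem exists_attain (hJ : IsJamesification x e) (z : E) :
    ∃ r, IsCode r ∧ ‖V x e r z‖ = ‖z‖ := by
  have h1 : ∀ n : ℕ, ∃ r, IsCode r ∧ ‖z‖ - 1 / ((n : ℝ) + 1) < ‖V x e r z‖ := fun n => by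
    obtain ⟨r, h1, _, h2⟩ := exists_near_code hJ z (ε := 1 / ((n : ℝ) + 1)) (by positivity)
    exact ⟨r, h1, h2⟩
  choose R hR1 hR2 using h1
  obtain ⟨r, hr, h⟩ := exists_lim_code (hyperfilter ℕ) R hR1
  refine ⟨r, hr, le_antisymm (norm_V_le hJ hr z) ?_⟩
  have h2 := (tendsto_V hJ _ R hR1 hr h z).norm
  have h3 : Tendsto (fun n : ℕ => ‖z‖ - 1 / ((n : ℝ) + 1)) (hyperfilter ℕ) (𝓝 (‖z‖ - 0)) :=
    (tendsto_const_nhds.sub tendsto_one_div_add_atTop_nhds_zero_nat).mono_left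
      (Nat.hyperfilter_le_atTop)
  rw [sub_zero] at h3
  exact le_of_tendsto_of_tendsto' h3 h2 fun n => (hR2 n).le

/-- the norming functionals in `K` -/
theorem exists_norming (hJ : IsJamesification x e) (z : E) :
    ∃ (r : ℕ → Option ℕ) (g : X →L[ℝ] ℝ), IsCode r ∧ ‖g‖ ≤ 1 ∧ g (V x e r z) = ‖z‖ := by
  obtain ⟨r, hr, h⟩ := exists_attain hJ z
  obtain ⟨g, hg1, hg2⟩ := exists_dual_vector'' ℝ (V x e r z)
  exact ⟨r, g, hr, hg1, by rw [hg2]; simpa using h⟩

/-- **directional derivatives of the norm**: if `f` is any norming functional of `ξ` and `h` a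
vector then some norming functional `g ∘ V_r` of `ξ` satisfies `f h ≤ g (V_r h)` -/
theorem exists_danskin (hJ : IsJamesification x e) (ξ h : E) (f : E →L[ℝ] ℝ) (hf : ‖f‖ ≤ 1)
    (hfξ : f ξ = ‖ξ‖) :
    ∃ (r : ℕ → Option ℕ) (g : X →L[ℝ] ℝ), IsCode r ∧ ‖g‖ ≤ 1 ∧ g (V x e r ξ) = ‖ξ‖ ∧
      f h ≤ g (V x e r h) := by
  have h1 : ∀ n : ℕ, ∃ (r : ℕ → Option ℕ) (g : X →L[ℝ] ℝ), IsCode r ∧ ‖g‖ ≤ 1 ∧
      g (V x e r (ξ + (1 / ((n : ℝ) + 1)) • h)) = ‖ξ + (1 / ((n : ℝ) + 1)) • h‖ := fun n =>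
    exists_norming hJ _
  choose R g hR hg hRg using h1
  obtain ⟨r, hr, hrR⟩ := exists_lim_code (hyperfilter ℕ) R hR
  obtain ⟨G, hG1, hG2⟩ := exists_weakStar_lim (hyperfilter ℕ) g 1 hg
  have hε : Tendsto (fun n : ℕ => 1 / ((n : ℝ) + 1)) (hyperfilter ℕ) (𝓝 0) :=
    tendsto_one_div_add_atTop_nhds_zero_nat.mono_left Nat.hyperfilter_le_atTop
  -- convergence of the functionals
  have hconv : ∀ z, Tendsto (fun n => g n (V x e (R n) z)) (hyperfilter ℕ)
      (𝓝 (G (V x e r z))) := by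
    intro z
    have h2 := hG2 (V x e r z)
    have h3 : Tendsto (fun n => g n (V x e (R n) z - V x e r z)) (hyperfilter ℕ) (𝓝 0) := by
      have h4 := (tendsto_V hJ _ R hR hr hrR z).sub_const (V x e r z)
      rw [sub_self] at h4
      refine squeeze_zero_norm (fun n => ?_) (tendsto_norm_zero.comp h4)
      have := (g n).le_of_opNorm_le (hg n) (V x e (R n) z - V x e r z)
      rwa [one_mul] at this
    have h5 := h2.add h3
    rw [add_zero] at h5
    refine h5.congr fun n => ?_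
    rw [← map_add]
    congr 1
    abel
  have key : ∀ n, f h ≤ g n (V x e (R n) h) := by
    intro n
    have hpos : (0 : ℝ) < 1 / ((n : ℝ) + 1) := by positivity
    have h2 : f (ξ + (1 / ((n : ℝ) + 1)) • h) ≤ ‖ξ + (1 / ((n : ℝ) + 1)) • h‖ := by
      refine (le_abs_self _).trans ?_
      rw [← Real.norm_eq_abs]
      have := f.le_of_opNorm_le hf (ξ + (1 / ((n : ℝ) + 1)) • h)
      rwa [one_mul] at this
    rw [← hRg n] at h2
    simp only [map_add, map_smul, smul_eq_mul] at h2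
    have h3 : g n (V x e (R n) ξ) ≤ ‖ξ‖ := by
      refine (le_abs_self _).trans ?_
      rw [← Real.norm_eq_abs]
      have := (g n).le_of_opNorm_le (hg n) (V x e (R n) ξ)
      rw [one_mul] at this
      exact this.trans (norm_V_le hJ (hR n) ξ)
    rw [hfξ] at h2
    have h4 : (1 / ((n : ℝ) + 1)) * f h ≤ (1 / ((n : ℝ) + 1)) * g n (V x e (R n) h) := by
      linarith
    exact le_of_mul_le_mul_left h4 hpos
  refine ⟨r, G, hr, hG1, ?_, ?_⟩
  · refine tendsto_nhds_unique (hconv ξ) ?_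
    -- squeeze
    have h2 : Tendsto (fun n : ℕ => ‖ξ + (1 / ((n : ℝ) + 1)) • h‖ -
        (1 / ((n : ℝ) + 1)) * g n (V x e (R n) h)) (hyperfilter ℕ) (𝓝 (‖ξ + (0 : ℝ) • h‖ -
        0 * G (V x e r h))) := by
      refine Tendsto.sub ?_ ?_
      · exact ((hε.smul_const h).const_add ξ).norm
      · exact hε.mul (hconv h)
    rw [zero_smul, add_zero, zero_mul, sub_zero] at h2
    refine h2.congr fun n => ?_
    rw [← hRg n]
    simp only [map_add, map_smul, smul_eq_mul]
    ring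
  · exact ge_of_tendsto' (hconv h) key

end Pool.Agent.Work.MP_8db9c5_an
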