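import Pool.Agent.Work.MP_8db9c5_an.Code

/-!
# Jamesifications: the contractions `V_r : J(x_i) → X`
-/

set_option linter.unusedSectionVars false

open Topology Filter Set

namespace Pool.Agent.Work.MP_8db9c5_an

section General

variable {E : Type*} [NormedAddCommGroup E] [NormedSpace ℝ E]
variable {Y : Type*} [NormedAddCommGroup Y] [NormedSpace ℝ Y]

theorem denseRange_lc {e : ℕ → E} (he : Dense (Submodule.span ℝ (Set.range e) : Set E)) :
    DenseRange (Finsupp.linearCombination ℝ e) := by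
  have h := Finsupp.range_linearCombination ℝ (v := e)
  have h2 : Set.range (Finsupp.linearCombination ℝ e) =
      (Submodule.span ℝ (Set.range e) : Set E) := by
    rw [← h]; rfl
  unfold DenseRange
  rw [h2]
  exact he

theorem exists_clm [CompleteSpace Y] {e : ℕ → E}
    (he : Dense (Submodule.span ℝ (Set.range e) : Set E))
    (y : ℕ → Y) (C : ℝ)
    (h : ∀ a : ℕ →₀ ℝ, ‖a.sum fun j c => c • y j‖ ≤ C * ‖a.sum fun j c => c • e j‖) :
    ∃ Φ : E →L[ℝ] Y, (∀ j, Φ (e j) = y j) ∧ ∀ z, ‖Φ z‖ ≤ C * ‖z‖ := by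
  have hd := denseRange_lc he
  refine ⟨(Finsupp.linearCombination ℝ y).extendOfNorm (Finsupp.linearCombination ℝ e), ?_, ?_⟩
  · intro j
    have := LinearMap.extendOfNorm_eq (f := Finsupp.linearCombination ℝ y) hd ⟨C, h⟩
      (Finsupp.single j 1)
    simpa using this
  · exact LinearMap.norm_extendOfNorm_apply_le hd C h

theorem clm_ext {e : ℕ → E} (he : Dense (Submodule.span ℝ (Set.range e) : Set E))
    {f g : E →L[ℝ] Y} (h : ∀ j, f (e j) = g (e j)) : f = g := by
  refine ContinuousLinearMap.ext_on he ?_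
  rintro _ ⟨j, rfl⟩
  exact h j

theorem exists_approx {e : ℕ → E} (he : Dense (Submodule.span ℝ (Set.range e) : Set E)) (z : E)
    {ε : ℝ} (hε : 0 < ε) : ∃ a : ℕ →₀ ℝ, ‖z - a.sum fun j c => c • e j‖ < ε := by
  obtain ⟨a, ha⟩ := (denseRange_lc he).exists_dist_lt z hε
  refine ⟨a, ?_⟩
  rw [dist_eq_norm] at ha
  exact ha

end General

variable {X : Type*} [NormedAddCommGroup X] [NormedSpace ℝ X]
variable {E : Type*} [NormedAddCommGroup E] [NormedSpace ℝ E]

theorem sum_eq_range {Y : Type*} [AddCommGroup Y] [Module ℝ Y] (a : ℕ →₀ ℝ) (y : ℕ → Y) :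
    ∃ n₀, ∀ n, n₀ ≤ n → (a.sum fun j c => c • y j) = ∑ j ∈ Finset.range n, a j • y j := by
  refine ⟨a.support.sup id + 1, fun n hn => ?_⟩
  rw [Finsupp.sum]
  refine Finset.sum_subset ?_ ?_
  · intro j hj
    have : j ≤ a.support.sup id := Finset.le_sup (f := id) hj
    exact Finset.mem_range.2 (by omega)
  · intro j _ hj
    rw [Finsupp.notMem_support_iff.1 hj, zero_smul]

theorem code_le {x : ℕ → X} {e : ℕ → E} (hJ : IsJamesification x e) {r : ℕ → Option ℕ}
    (hr : IsCode r) (a : ℕ →₀ ℝ) :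
    ‖a.sum fun j c => c • ox x (r j)‖ ≤ ‖a.sum fun j c => c • e j‖ := by
  obtain ⟨n, hn⟩ := sum_eq_range a (fun j => ox x (r j))
  rw [hn n le_rfl]
  obtain ⟨k, p, q, h1, _, _, h4⟩ := exists_chain x hr n
  rw [← h4 a]
  rcases Nat.eq_zero_or_pos k with hk | hk
  · subst hk
    simp [jvec]
  · exact (hJ.norm_eq a).1 ⟨k, p, q, hk, h1, rfl⟩

/-- the operator `V_r` -/
noncomputable def V [CompleteSpace X] (x : ℕ → X) (e : ℕ → E) (r : ℕ → Option ℕ) : E →L[ℝ] X :=
  (Finsupp.linearCombination ℝ (fun j => ox x (r j))).extendOfNorm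
    (Finsupp.linearCombination ℝ e)

variable [CompleteSpace X] {x : ℕ → X} {e : ℕ → E}

theorem V_basis (hJ : IsJamesification x e) {r : ℕ → Option ℕ} (hr : IsCode r) (j : ℕ) :
    V x e r (e j) = ox x (r j) := by
  have := LinearMap.extendOfNorm_eq (f := Finsupp.linearCombination ℝ (fun j => ox x (r j)))
    (denseRange_lc hJ.dense) ⟨1, fun a => by rw [one_mul]; exact code_le hJ hr a⟩
    (Finsupp.single j 1)
  unfold V
  simpa using this

theorem norm_V_le (hJ : IsJamesification x e) {r : ℕ → Option ℕ} (hr : IsCode r) (z : E) :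
    ‖V x e r z‖ ≤ ‖z‖ := by
  have := LinearMap.norm_extendOfNorm_apply_le
    (f := Finsupp.linearCombination ℝ (fun j => ox x (r j)))
    (denseRange_lc hJ.dense) 1 (fun a => by rw [one_mul]; exact code_le hJ hr a) z
  rwa [one_mul] at this

theorem V_sum (hJ : IsJamesification x e) {r : ℕ → Option ℕ} (hr : IsCode r) (a : ℕ →₀ ℝ) :
    V x e r (a.sum fun j c => c • e j) = a.sum fun j c => c • ox x (r j) := by
  rw [Finsupp.sum, map_sum]
  refine Finset.sum_congr rfl fun j _ => ?_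
  rw [map_smul, V_basis hJ hr]

/-- a code which does the job up to `ε`; all its intervals are finite -/
theorem exists_near_code (hJ : IsJamesification x e) (z : E) {ε : ℝ} (hε : 0 < ε) :
    ∃ r, IsCode r ∧ (∃ N, ∀ j, N ≤ j → r j = none) ∧ ‖z‖ - ε < ‖V x e r z‖ := by
  obtain ⟨a, ha⟩ := exists_approx hJ.dense z (ε := ε / 4) (by positivity)
  set y := a.sum fun j c => c • e j with hy
  have h1 : ‖y‖ - ε / 4 < ‖y‖ := by linarith
  obtain ⟨c, ⟨k, p, q, hk, hc, rfl⟩, hlt⟩ := (lt_isLUB_iff (hJ.norm_eq a)).1 h1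
  obtain ⟨r, hr1, hr2, hr3⟩ := exists_code x k p q hc
  refine ⟨r, hr1, ⟨(Finset.range k).sup q + 1, fun j hj => hr2 j fun i hi => ?_⟩, ?_⟩
  · have := Finset.le_sup (f := q) (Finset.mem_range.2 hi)
    omega
  · rw [← hr3 a, ← V_sum hJ hr1] at hlt
    have h2 : ‖V x e r z‖ ≥ ‖V x e r y‖ - ‖V x e r (z - y)‖ := by
      rw [map_sub]
      have := norm_sub_norm_le (V x e r y) (V x e r z)
      rw [norm_sub_rev] at this
      linarith
    have h3 := norm_V_le hJ hr1 (z - y)
    have h4 : ‖y‖ ≥ ‖z‖ - ‖z - y‖ := by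
      have := norm_sub_norm_le z y
      linarith
    rw [hy] at h4 h3
    linarith

end Pool.Agent.Work.MP_8db9c5_an
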