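import Pool.Agent.Work.MP_8db9c5_an.Tcoord

/-!
# Rotund basis vectors: the isometry group is trivial
-/

set_option linter.unusedSectionVars false

open Topology Filter Set

namespace Pool.Agent.Work.MP_8db9c5_an

variable {X : Type*} [NormedAddCommGroup X] [NormedSpace ℝ X] [CompleteSpace X]
variable {E : Type*} [NormedAddCommGroup E] [NormedSpace ℝ E] [CompleteSpace E]
variable {b : UnconditionalSchauderBasis ℕ ℝ X} {e : ℕ → E}

/-- every `x_p` is a point of rotundity of the unit ball of `span (x_0, …, x_p)` for the norm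
`v ↦ sup_A ‖P_A v‖` -/
def RotundAt (b : UnconditionalSchauderBasis ℕ ℝ X) : Prop :=
  ∀ (p : ℕ) (v : X), v ∈ Submodule.span ℝ (b.basis '' Set.Iic p) →
    (∀ A : Finset ℕ, ‖b.proj A v‖ ≤ 1) → (∃ A : Finset ℕ, ‖b.proj A (v + b p)‖ = 2) → v = b p

theorem proj_span (b : UnconditionalSchauderBasis ℕ ℝ X) {p : ℕ} {v : X}
    (hv : v ∈ Submodule.span ℝ (b.basis '' Set.Iic p)) :
    b.proj (Finset.range (p + 1)) v = v := by
  classical
  refine Submodule.span_induction
    (p := fun v _ => b.proj (Finset.range (p + 1)) v = v) ?_ ?_ ?_ ?_ hv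
  · rintro _ ⟨i, hi, rfl⟩
    rw [GeneralSchauderBasis.proj_apply_basis_mem, if_pos]
    rw [Finset.mem_range]
    have : i ≤ p := hi
    omega
  · rw [map_zero]
  · intro x y _ _ hx hy
    rw [map_add, hx, hy]
  · intro c x _ hx
    rw [map_smul, hx]

theorem noTwo_of_rotund (hn : ∀ i, ‖b i‖ = 1) (hR : RotundAt b) : NoTwo b := by
  classical
  have key : ∀ (g : X →L[ℝ] ℝ) (i j : ℕ), ‖g‖ ≤ 1 → g (b i) = 1 → g (b j) = 1 → ¬ i < j := by
    intro g i j hg hi hj hij
    have hspan : b i ∈ Submodule.span ℝ (b.basis '' Set.Iic j) :=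
      Submodule.subset_span ⟨i, hij.le, rfl⟩
    have hspanj : b j ∈ Submodule.span ℝ (b.basis '' Set.Iic j) :=
      Submodule.subset_span ⟨j, Set.mem_Iic.2 le_rfl, rfl⟩
    have h1 : b i = b j := by
      refine hR j (b i) hspan (fun A => ?_) ⟨Finset.range (j + 1), ?_⟩
      · rw [GeneralSchauderBasis.proj_apply_basis_mem]
        split_ifs
        · rw [hn]
        · rw [norm_zero]; exact zero_le_one
      · rw [proj_span b (add_mem hspan hspanj)]
        refine le_antisymm ?_ ?_
        · refine (norm_add_le _ _).trans ?_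
          rw [hn, hn]; norm_num
        · have h2 : ‖g (b i + b j)‖ ≤ ‖b i + b j‖ := by
            have := g.le_of_opNorm_le hg (b i + b j)
            rwa [one_mul] at this
          rw [map_add, hi, hj] at h2
          refine le_trans (le_of_eq ?_) h2
          rw [Real.norm_eq_abs]; norm_num
    have h2 := congrArg (b.coord i) h1
    rw [coord_basis, coord_basis, if_pos rfl, if_neg (by omega)] at h2
    exact one_ne_zero h2
  intro g i j hg hi hj
  rcases lt_trichotomy i j with h | h | h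
  · exact absurd h (key g i j hg hi hj)
  · exact h
  · exact absurd h (key g j i hg hj hi)

/-- the norming functionals of `ξ_k` -/
def QQ (b : UnconditionalSchauderBasis ℕ ℝ X) (e : ℕ → E) (k : ℕ) : Set (E →L[ℝ] ℝ) :=
  {f | ∃ (r : ℕ → Option ℕ) (g : X →L[ℝ] ℝ) (p : ℕ), IsCode r ∧ ‖g‖ ≤ 1 ∧ p ≤ k ∧
    (∀ j, (r j = some p ↔ p ≤ j)) ∧ g (b p) = 1 ∧ f = g.comp (V b.basis e r)}

theorem QQ_norm (hJ : IsJamesification b.basis e) {k : ℕ} {f : E →L[ℝ] ℝ}
    (hf : f ∈ QQ b e k) : ‖f‖ ≤ 1 := by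
  obtain ⟨r, g, p, hr, hg, _, _, _, rfl⟩ := hf
  exact comp_V_norm hJ hr hg

theorem QQ_le (hJ : IsJamesification b.basis e) {k : ℕ} {f : E →L[ℝ] ℝ}
    (hf : f ∈ QQ b e k) (z : E) : |f z| ≤ ‖z‖ := by
  have := f.le_of_opNorm_le (QQ_norm hJ hf) z
  rwa [one_mul, Real.norm_eq_abs] at this

theorem QQ_xi (hn : ∀ i, ‖b i‖ = 1) (hJ : IsJamesification b.basis e) {k : ℕ}
    {f : E →L[ℝ] ℝ} (hf : f ∈ QQ b e k) : f (xi e k) = 1 := by
  obtain ⟨r, g, p, hr, hg, hpk, hp, hgp, rfl⟩ := hf
  exact V_xi_of_inf hn hJ hpk hr hp hgp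

theorem QQ_basis (hJ : IsJamesification b.basis e) {k : ℕ} {f : E →L[ℝ] ℝ}
    (hf : f ∈ QQ b e k) {n : ℕ} (hkn : k ≤ n) : f (e n) = 1 := by
  obtain ⟨r, g, p, hr, hg, hpk, hp, hgp, rfl⟩ := hf
  rw [ContinuousLinearMap.comp_apply, V_basis hJ hr, (hp n).2 (hpk.trans hkn), ox_some, hgp]

theorem QQ_mono {k k' : ℕ} (h : k ≤ k') : QQ b e k ⊆ QQ b e k' := by
  rintro f ⟨r, g, p, hr, hg, hpk, h2⟩
  exact ⟨r, g, p, hr, hg, hpk.trans h, h2⟩

theorem neg_t_mem_QQ (hn : ∀ i, ‖b i‖ = 1) (hJ : IsJamesification b.basis e) {p k : ℕ}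
    (hpk : p ≤ k) : - t b e p ∈ QQ b e k := by
  obtain ⟨g, hg, hgp⟩ := exists_dual_basis hn p (b := b)
  refine ⟨cInf p, g, p, isCode_cInf p, hg, hpk, inf_cInf p, hgp, ?_⟩
  ext z
  rw [ContinuousLinearMap.comp_apply, V_cInf hJ, map_smul, hgp, smul_eq_mul, mul_one,
    _root_.neg_apply, t_apply]
  ring

theorem danskin_xi (hn : ∀ i, ‖b i‖ = 1) (hJ : IsJamesification b.basis e) (h2 : NoTwo b)
    {k : ℕ} {f : E →L[ℝ] ℝ} (hf : ‖f‖ ≤ 1) (hfk : f (xi e k) = 1) (h : E) :
    ∃ f' ∈ QQ b e k, f h ≤ f' h := by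
  obtain ⟨r, g, hr, hg, hξ, hle⟩ := exists_danskin hJ (xi e k) h f hf (by
    rw [norm_xi hn hJ]; exact hfk)
  rw [norm_xi hn hJ] at hξ
  obtain ⟨p, hpk, hp, hgp⟩ := norming_xi hn hJ h2 hr hg hξ
  exact ⟨g.comp (V b.basis e r), ⟨r, g, p, hr, hg, hpk, hp, hgp, rfl⟩, hle⟩

/-- elements of `QQ k` vanish if `t_0 = ⋯ = t_k = 0` -/
theorem QQ_zero (hJ : IsJamesification b.basis e) {k : ℕ} {f : E →L[ℝ] ℝ}
    (hf : f ∈ QQ b e k) {z : E} (hz : ∀ i, i ≤ k → t b e i z = 0) : f z = 0 := by
  obtain ⟨r, g, p, hr, hg, hpk, hp, hgp, rfl⟩ := hf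
  rw [ContinuousLinearMap.comp_apply, inf_formula hJ hr hp, hz p hpk, mul_zero, sub_zero]
  refine Finset.sum_eq_zero fun p' hp' => ?_
  obtain ⟨q, hq1, hq2, h⟩ := inf_cf hJ hr hp (Finset.mem_range.1 hp')
  rw [h, hz q (hq2.trans hpk), hz p' ((Finset.mem_range.1 hp').le.trans hpk), sub_zero, mul_zero]

/-- the directional derivative of the norm at `ξ_k` -/
noncomputable def AA (b : UnconditionalSchauderBasis ℕ ℝ X) (e : ℕ → E) (k : ℕ) (z : E) : ℝ :=
  sSup ((fun f : E →L[ℝ] ℝ => f z) '' QQ b e k)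

theorem AA_bdd (hJ : IsJamesification b.basis e) (k : ℕ) (z : E) :
    BddAbove ((fun f : E →L[ℝ] ℝ => f z) '' QQ b e k) := by
  refine ⟨‖z‖, ?_⟩
  rintro _ ⟨f, hf, rfl⟩
  exact (le_abs_self _).trans (QQ_le hJ hf z)

theorem AA_nonempty (hn : ∀ i, ‖b i‖ = 1) (hJ : IsJamesification b.basis e) (k : ℕ) (z : E) :
    ((fun f : E →L[ℝ] ℝ => f z) '' QQ b e k).Nonempty :=
  ⟨_, _, neg_t_mem_QQ hn hJ (Nat.zero_le k), rfl⟩

theorem le_AA (hJ : IsJamesification b.basis e) {k : ℕ} {f : E →L[ℝ] ℝ} (hf : f ∈ QQ b e k)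
    (z : E) : f z ≤ AA b e k z := le_csSup (AA_bdd hJ k z) ⟨f, hf, rfl⟩

theorem AA_le (hn : ∀ i, ‖b i‖ = 1) (hJ : IsJamesification b.basis e) {k : ℕ} {z : E} {c : ℝ}
    (h : ∀ f ∈ QQ b e k, f z ≤ c) : AA b e k z ≤ c := by
  refine csSup_le (AA_nonempty hn hJ k z) ?_
  rintro _ ⟨f, hf, rfl⟩
  exact h f hf

theorem AA_mono (hn : ∀ i, ‖b i‖ = 1) (hJ : IsJamesification b.basis e) {k k' : ℕ}
    (h : k ≤ k') (z : E) : AA b e k z ≤ AA b e k' z :=
  AA_le hn hJ fun _ hf => le_AA hJ (QQ_mono h hf) z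

theorem AA_inj (hn : ∀ i, ‖b i‖ = 1) (hJ : IsJamesification b.basis e) {k k' : ℕ}
    (h : k < k') : AA b e k (- e k) < AA b e k' (- e k) := by
  have h1 : AA b e k (- e k) ≤ -1 := AA_le hn hJ fun f hf => by
    rw [map_neg, QQ_basis hJ hf le_rfl]
  have h2 : 0 ≤ AA b e k' (- e k) := by
    refine le_trans (le_of_eq ?_) (le_AA hJ (neg_t_mem_QQ hn hJ (le_refl k')) _)
    rw [_root_.neg_apply, map_neg, t_basis hJ, if_pos h]
    norm_num
  linarith

/-- the rotundity at work: a norming functional at `T ξ_k` -/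
theorem rotund_norming (hrefl : Function.Surjective (NormedSpace.inclusionInDoubleDual ℝ X))
    (hn : ∀ i, ‖b i‖ = 1) (hJ : IsJamesification b.basis e) (hR : RotundAt b)
    {T : E ≃ₗᵢ[ℝ] E} (hT : IsPosIso b e T) {k : ℕ} {r : ℕ → Option ℕ}
    (hr : IsCode r) {g : X →L[ℝ] ℝ} (hg : ‖g‖ ≤ 1)
    (h : g (V b.basis e r (T (xi e k))) = 1) :
    ∃ p, (∀ j, (r j = some p ↔ p ≤ j)) ∧ g (b p) = 1 ∧
      Sg b e (T (xi e k)) = 1 ∧ ∀ i, i ≤ p → S b e i (T (xi e k)) = 0 := by
  classical
  obtain ⟨p, hp, hgp⟩ := norming_T_pos hrefl hn hJ (noTwo_of_rotund hn hR) hT hr hg h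
  set y := T (xi e k) with hy
  have hynorm : ‖y‖ = 1 := by rw [hy, T.norm_map, norm_xi hn hJ]
  have hspanp : b p ∈ Submodule.span ℝ (b.basis '' Set.Iic p) :=
    Submodule.subset_span ⟨p, Set.mem_Iic.2 le_rfl, rfl⟩
  -- `V_r y = x_p`
  have hspan : V b.basis e r y ∈ Submodule.span ℝ (b.basis '' Set.Iic p) := by
    have h1 : V b.basis e r y = b.proj (Finset.range (p + 1)) (V b.basis e r y) := by
      have h2 := Q_V_eq_zero hJ hr (n := p + 1) (fun j p' hjp => by
        by_contra hcon
        have h2 := (hr j p' hjp).1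
        have h3 := (hp j).2 (by omega)
        rw [hjp] at h3
        simp only [Option.some.injEq] at h3
        omega) y
      rw [Q_apply, sub_eq_zero] at h2
      exact h2
    rw [h1, GeneralSchauderBasis.proj_apply]
    refine Submodule.sum_mem _ fun i hi => Submodule.smul_mem _ _ (Submodule.subset_span ⟨i, ?_,
      rfl⟩)
    have := Finset.mem_range.1 hi
    change i ≤ p
    omega
  have hV : V b.basis e r y = b p := by
    refine hR p _ hspan (fun A => ?_) ⟨Finset.range (p + 1), ?_⟩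
    · rw [← hynorm]; exact norm_proj_V_le hJ hr A y
    · rw [proj_span b (add_mem hspan hspanp)]
      refine le_antisymm ?_ ?_
      · refine (norm_add_le _ _).trans ?_
        have := norm_V_le hJ hr y
        rw [hn, ← one_add_one_eq_two]
        linarith
      · have h2 : ‖g (V b.basis e r y + b p)‖ ≤ ‖V b.basis e r y + b p‖ := by
          have := g.le_of_opNorm_le hg (V b.basis e r y + b p)
          rwa [one_mul] at this
        rw [map_add, h, hgp] at h2
        refine le_trans (le_of_eq ?_) h2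
        rw [Real.norm_eq_abs]; norm_num
  have hSgp : Sg b e y - S b e p y = 1 := by
    rw [← coord_V_inf hJ hr hp y, hV, coord_basis, if_pos rfl]
  -- no variation before `p`
  have hconst : ∀ i, i < p → S b e p y - S b e i y = 0 := by
    intro i hip
    set w := V b.basis e (cTwo i p p) y with hw
    have hw2 : w = (S b e p y - S b e i y) • b i + b p := by
      rw [hw, V_cTwo hJ hip.le le_rfl, hSgp, one_smul]
    have hspanw : w ∈ Submodule.span ℝ (b.basis '' Set.Iic p) := by
      rw [hw2]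
      exact add_mem (Submodule.smul_mem _ _ (Submodule.subset_span ⟨i, hip.le, rfl⟩)) hspanp
    have h3 : w = b p := by
      refine hR p w hspanw (fun A => ?_) ⟨{p}, ?_⟩
      · rw [← hynorm]; exact norm_proj_V_le hJ (isCode_cTwo le_rfl) A y
      · have h4 : b.proj {p} (w + b p) = (2 : ℝ) • b p := by
          rw [hw2, map_add, map_add, map_smul, GeneralSchauderBasis.proj_apply_basis_mem,
            GeneralSchauderBasis.proj_apply_basis_mem, if_neg (by
              rw [Finset.mem_singleton]; omega), if_pos (Finset.mem_singleton_self p),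
            smul_zero, zero_add, two_smul]
        rw [h4, norm_smul, hn]
        norm_num
    rw [hw2] at h3
    have h5 := congrArg (b.coord i) h3
    rw [map_add, map_smul, coord_basis, coord_basis, if_pos rfl, if_neg (by omega), add_zero,
      smul_eq_mul, mul_one] at h5
    exact h5
  have hS0 := S_zero hJ (b := b) y
  have hSp : S b e p y = 0 := by
    rcases Nat.eq_zero_or_pos p with h1 | h1
    · rw [h1]; exact hS0
    · have := hconst 0 h1
      rw [hS0] at this
      linarith
  refine ⟨p, hp, hgp, by linarith, fun i hi => ?_⟩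
  rcases hi.lt_or_eq with h1 | h1
  · have := hconst i h1
    rw [hSp] at this
    linarith
  · rw [h1]; exact hSp

/-- `T` maps the directional derivative at `ξ_k` to that at some `ξ_κ` -/
theorem exists_kappa (hrefl : Function.Surjective (NormedSpace.inclusionInDoubleDual ℝ X))
    (hn : ∀ i, ‖b i‖ = 1) (hJ : IsJamesification b.basis e) (hR : RotundAt b)
    {T : E ≃ₗᵢ[ℝ] E} (hT : IsPosIso b e T) (k : ℕ) :
    ∃ κ, ∀ z, AA b e κ (T z) = AA b e k z := by
  classical
  have hno := noTwo_of_rotund hn hR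
  set y := T (xi e k) with hy
  have hynorm : ‖y‖ = 1 := by rw [hy, T.norm_map, norm_xi hn hJ]
  -- `σ y = 1`
  obtain ⟨r0, g0, hr0, hg0, h0⟩ := exists_norming hJ y
  rw [hynorm] at h0
  obtain ⟨p0, hp0, hgp0, hSg, _⟩ := rotund_norming hrefl hn hJ hR hT hr0 hg0 h0
  have hex : ∃ n, S b e n y ≠ 0 := by
    by_contra hcon
    push Not at hcon
    have h1 := t_tendsto hn hJ (b := b) y
    have h2 : ∀ n, t b e n y = -1 := fun n => by
      rw [t_apply, hcon n, hSg]; norm_num
    simp only [h2] at h1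
    have := tendsto_nhds_unique tendsto_const_nhds h1
    norm_num at this
  obtain ⟨κ, hκ1, hκ2⟩ : ∃ κ, (∀ i, i ≤ κ → S b e i y = 0) ∧ S b e (κ + 1) y ≠ 0 := by
    have h1 := Nat.find_spec hex
    have h2 : Nat.find hex ≠ 0 := by
      intro h3
      rw [h3] at h1
      exact h1 (S_zero hJ y)
    refine ⟨Nat.find hex - 1, fun i hi => ?_, ?_⟩
    · by_contra hcon
      exact Nat.find_min hex (by omega) hcon
    · rw [Nat.sub_add_cancel (by omega)]; exact h1
  refine ⟨κ, fun z => ?_⟩
  -- `QQ κ` is the set of norming functionals of `y`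
  have hQ1 : ∀ f ∈ QQ b e κ, f y = 1 := by
    rintro f ⟨r, g, p, hr, hg, hpκ, hp, hgp, rfl⟩
    rw [ContinuousLinearMap.comp_apply, inf_formula hJ hr hp, hgp, t_apply, hκ1 p hpκ]
    have h1 : ∑ p' ∈ Finset.range p, g (b p') * cf b e r p' y = 0 := by
      refine Finset.sum_eq_zero fun p' hp' => ?_
      obtain ⟨q, hq1, hq2, h⟩ := inf_cf hJ hr hp (Finset.mem_range.1 hp')
      rw [h, t_apply, t_apply, hκ1 q (hq2.trans hpκ),
        hκ1 p' ((Finset.mem_range.1 hp').le.trans hpκ), sub_self, mul_zero]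
    rw [h1]
    change 0 - 1 * (0 - Sg b e y) = 1
    rw [hSg]; norm_num
  refine le_antisymm ?_ ?_
  · refine AA_le hn hJ fun f hf => ?_
    have hnorm : ‖f.comp (T : E →L[ℝ] E)‖ ≤ 1 :=
      ContinuousLinearMap.opNorm_le_bound _ zero_le_one fun z => by
        rw [one_mul]
        have := QQ_le hJ hf (T z)
        rw [T.norm_map] at this
        exact this
    obtain ⟨f', hf', hle⟩ := danskin_xi hn hJ hno (k := k) hnorm (hQ1 f hf) z
    exact le_trans hle (le_AA hJ hf' z)
  · refine AA_le hn hJ fun f hf => ?_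
    have hnorm : ‖f.comp (T.symm : E →L[ℝ] E)‖ ≤ 1 :=
      ContinuousLinearMap.opNorm_le_bound _ zero_le_one fun z => by
        rw [one_mul]
        have := QQ_le hJ hf (T.symm z)
        rw [T.symm.norm_map] at this
        exact this
    obtain ⟨r, g, hr, hg, hξ, hle⟩ := exists_danskin hJ y (T z)
      (f.comp (T.symm : E →L[ℝ] E)) hnorm (by
        rw [hynorm, hy]
        change f (T.symm (T (xi e k))) = 1
        rw [T.symm_apply_apply]
        exact QQ_xi hn hJ hf)
    rw [hynorm] at hξ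
    obtain ⟨p, hp, hgp, _, hSp⟩ := rotund_norming hrefl hn hJ hR hT hr hg hξ
    have hpκ : p ≤ κ := by
      by_contra hcon
      exact hκ2 (hSp (κ + 1) (by omega))
    have h1 : f z = (f.comp (T.symm : E →L[ℝ] E)) (T z) := by
      change f z = f (T.symm (T z))
      rw [T.symm_apply_apply]
    rw [h1]
    exact hle.trans (le_AA hJ (f := g.comp (V b.basis e r))
      ⟨r, g, p, hr, hg, hpκ, hp, hgp, rfl⟩ (T z))

theorem AA_T (hrefl : Function.Surjective (NormedSpace.inclusionInDoubleDual ℝ X))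
    (hn : ∀ i, ‖b i‖ = 1) (hJ : IsJamesification b.basis e) (hR : RotundAt b)
    {T : E ≃ₗᵢ[ℝ] E} (hT : IsPosIso b e T) (k : ℕ) (z : E) :
    AA b e k (T z) = AA b e k z := by
  have hno := noTwo_of_rotund hn hR
  have hT' := IsPosIso.symm hrefl hn hJ hno hT
  choose κ hκ using exists_kappa hrefl hn hJ hR hT
  choose κ' hκ' using exists_kappa hrefl hn hJ hR hT'
  have hinj : ∀ m m', (∀ z, AA b e m z = AA b e m' z) → m = m' := by
    intro m m' h
    rcases lt_trichotomy m m' with h1 | h1 | h1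
    · have := AA_inj hn hJ h1 (b := b) (e := e)
      rw [h] at this
      exact absurd this (lt_irrefl _)
    · exact h1
    · have := AA_inj hn hJ h1 (b := b) (e := e)
      rw [h] at this
      exact absurd this (lt_irrefl _)
  have hmono : ∀ (T : E ≃ₗᵢ[ℝ] E) (κ : ℕ → ℕ), (∀ k z, AA b e (κ k) (T z) = AA b e k z) →
      StrictMono κ := by
    intro T κ hκ k k' hkk
    by_contra hcon
    have h1 : k' = k := hinj _ _ fun z => le_antisymm (by
      rw [← hκ k' z, ← hκ k z]
      exact AA_mono hn hJ (by omega) _) (AA_mono hn hJ hkk.le z)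
    omega
  have h1 : ∀ k, κ' (κ k) = k := fun k => hinj _ _ fun z => by
    rw [← hκ k z, ← hκ' (κ k) (T z), T.symm_apply_apply]
  have h2 : κ k ≤ κ' (κ k) := (hmono T.symm κ' hκ').id_le (κ k)
  have h3 : k ≤ κ k := (hmono T κ hκ).id_le k
  have h4 : κ k = k := by rw [h1] at h2; omega
  have := hκ k z
  rwa [h4] at this

/-- `AA k` on the vectors with `t_i = 0` for `i < k`, `k ≥ 1` -/
theorem AA_formula (hn : ∀ i, ‖b i‖ = 1) (hJ : IsJamesification b.basis e) {k : ℕ}
    (hk : 1 ≤ k) {z : E} (hz : ∀ i, i < k → t b e i z = 0) :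
    AA b e k z = max (- t b e k z) 0 * AA b e k (- dl e k) := by
  obtain ⟨m, rfl⟩ : ∃ m, k = m + 1 := ⟨k - 1, by omega⟩
  set τ := t b e (m + 1) z with hτ
  have hval : ∀ f ∈ QQ b e (m + 1), f z = τ * f (dl e (m + 1)) := by
    intro f hf
    have h1 : f (z - τ • dl e (m + 1)) = 0 := QQ_zero hJ hf fun i hi => by
      rw [map_sub, map_smul, t_dl hJ, smul_eq_mul]
      rcases hi.lt_or_eq with h | h
      · rw [hz i h, if_neg (by omega), mul_zero, sub_zero]
      · subst h
        rw [if_pos rfl, mul_one, hτ, sub_self]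
    rw [map_sub, map_smul, smul_eq_mul, sub_eq_zero] at h1
    exact h1
  have hdl : ∀ f ∈ QQ b e (m + 1), f (dl e (m + 1)) ≤ 0 := by
    intro f hf
    have h1 : dl e (m + 1) = e m - e (m + 1) := rfl
    rw [h1, map_sub, QQ_basis hJ hf le_rfl]
    have := QQ_le hJ hf (e m)
    rw [norm_e hn hJ] at this
    have := (abs_le.1 this).2
    linarith
  rcases le_or_gt 0 τ with h0 | h0
  · rw [max_eq_right (by linarith), zero_mul]
    refine le_antisymm (AA_le hn hJ fun f hf => ?_) ?_
    · rw [hval f hf]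
      exact mul_nonpos_of_nonneg_of_nonpos h0 (hdl f hf)
    · refine le_trans (le_of_eq ?_) (le_AA hJ (neg_t_mem_QQ hn hJ (Nat.zero_le (m + 1))) z)
      rw [_root_.neg_apply, hz 0 (by omega), neg_zero]
  · rw [max_eq_left (by linarith)]
    refine le_antisymm (AA_le hn hJ fun f hf => ?_) ?_
    · rw [hval f hf]
      have h1 := le_AA hJ hf (- dl e (m + 1))
      rw [map_neg] at h1
      nlinarith
    · have h1 : AA b e (m + 1) (- dl e (m + 1)) ≤ AA b e (m + 1) z / (-τ) :=
        AA_le hn hJ fun f hf => by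
          rw [le_div_iff₀ (by linarith), map_neg]
          have h2 := le_AA hJ hf z
          rw [hval f hf] at h2
          linarith
      rw [le_div_iff₀ (by linarith)] at h1
      linarith

theorem AA_dl_pos (hn : ∀ i, ‖b i‖ = 1) (hJ : IsJamesification b.basis e) (k : ℕ) :
    1 ≤ AA b e k (- dl e k) := by
  refine le_trans (le_of_eq ?_) (le_AA hJ (neg_t_mem_QQ hn hJ (le_refl k)) _)
  rw [_root_.neg_apply, map_neg, t_dl hJ, if_pos rfl, neg_neg]

theorem t_T (hrefl : Function.Surjective (NormedSpace.inclusionInDoubleDual ℝ X))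
    (hn : ∀ i, ‖b i‖ = 1) (hJ : IsJamesification b.basis e) (hR : RotundAt b)
    {T : E ≃ₗᵢ[ℝ] E} (hT : IsPosIso b e T) (k : ℕ) : ∀ z, t b e k (T z) = t b e k z := by
  induction k using Nat.strong_induction_on with
  | _ k ih =>
    have hAA := AA_T hrefl hn hJ hR hT
    -- first step: vectors with `t_i = 0` for `i < k`
    have hstep : ∀ z, (∀ i, i < k → t b e i z = 0) → t b e k (T z) = t b e k z := by
      intro z hz
      rcases Nat.eq_zero_or_pos k with hk | hk
      · subst hk
        have h1 : ∀ z, AA b e 0 z = - t b e 0 z := by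
          intro z
          have hval : ∀ f ∈ QQ b e 0, f z = - t b e 0 z := by
            intro f hf
            have h2 : f (z - t b e 0 z • dl e 0) = 0 := QQ_zero hJ hf fun i hi => by
              have hi0 : i = 0 := by omega
              subst hi0
              rw [map_sub, map_smul, t_dl hJ, if_pos rfl, smul_eq_mul, mul_one, sub_self]
            have h3 : dl e 0 = - e 0 := rfl
            rw [map_sub, map_smul, smul_eq_mul, h3, map_neg, QQ_basis hJ hf le_rfl] at h2
            linarith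
          refine le_antisymm (AA_le hn hJ fun f hf => (hval f hf).le) ?_
          have h4 := neg_t_mem_QQ hn hJ (le_refl 0) (b := b) (e := e)
          rw [← hval _ h4]
          exact le_AA hJ h4 z
        have h2 := hAA 0 z
        rw [h1, h1] at h2
        linarith
      · have hz' : ∀ i, i < k → t b e i (T z) = 0 := fun i hi => by rw [ih i hi, hz i hi]
        have hzn : ∀ i, i < k → t b e i (-z) = 0 := fun i hi => by
          rw [map_neg, hz i hi, neg_zero]
        have hzn' : ∀ i, i < k → t b e i (-(T z)) = 0 := fun i hi => by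
          rw [map_neg, hz' i hi, neg_zero]
        have hM := AA_dl_pos hn hJ (b := b) (e := e) k
        have h1 := hAA k z
        rw [AA_formula hn hJ hk hz, AA_formula hn hJ hk hz'] at h1
        have h2 := hAA k (-z)
        rw [map_neg, AA_formula hn hJ hk hzn, AA_formula hn hJ hk hzn', map_neg, map_neg,
          neg_neg, neg_neg] at h2
        have h3 := mul_right_cancel₀ (by linarith) h1
        have h4 := mul_right_cancel₀ (by linarith) h2
        have h5 : ∀ τ : ℝ, max τ 0 - max (-τ) 0 = τ := by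
          intro τ
          rcases le_or_gt 0 τ with h | h
          · rw [max_eq_left h, max_eq_right (by linarith), sub_zero]
          · rw [max_eq_right h.le, max_eq_left (by linarith)]; ring
        rw [← h5 (t b e k (T z)), ← h5 (t b e k z), h3, h4]
    -- second step
    have hℓ : ∀ z, t b e k (T z) - t b e k z =
        ∑ i ∈ Finset.range k, t b e i z * (t b e k (T (dl e i)) - t b e k (dl e i)) := by
      intro z
      have h1 := hstep (z - ∑ i ∈ Finset.range k, t b e i z • dl e i) (fun i hi => by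
        rw [map_sub, map_sum]
        have : ∀ j ∈ Finset.range k, t b e i (t b e j z • dl e j) =
            if i = j then t b e j z else 0 := by
          intro j _
          rw [map_smul, t_dl hJ, smul_eq_mul]
          split_ifs <;> simp
        rw [Finset.sum_congr rfl this, Finset.sum_ite_eq, if_pos (Finset.mem_range.2 hi),
          sub_self])
      simp only [map_sub, map_sum, map_smul, smul_eq_mul] at h1
      simp only [mul_sub, Finset.sum_sub_distrib]
      linarith
    have hinv : ∀ z, t b e k (T (T z)) - t b e k (T z) = t b e k (T z) - t b e k z := by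
      intro z
      rw [hℓ (T z), hℓ z]
      refine Finset.sum_congr rfl fun i hi => ?_
      rw [ih i (Finset.mem_range.1 hi)]
    intro z
    have hiter : ∀ n : ℕ, t b e k ((T^[n]) z) = t b e k z + n * (t b e k (T z) - t b e k z) ∧
        t b e k (T ((T^[n]) z)) - t b e k ((T^[n]) z) = t b e k (T z) - t b e k z := by
      intro n
      induction n with
      | zero => simp
      | succ n ihn =>
        rw [Function.iterate_succ_apply']
        refine ⟨?_, ?_⟩
        · have := ihn.2
          rw [ihn.1] at this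
          push_cast
          linarith
        · rw [hinv, ihn.2]
    have hnorm : ∀ n : ℕ, ‖(T^[n]) z‖ = ‖z‖ := by
      intro n
      induction n with
      | zero => simp
      | succ n ihn => rw [Function.iterate_succ_apply', T.norm_map, ihn]
    have hb : ∀ n : ℕ, (n : ℝ) * |t b e k (T z) - t b e k z| ≤ 2 * ‖z‖ := by
      intro n
      have h1 := (hiter n).1
      have h2 := abs_t_le hn hJ (b := b) k ((T^[n]) z)
      rw [hnorm] at h2
      have h3 := abs_t_le hn hJ (b := b) k z
      have h4 : (n : ℝ) * (t b e k (T z) - t b e k z) = t b e k ((T^[n]) z) - t b e k z := by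
        rw [h1]; ring
      have h5 : (n : ℝ) * |t b e k (T z) - t b e k z| =
          |t b e k ((T^[n]) z) - t b e k z| := by
        rw [← h4, abs_mul, (abs_of_nonneg (Nat.cast_nonneg n) : |(n : ℝ)| = n)]
      rw [h5]
      have := abs_sub (t b e k ((T^[n]) z)) (t b e k z)
      linarith
    by_contra hne
    have hpos : 0 < |t b e k (T z) - t b e k z| := abs_pos.2 (sub_ne_zero.2 hne)
    obtain ⟨n, hn2⟩ := exists_nat_gt (2 * ‖z‖ / |t b e k (T z) - t b e k z|)
    rw [div_lt_iff₀ hpos] at hn2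
    have := hb n
    linarith

/-- **the isometry group of the Jamesification is trivial if the basis vectors are rotund** -/
theorem rotund_trivial (hrefl : Function.Surjective (NormedSpace.inclusionInDoubleDual ℝ X))
    (hn : ∀ i, ‖b i‖ = 1) (hJ : IsJamesification b.basis e) (hR : RotundAt b)
    (T : E ≃ₗᵢ[ℝ] E) : (∀ z, T z = z) ∨ (∀ z, T z = -z) := by
  rcases pos_or_neg hrefl hn hJ (noTwo_of_rotund hn hR) T with h | h
  · left
    intro z
    exact eq_of_t hJ fun n => t_T hrefl hn hJ hR h n z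
  · right
    intro z
    have h1 : (T.trans (LinearIsometryEquiv.neg ℝ)) z = z :=
      eq_of_t hJ fun n => t_T hrefl hn hJ hR h n z
    have h2 : (T.trans (LinearIsometryEquiv.neg ℝ)) z = - T z := rfl
    rw [h2] at h1
    exact neg_eq_iff_eq_neg.1 h1

end Pool.Agent.Work.MP_8db9c5_an
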