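import Pool.Agent.Work.MP_8db9c5_an.Rotund

/-!
# Smooth basis vectors: isometries are permutations of the coordinates `t_n` up to sign
-/

set_option linter.unusedSectionVars false

open Topology Filter Set

namespace Pool.Agent.Work.MP_8db9c5_an

variable {X : Type*} [NormedAddCommGroup X] [NormedSpace ℝ X] [CompleteSpace X]
variable {E : Type*} [NormedAddCommGroup E] [NormedSpace ℝ E] [CompleteSpace E]
variable {b : UnconditionalSchauderBasis ℕ ℝ X} {e : ℕ → E}

/-- the norm is differentiable at `x_p` in the directions `x_i`, `i < p`, with derivative zero -/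
def SmoothAt (b : UnconditionalSchauderBasis ℕ ℝ X) : Prop :=
  ∀ (p i : ℕ), i < p → ∀ s : ℝ, (s = 1 ∨ s = -1) →
    Tendsto (fun M : ℝ => ‖M • b p + s • b i‖ - M) atTop (𝓝 0)

theorem smooth_dual (hS : SmoothAt b) {g : X →L[ℝ] ℝ} (hg : ‖g‖ ≤ 1) {p i : ℕ} (hip : i < p)
    (hgp : g (b p) = 1) : g (b i) = 0 := by
  have key : ∀ s : ℝ, (s = 1 ∨ s = -1) → s * g (b i) ≤ 0 := by
    intro s hs
    refine ge_of_tendsto' (hS p i hip s hs) fun M => ?_
    have h1 : g (M • b p + s • b i) ≤ ‖M • b p + s • b i‖ := by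
      refine (le_abs_self _).trans ?_
      rw [← Real.norm_eq_abs]
      have := g.le_of_opNorm_le hg (M • b p + s • b i)
      rwa [one_mul] at this
    rw [map_add, map_smul, map_smul, hgp, smul_eq_mul, smul_eq_mul, mul_one] at h1
    linarith
  have h1 := key 1 (Or.inl rfl)
  have h2 := key (-1) (Or.inr rfl)
  linarith

theorem noTwo_of_smooth (hS : SmoothAt b) : NoTwo b := by
  intro g i j hg hi hj
  rcases lt_trichotomy i j with h | h | h
  · have := smooth_dual hS hg h hj
    rw [hi] at this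
    exact absurd this one_ne_zero
  · exact h
  · have := smooth_dual hS hg h hi
    rw [hj] at this
    exact absurd this one_ne_zero

theorem smooth_formula (hJ : IsJamesification b.basis e) (hS : SmoothAt b)
    {r : ℕ → Option ℕ} (hr : IsCode r) {p : ℕ} (hp : ∀ j, (r j = some p ↔ p ≤ j))
    {g : X →L[ℝ] ℝ} (hg : ‖g‖ ≤ 1) (hgp : g (b p) = 1) (z : E) :
    g (V b.basis e r z) = - t b e p z := by
  rw [inf_formula hJ hr hp, hgp, one_mul]
  have : ∑ p' ∈ Finset.range p, g (b p') * cf b e r p' z = 0 :=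
    Finset.sum_eq_zero fun p' hp' => by
      rw [smooth_dual hS hg (Finset.mem_range.1 hp') hgp, zero_mul]
  rw [this, zero_sub]

/-- a functional dominated by the `t_p` is a convex combination of them -/
theorem convex_rep (hJ : IsJamesification b.basis e) (φ : E →L[ℝ] ℝ) (N : ℕ)
    (h : ∀ z, ∃ p, p < N ∧ - φ z ≤ - t b e p z) :
    ∃ w : ℕ → ℝ, (∀ n, 0 ≤ w n) ∧ (∀ n, w n = φ (dl e n)) ∧
      (∀ n, N ≤ n → w n = 0) ∧ ∑ n ∈ Finset.range N, w n = 1 ∧
      ∀ z, φ z = ∑ n ∈ Finset.range N, w n * t b e n z := by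
  have h1 : ∀ n, 0 ≤ φ (dl e n) := by
    intro n
    obtain ⟨p, _, hle⟩ := h (dl e n)
    rw [t_dl hJ] at hle
    split_ifs at hle <;> linarith
  have h2 : ∀ n, N ≤ n → φ (dl e n) = 0 := by
    intro n hn
    obtain ⟨p, hp, hle⟩ := h (- dl e n)
    rw [map_neg, map_neg, t_dl hJ, if_neg (by omega)] at hle
    have := h1 n
    linarith
  have hsum : ∀ m, e m = - ∑ n ∈ Finset.range (m + 1), dl e n := by
    intro m
    induction m with
    | zero => simp [dl]
    | succ m ih =>
      rw [Finset.sum_range_succ, neg_add, ← ih]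
      simp [dl]
  have h3 : ∀ m, N ≤ m → φ (e m) = -1 := by
    intro m hm
    obtain ⟨p, hp, hle⟩ := h (e m)
    obtain ⟨p', hp', hle'⟩ := h (- e m)
    rw [t_basis hJ, if_neg (by omega)] at hle
    rw [map_neg, map_neg, t_basis hJ, if_neg (by omega)] at hle'
    linarith
  have h4 : ∑ n ∈ Finset.range N, φ (dl e n) = 1 := by
    have h5 := h3 N le_rfl
    rw [hsum N, map_neg, map_sum, Finset.sum_range_succ, h2 N le_rfl, add_zero] at h5
    linarith
  refine ⟨fun n => φ (dl e n), h1, fun n => rfl, h2, h4, fun z => ?_⟩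
  have h6 : φ = ∑ n ∈ Finset.range N, φ (dl e n) • t b e n := clm_ext hJ.dense fun j => by
    rw [_root_.sum_apply]
    simp only [_root_.smul_apply, smul_eq_mul]
    have h7 : ∀ n, φ (dl e n) * t b e n (e j) = if n < j + 1 then - φ (dl e n) else 0 := by
      intro n
      rw [t_basis hJ]
      by_cases hn : n < j + 1
      · rw [if_pos hn, if_neg (by omega)]; ring
      · rw [if_neg hn, if_pos (by omega), mul_zero]
    simp only [h7]
    rw [hsum j, map_neg, map_sum, ← Finset.sum_filter, Finset.sum_neg_distrib]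
    congr 1
    rw [← Finset.sum_filter_add_sum_filter_not (Finset.range (j + 1)) (fun n => n < N)]
    have h8 : ∑ n ∈ Finset.filter (fun n => ¬ n < N) (Finset.range (j + 1)), φ (dl e n) = 0 :=
      Finset.sum_eq_zero fun n hn => h2 n (by
        have := (Finset.mem_filter.1 hn).2; omega)
    rw [h8, add_zero]
    refine Finset.sum_congr ?_ fun _ _ => rfl
    ext n
    simp only [Finset.mem_filter, Finset.mem_range]
    tauto
  have h9 := congrArg (fun f => f z) h6
  simp only [_root_.sum_apply, _root_.smul_apply, smul_eq_mul] at h9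
  exact h9

theorem smooth_rep (hrefl : Function.Surjective (NormedSpace.inclusionInDoubleDual ℝ X))
    (hn : ∀ i, ‖b i‖ = 1) (hJ : IsJamesification b.basis e) (hS : SmoothAt b)
    {T : E ≃ₗᵢ[ℝ] E} (hT : IsPosIso b e T) (u : ℕ) :
    ∃ (N : ℕ) (w : ℕ → ℝ), (∀ n, 0 ≤ w n) ∧ (∀ n, w n = t b e u (T.symm (dl e n))) ∧
      (∀ n, N ≤ n → w n = 0) ∧ ∑ n ∈ Finset.range N, w n = 1 ∧
      ∀ z, t b e u (T.symm z) = ∑ n ∈ Finset.range N, w n * t b e n z := by
  have hno := noTwo_of_smooth hS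
  set y := T (xi e u) with hy
  have hynorm : ‖y‖ = 1 := by rw [hy, T.norm_map, norm_xi hn hJ]
  obtain ⟨N, hN⟩ : ∃ N, ∀ p, t b e p y = -1 → p < N := by
    have h1 := (t_tendsto hn hJ (b := b) y)
    rw [Metric.tendsto_atTop] at h1
    obtain ⟨N, hN⟩ := h1 1 one_pos
    refine ⟨N, fun p hp => ?_⟩
    by_contra hcon
    have h2 := hN p (by omega)
    rw [hp, Real.dist_eq] at h2
    norm_num at h2
  obtain ⟨w, h1, h2, h3, h4, h5⟩ := convex_rep hJ ((t b e u).comp (T.symm : E →L[ℝ] E)) N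
    fun z => by
      have hmem := neg_t_mem_QQ hn hJ (le_refl u) (b := b) (e := e)
      have hnorm : ‖(-(t b e u)).comp (T.symm : E →L[ℝ] E)‖ ≤ 1 :=
        ContinuousLinearMap.opNorm_le_bound _ zero_le_one fun z => by
          rw [one_mul]
          have := QQ_le hJ hmem (T.symm z)
          rw [T.symm.norm_map] at this
          exact this
      obtain ⟨r, g, hr, hg, hξ, hle⟩ := exists_danskin hJ y z _ hnorm (by
        rw [hynorm, hy]
        change (-(t b e u)) (T.symm (T (xi e u))) = 1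
        rw [T.symm_apply_apply]
        exact QQ_xi hn hJ hmem)
      rw [hynorm] at hξ
      obtain ⟨p, hp, hgp⟩ := norming_T_pos hrefl hn hJ hno hT hr hg hξ
      rw [smooth_formula hJ hS hr hp hg hgp] at hle hξ
      exact ⟨p, hN p (by linarith), hle⟩
  exact ⟨N, w, h1, h2, h3, h4, h5⟩

theorem smooth_single (hrefl : Function.Surjective (NormedSpace.inclusionInDoubleDual ℝ X))
    (hn : ∀ i, ‖b i‖ = 1) (hJ : IsJamesification b.basis e) (hS : SmoothAt b)
    {T : E ≃ₗᵢ[ℝ] E} (hT : IsPosIso b e T) (u : ℕ) :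
    ∃ n, ∀ z, t b e u (T z) = t b e n z := by
  have hno := noTwo_of_smooth hS
  have hT' := IsPosIso.symm hrefl hn hJ hno hT
  obtain ⟨N, a, ha1, ha2, ha3, ha4, ha5⟩ := smooth_rep hrefl hn hJ hS hT' u
  rw [T.symm_symm] at ha5 ha2
  -- some coefficient is positive
  obtain ⟨n, hnN, hpos⟩ : ∃ n, n < N ∧ 0 < a n := by
    by_contra hcon
    push Not at hcon
    have : ∑ n ∈ Finset.range N, a n ≤ 0 := Finset.sum_nonpos fun n hn =>
      hcon n (Finset.mem_range.1 hn)
    linarith
  obtain ⟨N', w, hw1, hw2, hw3, hw4, hw5⟩ := smooth_rep hrefl hn hJ hS hT n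
  have hzero : ∀ v, v ≠ u → w v = 0 := by
    intro v hv
    have h1 := ha5 (T.symm (dl e v))
    rw [T.apply_symm_apply, t_dl hJ, if_neg (Ne.symm hv)] at h1
    have h2 : ∀ m ∈ Finset.range N, 0 ≤ a m * t b e m (T.symm (dl e v)) := by
      intro m _
      obtain ⟨_, w', hw1', hw2', _⟩ := smooth_rep hrefl hn hJ hS hT m
      rw [← hw2' v]
      exact mul_nonneg (ha1 m) (hw1' v)
    have h3 := (Finset.sum_eq_zero_iff_of_nonneg h2).1 h1.symm n (Finset.mem_range.2 hnN)
    rw [← hw2 v] at h3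
    rcases mul_eq_zero.1 h3 with h4 | h4
    · linarith
    · exact h4
  have huN : u < N' := by
    by_contra hcon
    have : ∑ m ∈ Finset.range N', w m = 0 := Finset.sum_eq_zero fun m hm => hzero m (by
      have := Finset.mem_range.1 hm; omega)
    rw [this] at hw4
    exact zero_ne_one hw4
  have hone : w u = 1 := by
    rw [← hw4]
    exact (Finset.sum_eq_single_of_mem u (Finset.mem_range.2 huN) fun m _ hm => hzero m hm).symm
  refine ⟨n, fun z => ?_⟩
  have h1 := hw5 (T z)
  rw [T.symm_apply_apply] at h1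
  rw [h1, Finset.sum_eq_single_of_mem u (Finset.mem_range.2 huN)
    fun m _ hm => by rw [hzero m hm, zero_mul], hone, one_mul]

theorem t_inj (hJ : IsJamesification b.basis e) {m n : ℕ} (h : ∀ z, t b e m z = t b e n z) :
    m = n := by
  have h1 := h (dl e m)
  rw [t_dl hJ, t_dl hJ, if_pos rfl] at h1
  by_contra hcon
  rw [if_neg (Ne.symm hcon)] at h1
  exact one_ne_zero h1

/-- **structure of the isometries in the smooth case** -/
theorem smooth_perm (hrefl : Function.Surjective (NormedSpace.inclusionInDoubleDual ℝ X))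
    (hn : ∀ i, ‖b i‖ = 1) (hJ : IsJamesification b.basis e) (hS : SmoothAt b)
    {T : E ≃ₗᵢ[ℝ] E} (hT : IsPosIso b e T) :
    ∃ ρ : Equiv.Perm ℕ, ∀ n z, t b e n (T z) = t b e (ρ n) z := by
  have hT' := IsPosIso.symm hrefl hn hJ (noTwo_of_smooth hS) hT
  choose ρ hρ using smooth_single hrefl hn hJ hS hT
  choose ρ' hρ' using smooth_single hrefl hn hJ hS hT'
  refine ⟨⟨ρ, ρ', fun u => ?_, fun u => ?_⟩, hρ⟩
  · refine t_inj hJ (b := b) (e := e) fun z => ?_
    rw [← hρ', ← hρ, T.apply_symm_apply]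
  · refine t_inj hJ (b := b) (e := e) fun z => ?_
    rw [← hρ, ← hρ', T.symm_apply_apply]

theorem smooth_dl (hJ : IsJamesification b.basis e) {T : E ≃ₗᵢ[ℝ] E} {ρ : Equiv.Perm ℕ}
    (h : ∀ n z, t b e n (T z) = t b e (ρ n) z) (n : ℕ) : T (dl e n) = dl e (ρ.symm n) := by
  refine eq_of_t hJ fun m => ?_
  rw [h, t_dl hJ, t_dl hJ]
  by_cases h1 : ρ m = n
  · rw [if_pos h1, if_pos (by rw [← h1, Equiv.symm_apply_apply])]
  · rw [if_neg h1, if_neg (fun h2 => h1 (by rw [h2, Equiv.apply_symm_apply]))]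

/-- every isometry permutes the vectors `δ_n` up to a common sign -/
theorem smooth_structure (hrefl : Function.Surjective (NormedSpace.inclusionInDoubleDual ℝ X))
    (hn : ∀ i, ‖b i‖ = 1) (hJ : IsJamesification b.basis e) (hS : SmoothAt b)
    (T : E ≃ₗᵢ[ℝ] E) : ∃ (s : ℝ) (π : Equiv.Perm ℕ), (s = 1 ∨ s = -1) ∧
      ∀ n, T (dl e n) = s • dl e (π n) := by
  rcases pos_or_neg hrefl hn hJ (noTwo_of_smooth hS) T with h | h
  · obtain ⟨ρ, hρ⟩ := smooth_perm hrefl hn hJ hS h
    exact ⟨1, ρ.symm, Or.inl rfl, fun n => by rw [smooth_dl hJ hρ, one_smul]⟩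
  · obtain ⟨ρ, hρ⟩ := smooth_perm hrefl hn hJ hS h
    refine ⟨-1, ρ.symm, Or.inr rfl, fun n => ?_⟩
    have h1 := smooth_dl hJ hρ n
    have h2 : (T.trans (LinearIsometryEquiv.neg ℝ)) (dl e n) = - T (dl e n) := rfl
    rw [h2] at h1
    rw [neg_smul, one_smul, ← h1, neg_neg]

theorem smooth_pos_trivial (hrefl : Function.Surjective (NormedSpace.inclusionInDoubleDual ℝ X))
    (hn : ∀ i, ‖b i‖ = 1) (hJ : IsJamesification b.basis e) (hS : SmoothAt b)
    (hadj : ∀ j, 1 < ‖b j - b (j + 1)‖) {T : E ≃ₗᵢ[ℝ] E} (hT : IsPosIso b e T) (z : E) :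
    T z = z := by
  obtain ⟨ρ, hρ⟩ := smooth_perm hrefl hn hJ hS hT
  have hmono : StrictMono ρ := by
    refine strictMono_nat_of_lt_succ fun u => ?_
    by_contra hcon
    have hne : ρ u ≠ ρ (u + 1) := fun h => by
      have := ρ.injective h
      omega
    have hlt : ρ (u + 1) < ρ u := by omega
    have h1 := norm_V_le hJ (isCode_cTwo (i := u) (le_refl (u + 1))) (T (e (ρ (u + 1))))
    rw [V_cTwo hJ (by omega) le_rfl, T.norm_map, norm_e hn hJ] at h1
    have h2 : t b e u (T (e (ρ (u + 1)))) = 0 := by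
      rw [hρ, t_basis hJ, if_pos hlt]
    have h3 : t b e (u + 1) (T (e (ρ (u + 1)))) = -1 := by
      rw [hρ, t_basis hJ, if_neg (lt_irrefl _)]
    rw [t_apply] at h2 h3
    have h4 : S b e (u + 1) (T (e (ρ (u + 1)))) - S b e u (T (e (ρ (u + 1)))) = -1 := by
      linarith
    have h5 : Sg b e (T (e (ρ (u + 1)))) - S b e (u + 1) (T (e (ρ (u + 1)))) = 1 := by
      linarith
    rw [h4, h5, one_smul, neg_smul, one_smul] at h1
    have h6 : -b u + b (u + 1) = -(b u - b (u + 1)) := by abel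
    rw [h6, norm_neg] at h1
    have := hadj u
    linarith
  have hid : ∀ n, ρ n = n := by
    have h1 : ∀ n, n ≤ ρ n := fun n => hmono.id_le n
    have h2 : StrictMono ρ.symm := by
      intro m n hmn
      by_contra hcon
      have h3 : ρ.symm n ≤ ρ.symm m := by omega
      have h4 := hmono.monotone h3
      rw [Equiv.apply_symm_apply, Equiv.apply_symm_apply] at h4
      omega
    intro n
    have h3 : ρ n ≤ ρ.symm (ρ n) := h2.id_le (ρ n)
    rw [Equiv.symm_apply_apply] at h3
    have := h1 n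
    omega
  exact eq_of_t hJ fun n => by rw [hρ, hid]

/-- **the isometry group is trivial in the smooth case if `‖x_j - x_{j+1}‖ > 1` for all `j`** -/
theorem smooth_trivial (hrefl : Function.Surjective (NormedSpace.inclusionInDoubleDual ℝ X))
    (hn : ∀ i, ‖b i‖ = 1) (hJ : IsJamesification b.basis e) (hS : SmoothAt b)
    (hadj : ∀ j, 1 < ‖b j - b (j + 1)‖) (T : E ≃ₗᵢ[ℝ] E) :
    (∀ z, T z = z) ∨ (∀ z, T z = -z) := by
  rcases pos_or_neg hrefl hn hJ (noTwo_of_smooth hS) T with h | h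
  · left
    exact smooth_pos_trivial hrefl hn hJ hS hadj h
  · right
    intro z
    have h1 := smooth_pos_trivial hrefl hn hJ hS hadj h z
    have h2 : (T.trans (LinearIsometryEquiv.neg ℝ)) z = - T z := rfl
    rw [h2] at h1
    exact neg_eq_iff_eq_neg.1 h1

end Pool.Agent.Work.MP_8db9c5_an
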