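import Pool.Agent.Work.MP_8db9c5_an.Rotund

/-!
# Strictly convex spaces
-/

set_option linter.unusedSectionVars false

open Topology Filter Set

namespace Pool.Agent.Work.MP_8db9c5_an

variable {X : Type*} [NormedAddCommGroup X] [NormedSpace ℝ X]

theorem strict_aux [StrictConvexSpace ℝ X] {u v : X} (hu : ‖u‖ ≤ 1) (hv : ‖v‖ ≤ 1)
    (h : 2 ≤ ‖u + v‖) : u = v := by
  have h1 := norm_add_le u v
  have hu1 : ‖u‖ = 1 := by linarith
  have hv1 : ‖v‖ = 1 := by linarith
  refine eq_of_norm_eq_of_norm_add_eq (by rw [hu1, hv1]) ?_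
  rw [hu1, hv1]
  linarith

theorem rotundAt_of_strictConvex [StrictConvexSpace ℝ X]
    (b : UnconditionalSchauderBasis ℕ ℝ X) (hn : ∀ i, ‖b i‖ = 1) (hP : ∀ A, ‖b.proj A‖ ≤ 1)
    (p : ℕ) (v : X) (hv : v ∈ Submodule.span ℝ (b.basis '' Set.Iic p))
    (h1 : ∀ A : Finset ℕ, ‖b.proj A v‖ ≤ 1) (h2 : ∃ A : Finset ℕ, ‖b.proj A (v + b p)‖ = 2) :
    v = b p := by
  classical
  have hproj : b.proj (Finset.range (p + 1)) v = v := by
    refine Submodule.span_induction
      (p := fun v _ => b.proj (Finset.range (p + 1)) v = v) ?_ ?_ ?_ ?_ hv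
    · rintro _ ⟨i, hi, rfl⟩
      rw [GeneralSchauderBasis.proj_apply_basis_mem, if_pos]
      rw [Finset.mem_range]
      have : i ≤ p := hi
      omega
    · rw [map_zero]
    · intro x y _ _ hx hy
      rw [map_add, hx, hy]
    · intro c x _ hx
      rw [map_smul, hx]
  have hv1 : ‖v‖ ≤ 1 := by rw [← hproj]; exact h1 _
  obtain ⟨A, hA⟩ := h2
  rw [map_add] at hA
  have hpA : b.proj A (b p) = b p := by
    rw [GeneralSchauderBasis.proj_apply_basis_mem]
    by_contra hcon
    rw [GeneralSchauderBasis.proj_apply_basis_mem] at hA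
    split_ifs at hA hcon with h3
    · exact hcon rfl
    · rw [add_zero] at hA
      have := h1 A
      linarith
  rw [hpA] at hA
  have hAv : b.proj A v = b p := strict_aux (h1 A) (hn p).le hA.ge
  -- the coordinate of `v` at `p` is one
  have hcoord : b.coord p v = 1 := by
    have h3 : b.coord p (b.proj A v) = b.coord p v ∨ b.proj A (b p) = 0 := by
      by_cases hp : p ∈ A
      · left
        rw [GeneralSchauderBasis.proj_apply, map_sum]
        rw [Finset.sum_eq_single_of_mem p hp]
        · rw [map_smul, coord_basis, if_pos rfl, smul_eq_mul, mul_one]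
        · intro i _ hi
          rw [map_smul, coord_basis, if_neg (Ne.symm hi), smul_zero]
      · right
        rw [GeneralSchauderBasis.proj_apply_basis_mem, if_neg hp]
    rcases h3 with h3 | h3
    · rw [← h3, hAv, coord_basis, if_pos rfl]
    · rw [hpA] at h3
      have := hn p
      rw [h3, norm_zero] at this
      exact absurd this zero_ne_one
  refine strict_aux hv1 (hn p).le ?_
  have h4 : b.proj {p} (v + b p) = (2 : ℝ) • b p := by
    rw [GeneralSchauderBasis.proj_apply, Finset.sum_singleton, map_add, hcoord, coord_basis,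
      if_pos rfl]
    norm_num
  have h5 : ‖b.proj {p} (v + b p)‖ ≤ ‖v + b p‖ := by
    have := (b.proj {p}).le_of_opNorm_le (hP _) (v + b p)
    rwa [one_mul] at this
  rw [h4, norm_smul, hn] at h5
  norm_num at h5
  exact h5

end Pool.Agent.Work.MP_8db9c5_an
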