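import Pool.Agent.Work.MP_8db9c5_an.Iso

/-!
# The coordinates `t_n = s_n - σ`
-/

set_option linter.unusedSectionVars false

open Topology Filter Set

namespace Pool.Agent.Work.MP_8db9c5_an

variable {X : Type*} [NormedAddCommGroup X] [NormedSpace ℝ X] [CompleteSpace X]
variable {E : Type*} [NormedAddCommGroup E] [NormedSpace ℝ E] [CompleteSpace E]
variable {b : UnconditionalSchauderBasis ℕ ℝ X} {e : ℕ → E}

/-- `t_n z = s_n z - σ z` -/
noncomputable def t (b : UnconditionalSchauderBasis ℕ ℝ X) (e : ℕ → E) (n : ℕ) : E →L[ℝ] ℝ :=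
  S b e n - Sg b e

theorem t_apply (n : ℕ) (z : E) : t b e n z = S b e n z - Sg b e z := rfl

theorem t_basis (hJ : IsJamesification b.basis e) (n j : ℕ) :
    t b e n (e j) = if j < n then 0 else -1 := by
  rw [t_apply, S_basis hJ, Sg_basis hJ]
  split_ifs <;> norm_num

theorem abs_t_le (hn : ∀ i, ‖b i‖ = 1) (hJ : IsJamesification b.basis e) (n : ℕ) (z : E) :
    |t b e n z| ≤ ‖z‖ := by
  have := abs_Sg_sub_le hn hJ n z
  rwa [← abs_neg, neg_sub] at this

theorem t_tendsto (hn : ∀ i, ‖b i‖ = 1) (hJ : IsJamesification b.basis e) (z : E) :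
    Tendsto (fun n => t b e n z) atTop (𝓝 0) := by
  rw [Metric.tendsto_nhds]
  intro ε hε
  obtain ⟨a, ha⟩ := exists_approx hJ.dense z hε
  filter_upwards [eventually_ge_atTop (a.support.sup id + 1)] with n hn2
  rw [Real.dist_eq, sub_zero]
  have h1 : t b e n (a.sum fun j c => c • e j) = 0 := by
    rw [Finsupp.sum, map_sum]
    refine Finset.sum_eq_zero fun j hj => ?_
    have h2 : j ≤ a.support.sup id := Finset.le_sup (f := id) hj
    rw [map_smul, t_basis hJ, if_pos (by omega), smul_zero]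
  have h2 : t b e n z = t b e n (z - a.sum fun j c => c • e j) := by
    rw [map_sub, h1, sub_zero]
  rw [h2]
  exact (abs_t_le hn hJ n _).trans_lt ha

theorem eq_of_t (hJ : IsJamesification b.basis e) {z w : E} (h : ∀ n, t b e n z = t b e n w) :
    z = w := by
  rw [← sub_eq_zero]
  set y := z - w with hy
  have h1 : ∀ n, t b e n y = 0 := fun n => by rw [hy, map_sub, h n, sub_self]
  have h2 : ∀ n, S b e n y = 0 := by
    intro n
    have h3 := h1 n
    have h4 := h1 0
    rw [t_apply] at h3 h4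
    rw [S_zero hJ] at h4
    linarith
  have h3 : ∀ f ∈ Fsub b e, f y = 0 := by
    intro f hf
    refine Submodule.span_induction (p := fun f _ => f y = 0) ?_ ?_ ?_ ?_ hf
    · rintro _ ⟨k, rfl⟩; exact h2 k
    · rfl
    · intro f g _ _ hf hg
      rw [_root_.add_apply, hf, hg, add_zero]
    · intro c f _ hf
      rw [_root_.smul_apply, hf, smul_zero]
  by_contra hne
  have hpos : 0 < ‖y‖ := norm_pos_iff.2 hne
  obtain ⟨f, hf, _, hlt⟩ := F_norming hJ y (‖y‖ / 2) (by positivity)
  rw [h3 f hf] at hlt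
  linarith

/-- the vectors `δ_n` -/
def dl (e : ℕ → E) : ℕ → E
  | 0 => - e 0
  | n + 1 => e n - e (n + 1)

theorem t_dl (hJ : IsJamesification b.basis e) (m n : ℕ) :
    t b e m (dl e n) = if m = n then 1 else 0 := by
  rcases n with _ | n
  · change t b e m (- e 0) = _
    rw [map_neg, t_basis hJ]
    by_cases h : m = 0
    · rw [if_neg (by omega), if_pos h]; norm_num
    · rw [if_pos (by omega), if_neg h, neg_zero]
  · change t b e m (e n - e (n + 1)) = _
    rw [map_sub, t_basis hJ, t_basis hJ]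
    by_cases h1 : m = n + 1
    · rw [if_pos (by omega), if_neg (by omega), if_pos h1]; norm_num
    · rw [if_neg h1]
      by_cases h2 : m ≤ n
      · rw [if_neg (by omega), if_neg (by omega), sub_self]
      · rw [if_pos (by omega), if_pos (by omega), sub_self]

theorem exists_dual_basis (hn : ∀ i, ‖b i‖ = 1) (p : ℕ) :
    ∃ g : X →L[ℝ] ℝ, ‖g‖ ≤ 1 ∧ g (b p) = 1 := by
  obtain ⟨g, hg1, hg2⟩ := exists_dual_vector'' ℝ (b p)
  exact ⟨g, hg1, by rw [hg2, hn]; rfl⟩

theorem inf_cInf (p : ℕ) : ∀ j, (cInf p j = some p ↔ p ≤ j) := by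
  intro j
  unfold cInf
  constructor
  · intro h
    by_contra h2
    rw [if_neg h2] at h
    simp at h
  · intro h
    rw [if_pos h]

/-- the value of `g ∘ V_r` when the last interval starts at `p` -/
theorem inf_formula (hJ : IsJamesification b.basis e) {r : ℕ → Option ℕ} (hr : IsCode r)
    {p : ℕ} (hp : ∀ j, (r j = some p ↔ p ≤ j)) (g : X →L[ℝ] ℝ) (z : E) :
    g (V b.basis e r z) = ∑ p' ∈ Finset.range p, g (b p') * cf b e r p' z -
      g (b p) * t b e p z := by
  rw [decomp g r (p + 1) z, Q_V_eq_zero hJ hr (fun j p' hjp => by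
    by_contra hcon
    have h2 := (hr j p' hjp).1
    have h3 := (hp j).2 (by omega)
    rw [hjp] at h3
    simp only [Option.some.injEq] at h3
    omega), map_zero, add_zero, Finset.sum_range_succ, cf_apply (p := p), coord_V_inf hJ hr hp,
    t_apply]
  ring

theorem inf_cf (hJ : IsJamesification b.basis e) {r : ℕ → Option ℕ} (hr : IsCode r)
    {p : ℕ} (hp : ∀ j, (r j = some p ↔ p ≤ j)) {p' : ℕ} (hlt : p' < p) :
    ∃ q, p' ≤ q ∧ q ≤ p ∧ ∀ z, cf b e r p' z = t b e q z - t b e p' z := by
  have hrp : r p = some p := (hp p).2 le_rfl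
  rcases code_cases hr p' with h | ⟨q, hpq, h⟩ | h
  · refine ⟨p', le_rfl, hlt.le, fun z => ?_⟩
    rw [cf_apply, coord_V_none hJ hr h, sub_self]
  · refine ⟨q, hpq.le, ?_, fun z => ?_⟩
    · by_contra hcon
      have h3 := (h p).2 ⟨hlt.le, by omega⟩
      rw [hrp] at h3
      simp only [Option.some.injEq] at h3
      omega
    · rw [cf_apply, coord_V_fin hJ hr hpq h, t_apply, t_apply]
      ring
  · have h3 := (h p).2 hlt.le
    rw [hrp] at h3
    simp only [Option.some.injEq] at h3
    omega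

end Pool.Agent.Work.MP_8db9c5_an
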